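import Pool.Agent.P.MP_f30597_gt.SV.GCap

/-! Small measurable retracts from a family of fundamental cycles. -/

namespace Pool.Agent.P.MP_f30597_gt.SV

open Finset Matrix MeasureTheory SI

set_option linter.unusedSectionVars false

noncomputable section

open Classical in
theorem sum_meas {X α β : Type} [MeasurableSpace X] (ν : Measure X) [IsFiniteMeasure ν]
    {s : Finset α} {t : Finset β} {B : α → Set X} {E : β → Set X}
    (hB : ∀ a ∈ s, MeasurableSet (B a)) (hE : ∀ b ∈ t, MeasurableSet (E b)) (F : ℕ)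
    (h : ∀ x, (s.filter fun a => x ∈ B a).card ≤ F * (t.filter fun b => x ∈ E b).card) :
    ∑ a ∈ s, ν.real (B a) ≤ F * ∑ b ∈ t, ν.real (E b) := by
  have h1 : ∀ {A : Set X}, MeasurableSet A → Integrable (A.indicator (1 : X → ℝ)) ν :=
    fun hA => (integrable_const _).indicator hA
  rw [sum_congr rfl fun a ha => (integral_indicator_one (hB a ha)).symm,
    sum_congr rfl fun b hb => (integral_indicator_one (hE b hb)).symm,
    ← integral_finsetSum _ fun a ha => h1 (hB a ha),
    ← integral_finsetSum _ fun b hb => h1 (hE b hb), ← integral_const_mul]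
  refine integral_mono (integrable_finsetSum _ fun a ha => h1 (hB a ha))
    ((integrable_finsetSum _ fun b hb => h1 (hE b hb)).const_mul _) fun x => ?_
  simp only [Set.indicator_apply, Pi.one_apply, sum_boole]
  exact_mod_cast h x

namespace GPar

variable {G ι : Type} [Group G] [DecidableEq G] [Fintype ι] [DecidableEq ι] {P : GPar G}

section Mat

variable {κ κ' κ'' : Type} [Fintype κ] [Fintype κ']

theorem row_cn (x : κ → ZG G) (y : Matrix κ κ' (ZG G)) (p : P.X) :
    (∑ k, x k • cn (P := P) (y k)).1 p = x ᵥ* y := by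
  simp only [← map_smul, ← map_sum, vecMul_eq_sum]
  rfl

theorem tp_val (A : κ → P.X → κ' → ZG G) (B : κ' → P.Fn (κ'' → ZG G)) (k : κ) (x : P.X) :
    tp A (fun k' => (B k').1) k x = (∑ k', A k x k' • B k').1 x := by
  rw [sum_val]
  exact sum_congr rfl fun k' _ => (smul_val _ _ _).symm

end Mat

variable (z : P.Fn (Bar G))

/-- a chain whose support is the set of all simplices -/
def zU : Bar G := ⟨occ z, fun l => if l ∈ occ z then 1 else 0, by simp⟩

/-- active cells -/
def Act (k : List G) (x : P.X) : Prop := ∃ σ ∈ occ z, ∃ τ ∈ σ.sublists.toFinset,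
  nrm τ = k ∧ σ ∈ (z.1 ((τ.headD 1)⁻¹⁻¹ • x)).support

theorem tame_act (k : List G) : P.Tame (Act z k) :=
  Tame.det ((occ z).biUnion fun σ => σ.sublists.toFinset)
    (fun τ _ => Tame.shift z.2 (τ.headD 1)⁻¹) fun _ _ e =>
      propext (exists_congr fun σ => and_congr_right fun hσ => exists_congr fun τ =>
        and_congr_right fun hτ => by rw [e τ (mem_biUnion.2 ⟨σ, hσ, hτ⟩)])

variable {z}

theorem adm_act {l : List G} {x : P.X} (h : l ∈ AdmX z x) (h0 : l ≠ []) :
    Act z (nrm l) ((l.headD 1)⁻¹ • x) := by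
  obtain ⟨g, σ, τ, h1, h2, rfl⟩ := h
  refine ⟨σ, mem_occ.2 ⟨_, h1⟩, τ, by simpa using h2, (nrm_tr g τ).symm, ?_⟩
  cases τ with
  | nil => exact absurd rfl h0
  | cons t τ => simpa [tr, smul_smul] using h1

theorem admX_adm {l : List G} {x : P.X} (h : l ∈ AdmX z x) : l ∈ Adm (zU z) := by
  obtain ⟨g, σ, τ, h1, h2, rfl⟩ := h
  exact ⟨σ, mem_occ.2 ⟨_, h1⟩, τ, g, h2, rfl⟩

open Classical in
variable (z) in
/-- rows on the active cells -/
def cut {κ : Type} (Φ : Bar G →ₗ[ZG G] (κ → ZG G)) (k : cells (zU z)) : P.Fn (κ → ZG G) :=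
  ⟨fun x => if Act z k.1 x then Φ (sx k.1) else 0,
    (tame_act z k.1).ite (tame_const _) (tame_const _)⟩

theorem crd_cut {κ : Type} (Φ : Bar G →ₗ[ZG G] (κ → ZG G)) (h : Φ (sx []) = 0) {x : P.X}
    {u : Bar G} (hu : ∀ l ∈ u.support, l ∈ AdmX z x) :
    (∑ k, crd (zU z) u k • cut z Φ k).1 x = Φ u :=
  sup_eq (S := AdmX z x) ((ev (F := κ → ZG G) x).toIntLinearMap ∘ₗ
    (Fintype.linearCombination (ZG G) (cut z Φ) ∘ₗ crd (zU z)).restrictScalars ℤ)
    (Φ.restrictScalars ℤ) (fun l hl => by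
    change (∑ k, crd (zU z) (sx l) k • cut z Φ k).1 x = Φ (sx l)
    rw [sum_eq_single ⟨_, adm_cell (admX_adm hl)⟩ (fun k _ hk => by
      rw [crd_sx, if_neg fun e => hk (Subtype.ext e.1), zero_smul]) (by simp), crd_sx]
    by_cases e : l = []
    · subst e
      rw [if_neg fun e => e.2 rfl, zero_smul, h]
      rfl
    · rw [if_pos ⟨rfl, fun e' => e (List.length_eq_zero_iff.1 (by rw [← nrm_length, e']; rfl))⟩,
        el_val]
      exact (congrArg _ (if_pos (adm_act hl e))).trans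
        ((map_smul Φ _ _).symm.trans (congrArg Φ (sx_nrm _)))) hu

theorem Tame.set {Q : P.X → Prop} (h : P.Tame Q) : MeasurableSet {x | Q x} := by
  have := h.2 True
  rwa [show Q ⁻¹' {True} = {x | Q x} by ext; simp] at this

theorem act_meas {n : ℕ} (hz : ∀ x, z.1 x ∈ Len (n + 1)) (ν : Measure P.X) [IsFiniteMeasure ν]
    (hν : Pmp G ν) : ∑ k : cells (zU z), ν.real {x | Act z k.1 x} ≤
      2 ^ (n + 1) * ∑ σ ∈ occ z, ν.real {x | σ ∈ (z.1 x).support} := by
  classical
  have h1 : ∀ σ, MeasurableSet {x | σ ∈ (z.1 x).support} := fun σ =>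
    (Tame.comp z.2 fun u => σ ∈ u.support).set
  refine (sum_meas ν (t := (occ z).sigma fun σ => σ.sublists.toFinset)
    (E := fun p => (fun x => (p.2.headD 1)⁻¹⁻¹ • x) ⁻¹' {x | p.1 ∈ (z.1 x).support})
    (fun k _ => (tame_act z k.1).set) (fun p _ => P.meas _ (h1 _)) 1 fun x => ?_).trans ?_
  · rw [one_mul]
    refine (card_le_card_of_injOn (t := image (fun p => nrm p.2) _) (fun k => k.1)
      (fun k hk => ?_) Subtype.val_injective.injOn).trans card_image_le
    obtain ⟨σ, h1, τ, h2, h3, h4⟩ := (mem_filter.1 hk).2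
    exact mem_image.2 ⟨⟨σ, τ⟩, mem_filter.2 ⟨mem_sigma.2 ⟨h1, h2⟩, h4⟩, h3⟩
  · rw [Nat.cast_one, one_mul, sum_sigma, mul_sum]
    refine sum_le_sum fun σ hσ => ?_
    obtain ⟨x, hx⟩ := mem_occ.1 hσ
    rw [sum_congr rfl fun τ _ => (hν _).measureReal_preimage (h1 σ).nullMeasurableSet, sum_const,
      nsmul_eq_mul]
    gcongr
    exact_mod_cast (List.toFinset_card_le _).trans_eq (by rw [List.length_sublists, hz x σ hx])

theorem retract {deg : ι → ℕ} {c : Matrix ι ι (ZG G)} {w w' : ι → ℤ} {n : ℕ}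
    {Ψ : Bar G →ₗ[ZG G] (ι → ZG G)} (R : IsResolution deg c w) (hn : ∀ a, deg a ≤ n)
    (R' : IsResolution (fun a => n - deg a) (cst c) w') (h : IsPsi deg c w Ψ)
    (hz : PF Ψ n w' z) : ∃ (φ : ι → P.Fn (cells (zU z) → ZG G)) (t : ι → P.Fn (ι → ZG G)),
      ∀ a x, tp (fun a => (φ a).1) (fun k => (cut z Ψ k).1) a x = (1 : Matrix ι ι (ZG G)) a +
        (tp (fun a => (t a).1) (fun a _ => c a) a x + tp (fun a _ => c a) (fun a => (t a).1) a x) := by
  classical
  obtain ⟨β, hβ⟩ := exists_smallP R hn R' h hz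
  have e1 : ∀ a, (1 : Matrix ι ι (ZG G)) a = Pi.single a 1 := fun a => by
    ext b : 1; simp [one_apply, Pi.single_apply, eq_comm]
  have b0 : ∀ {κ : Type} (Φ : Bar G →ₗ[ZG G] (κ → ZG G)), Φ (sx []) = 0 → ∀ a,
      ∑ b, c a b • mapL Φ (β b) = mapL Φ (mapL bdL (β a)) := fun Φ hΦ a => by
    rw [(hβ a).2.1, map_add, map_zsmul, map_sum,
      show mapL Φ (cn (sx [])) = 0 from Subtype.ext (funext fun _ => hΦ), smul_zero, zero_add]
    simp only [map_smul]
  obtain ⟨t, ht⟩ := genF deg (-c) (fun a b e => R.graded a b (neg_ne_zero.1 e))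
    (by rw [neg_mul_neg, R.sq]) c.vecMulLinear (fun k => Hm deg k ⊓ augK w)
    (fun k => Hm deg (k + 1)) (hm_le R) (hm_fill R)
    (fun a => mapL Ψ (β a) - cn ((1 : Matrix ι ι (ZG G)) a))
    (fun a x => ⟨sub_mem (psi_hm h.hm ((hβ a).1 x)) (e1 a ▸ pat_hom_single deg a), by
      change aug w (Ψ ((β a).1 x) - (1 : Matrix ι ι (ZG G)) a) = 0
      rw [pat_aug_sub, h.au, e1, pat_aug_single, sub_eq_zero]
      refine (congrFun (congrArg DFunLike.coe (congrFun (congrArg Subtype.val (hβ a).2.1) x))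
        []).trans ?_
      change (w a • sx [] + (∑ b, c a b • β b).1 x : Bar G) [] = _
      rw [Finsupp.add_apply, sum_val, Finsupp.finsetSum_apply, sum_eq_zero fun b _ =>
        len_at_nil ((pc (Len (deg b + 1))).smul_mem (c a b) (hβ b).1 x)]
      simp⟩)
    fun a => by
      simp only [Matrix.neg_apply, neg_smul, smul_sub, sum_neg_distrib, sum_sub_distrib, map_sub,
        b0 Ψ (psi_nil h.hm)]
      rw [← neg_sub', add_neg_eq_zero]
      congr 1
      · exact Subtype.ext (funext fun x => h.ch _)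
      · refine Subtype.ext (funext fun x => Eq.trans ?_ (row_cn _ _ x).symm)
        change ((1 : Matrix ι ι (ZG G)) * c : Matrix _ _ _) a =
          (c * (1 : Matrix ι ι (ZG G)) : Matrix _ _ _) a
        rw [one_mul, mul_one]
  refine ⟨fun a => mapL (crd (zU z)) (β a), t, fun a x => ?_⟩
  have := (ht a).2
  simp only [Matrix.neg_apply, neg_smul, sum_neg_distrib] at this
  rw [tp_val, tp_val _ t, show tp (fun a => (t a).1) (fun a _ => c a) a x = (t a).1 x ᵥ* c from
    (tp_val _ (fun a => cn (c a)) a x).trans (row_cn _ _ x)]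
  exact (crd_cut Ψ (psi_nil h.hm) ((hβ a).2.2 x)).trans (congrFun (congrArg Subtype.val
    (sub_eq_iff_eq_add'.1 (eq_add_neg_iff_add_eq.1 this).symm)) x)

end GPar

end

end Pool.Agent.P.MP_f30597_gt.SV
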