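import Pool.Agent.P.MP_f30597_gt.SV.Base

/-! Statements of the steps. -/

namespace Pool.Agent.P.MP_f30597_gt.SV

open Finset Filter Topology MeasureTheory SI

/-! ### Geometry -/

-- deps:
def S_FILL : Prop := ∀ (Y : Type) [MetricSpace Y] [ContractibleSpace Y] (K : Set Y), IsCompact K →
  ∃ K' : Set Y, IsCompact K' ∧ ∀ η : ℝ, 0 < η → ∃ η' : ℝ, 0 < η' ∧ ∀ (k : ℕ) (u : Ch Y),
    Sm k K η' u → bdY u = 0 → ∃ v : Ch Y, Sm (k + 1) K' η v ∧ bdY v = u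

-- deps: FILL
def S_MESH : Prop := ∀ (G ι Y : Type) [Group G] [Fintype ι] [DecidableEq ι] [MetricSpace Y]
  [ContractibleSpace Y] [MulAction G Y] (deg : ι → ℕ) (c : Matrix ι ι (ZG G)) (w : ι → ℤ),
  IsResolution deg c w → (∀ (g : G) (x y : Y), dist (g • x) (g • y) = dist x y) →
  ∀ η : ℝ, 0 < η → ∃ φ : ι → Ch Y, IsCh deg c w φ ∧
    ∀ a, ∀ l ∈ (φ a).support, ∀ x ∈ l, ∀ y ∈ l, dist x y ≤ η

-- deps:
def S_PACK : Prop := ∀ (G Y : Type) [Group G] [Countable G] [MetricSpace Y] [Nonempty Y]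
  [MeasurableSpace Y] [BorelSpace Y] [MulAction G Y] (n : ℕ) (A V : ℝ) (μ : Measure Y) (L : NNReal)
  (Φ : Y → lp (fun _ : G => ℝ) 1), IsModel G n A V μ L Φ → 1 ≤ A ∧ 0 ≤ V ∧ ∃ r₀ : ℝ, 0 < r₀ ∧
  (∀ g : G, g ≠ 1 → ∀ y : Y, 4 * r₀ ≤ dist (g • y) y) ∧ ∀ ε : ℝ, 0 < ε → ε ≤ r₀ →
    (∀ N : Finset Y, (∀ p ∈ N, ∀ p' ∈ N, ∀ g : G, dist (g • p) p' ≤ ε → p = p') →
      (N.card : ℝ) * (L * ε / 2) ^ n ≤ V) ∧
    ∀ (y : Y) (T : Finset Y), (∀ p ∈ T, dist p y ≤ 3 * ε ∧ ∀ p' ∈ T, dist p p' ≤ ε → p = p') →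
      (T.card : ℝ) ≤ A * 8 ^ n

-- deps: PACK
def S_NET : Prop := ∀ (G Y : Type) [Group G] [Countable G] [MetricSpace Y] [Nonempty Y]
  [MeasurableSpace Y] [BorelSpace Y] [MulAction G Y] (n : ℕ) (A V : ℝ) (μ : Measure Y) (L : NNReal)
  (Φ : Y → lp (fun _ : G => ℝ) 1), IsModel G n A V μ L Φ → 1 ≤ A ∧ 0 ≤ V ∧ ∃ r₀ : ℝ, 0 < r₀ ∧
  ∀ ε : ℝ, 0 < ε → ε ≤ r₀ → ∃ (N : Finset Y) (r : Y → Y),
    (∀ (g : G) y, r (g • y) = g • r y) ∧ (∀ y, dist y (r y) ≤ ε) ∧ (∀ y, ∃ g : G, g • r y ∈ N) ∧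
    (N.card : ℝ) * (L * ε / 2) ^ n ≤ V ∧
    ∀ y, ∃ T : Finset Y, (T.card : ℝ) ≤ A * 8 ^ n ∧ ∀ y', dist (r y') y ≤ 3 * ε → r y' ∈ T

open Classical in
-- deps:
def S_DISC : Prop := ∀ (G Y : Type) [Group G] [MetricSpace Y] [MulAction G Y] (L : NNReal)
  (Φ : Y → lp (fun _ : G => ℝ) 1), (∀ y, ‖Φ y‖ = 1) →
  (∀ (g : G) (y : Y) (h : G), Φ (g • y) (g * h) = Φ y h) → LipschitzWith L Φ →
  ∀ (N : Finset Y) (η : ℝ), 0 < η → ∃ (m : ℕ) (S : Y → Finset (Zs G)), 0 < m ∧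
    (∀ (g : G) y, S (g • y) = sf g (S y)) ∧ ∀ p, (∃ g : G, g • p ∈ N) →
      (m : ℝ) * (1 - η) ≤ (S p).card ∧
      ∀ p', (((S p') \ (S p)).card : ℝ) ≤ m * (2 * L * dist p p' + η)

open Classical in
-- deps:
def S_GOOD : Prop := ∀ (G : Type) (n : ℕ) (m θ : ℝ) (l : List (Finset (Zs G))), 0 < m → 0 ≤ θ →
  (n + 2) * θ ≤ 1 / 2 → l.length = n + 1 →
  (∀ S ∈ l, m * (1 - θ) ≤ S.card ∧ ∀ S' ∈ l, ((S' \ S).card : ℝ) ≤ m * θ) →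
  Good (2 * (n + 1) ^ 2 * θ) l

-- deps: MESH NET DISC GOOD
def S_PRE : Prop := ∀ (n : ℕ) (A : ℝ), ∃ C : ℝ, 0 ≤ C ∧ ∀ (G ι Y : Type) [Group G] [Countable G]
  [Fintype ι] [DecidableEq ι] [MetricSpace Y] [ContractibleSpace Y] [MeasurableSpace Y]
  [BorelSpace Y] [MulAction G Y] (deg : ι → ℕ) (c : Matrix ι ι (ZG G)) (w : ι → ℤ) (V : ℝ)
  (μ : Measure Y) (L : NNReal) (Φ : Y → lp (fun _ : G => ℝ) 1), IsResolution deg c w →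
  IsModel G n A V μ L Φ → ∃ (Λ : Finset (List (Finset (Zs G)))) (q : ℝ), 0 ≤ q ∧
    Pre n deg c w Λ ∧ (∀ l ∈ Λ, l.length = n + 1 ∧ Good q l) ∧ (Λ.card : ℝ) * q ^ n ≤ C * V

/-! ### Labels -/

-- deps:
def S_BARY : Prop := ∀ (G : Type) [Group G], (∀ g : G, IsOfFinOrder g → g = 1) →
  ∃ b : Finset G → G, Bary b

-- deps:
def S_SD : Prop := ∀ (G : Type) [Group G] (b : Finset G → G), Bary b →
  ∃ Sd : Bar G →ₗ[ZG G] Bar G, IsSd Sd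

-- deps:
def S_TIE : Prop := ∀ (Z : Type) (a b : Z), a ≠ b → P0 Z {x | x a = x b} = 0

-- deps:
def S_HASH : Prop := ∀ (Z : Type) (W I : Finset Z), Disjoint W I →
  (P0 Z).real {x | ∀ a ∈ W, ∀ b ∈ I, x a < x b} ≤ 1 / ((W.card + I.card).choose W.card : ℝ)

-- deps: TIE HASH
def S_PROB : Prop := ∀ (G Z : Type) [Group G] (b : Finset G → G) (e : Zs G → Z) (n : ℕ) (q : ℝ)
  (l : List (Finset (Zs G))), l.length = n + 1 → Good q l → Set.InjOn e (un l) →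
  ∃ E : Set (Z → ℝ), MeasurableSet E ∧ (P0 Z).real E ≤ q ^ n ∧
    ∀ ω : Z → ℝ, (l.map fun S => lab b S fun z => ω (e z)).Nodup → ω ∈ E

-- deps: PROB
def S_SOFA : Prop := ∀ (G : Type) [Group G] (S : Sof G) (b : Finset G → G) (n : ℕ) (q ε : ℝ)
  (Λ : Finset (List (Finset (Zs G)))), 0 ≤ q → 0 < ε → (∀ l ∈ Λ, l.length = n + 1 ∧ Good q l) →
  ∃ ω : ∀ i, Fin (S.N i) × ℕ → ℝ, ∀ᶠ i in S.l,
    (∑ v, (bad b Λ fun z => ω i (S.act i z.1 v, z.2) : ℝ)) ≤ (Λ.card * q ^ n + ε) * S.N i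

/-! ### Random operators -/

-- deps:
def S_OPX : Prop := ∀ (G X κ κ' : Type) [Group G] [MulAction G X] [MeasurableSpace X] [Fintype κ]
  [Fintype κ'] (A : κ → X → κ' → ZG G), (∀ g : G, Measurable fun x : X => g • x) →
  (∀ k, Tm (A k)) → ∃ T : X → L2 (G × κ) →L[ℂ] L2 (G × κ'), Ker T ∧ Rep A T

-- deps:
def S_REP : Prop := ∀ (G X κ κ' κ'' : Type) [Group G] [MulAction G X] [Fintype κ] [Fintype κ']
  [Fintype κ''],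
  (∀ T T' : L2 (G × κ) →L[ℂ] L2 (G × κ'), (∀ p p', T (dl p) p' = T' (dl p) p') → T = T') ∧
  (∀ y : Matrix κ κ' (ZG G), Rep (fun a (_ : X) => y a) fun _ => op y) ∧
  ∀ (A : κ → X → κ' → ZG G) (B : κ' → X → κ'' → ZG G) (T : X → L2 (G × κ) →L[ℂ] L2 (G × κ'))
    (S : X → L2 (G × κ') →L[ℂ] L2 (G × κ'')), Rep A T → Rep B S →
    Rep (tp A B) fun x => S x ∘L T x

-- deps: REP
def S_KER : Prop := ∀ (G X κ κ' κ'' : Type) [Group G] [MulAction G X] [MeasurableSpace X]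
  [Fintype κ] [Fintype κ'] [Fintype κ''],
  (∀ y : Matrix κ κ' (ZG G), Ker fun _ : X => op y) ∧
  (Ker fun _ : X => (1 : L2 (G × κ) →L[ℂ] L2 (G × κ))) ∧
  ∀ T : X → L2 (G × κ) →L[ℂ] L2 (G × κ'), Ker T →
    (∀ T', Ker T' → Ker fun x => T x + T' x) ∧ (∀ s : ℂ, Ker fun x => s • T x) ∧
    (Ker fun x => ContinuousLinearMap.adjoint (T x)) ∧
    ∀ S : X → L2 (G × κ') →L[ℂ] L2 (G × κ''), Ker S → Ker fun x => S x ∘L T x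

-- deps:
def S_TRC : Prop := ∀ (G X κ κ' : Type) [Group G] [MulAction G X] [MeasurableSpace X] [Fintype κ]
  [Fintype κ'] (ν : Measure X) [IsProbabilityMeasure ν], Pmp G ν →
  ∀ (T : X → L2 (G × κ) →L[ℂ] L2 (G × κ')) (S : X → L2 (G × κ') →L[ℂ] L2 (G × κ)),
    Ker T → Ker S → ∫ x, dg (S x ∘L T x) ∂ν = ∫ x, dg (T x ∘L S x) ∂ν

-- deps:
def S_LOW : Prop := ∀ (H K : Type) [NormedAddCommGroup H] [InnerProductSpace ℂ H] [CompleteSpace H]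
  [NormedAddCommGroup K] [InnerProductSpace ℂ K] [CompleteSpace K] (A : K →L[ℂ] H) (M : ℝ),
  1 ≤ M → ‖A‖ ≤ M →
  ‖1 - ((1 / M ^ 2 : ℝ) : ℂ) • (ContinuousLinearMap.adjoint A ∘L A)‖ ≤ 1 ∧
  ∀ (Q : H →L[ℂ] H) (B : H →L[ℂ] K), IsStarProjection Q → ‖B‖ ≤ M → A ∘L B = Q → Q ∘L A = A →
    ∀ (j : ℕ) (v : H), (1 - √(1 - 1 / M ^ 4) ^ j) * (inner ℂ v (Q v)).re ≤
      (inner ℂ v (v - ((1 - ((1 / M ^ 2 : ℝ) : ℂ) •
        (A ∘L ContinuousLinearMap.adjoint A)) ^ j) v)).re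

-- deps: KER
def S_ERG : Prop := ∀ (G X ι : Type) [Group G] [MulAction G X] [MeasurableSpace X] [Fintype ι]
  [DecidableEq ι] (c : Matrix ι ι (ZG G)) (w : ι → ℝ) (μ : Measure ℝ) (K : ℝ),
  (∀ a, 0 ≤ w a ∧ w a ≤ 1) → Mom μ K (fun j => wtr w ((c * cst c + cst c * c) ^ j)) →
  ∃ (Q : L2 (G × ι) →L[ℂ] L2 (G × ι)) (S : ℕ → L2 (G × ι) →L[ℂ] L2 (G × ι)),
    IsStarProjection Q ∧ op c ∘L Q = 0 ∧ Q ∘L op c = 0 ∧
    (∀ m, IsSelfAdjoint (S m) ∧ ‖S m‖ ≤ 1 ∧ Ker fun _ : X => S m) ∧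
    (∀ v, Tendsto (fun m => S m v) atTop (𝓝 (Q v))) ∧ μ.real {0} ≤ dg Q

-- deps: KER TRC LOW
def S_UP : Prop := ∀ (G X ι κ : Type) [Group G] [MulAction G X] [MeasurableSpace X] [Fintype ι]
  [Fintype κ] (ν : Measure X) [IsProbabilityMeasure ν], Pmp G ν →
  ∀ (T : X → L2 (G × κ) →L[ℂ] L2 (G × ι)) (Act : κ → Set X) (M : ℝ) (j : ℕ), Ker T → 1 ≤ M →
    (∀ x, ‖T x‖ ≤ M) → (∀ k, MeasurableSet (Act k)) → (∀ k, ∀ x ∉ Act k, T x (dl (1, k)) = 0) →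
    ∫ x, dg (1 - (1 - ((1 / M ^ 2 : ℝ) : ℂ) • (T x ∘L ContinuousLinearMap.adjoint (T x))) ^ j) ∂ν ≤
      2 * ∑ k, ν.real (Act k)

-- deps: OPX REP KER LOW ERG UP
def S_RANK : Prop := ∀ (G X ι κ : Type) [Group G] [MulAction G X] [MeasurableSpace X] [Fintype ι]
  [DecidableEq ι] [Fintype κ] (ν : Measure X) [IsProbabilityMeasure ν], Pmp G ν →
  ∀ (c : Matrix ι ι (ZG G)) (φ : ι → X → κ → ZG G) (ψ : κ → X → ι → ZG G) (t : ι → X → ι → ZG G)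
    (Act : κ → Set X) (w : ι → ℝ) (μ : Measure ℝ) (K : ℝ),
    (∀ a, Tm (φ a)) → (∀ k, Tm (ψ k)) → (∀ a, Tm (t a)) → (∀ k, MeasurableSet (Act k)) →
    (∀ k, ∀ x ∉ Act k, ψ k x = 0) →
    (∀ a x, tp φ ψ a x = (1 : Matrix ι ι (ZG G)) a +
      (tp t (fun a _ => c a) a x + tp (fun a _ => c a) t a x)) →
    (∀ a, 0 ≤ w a ∧ w a ≤ 1) → Mom μ K (fun j => wtr w ((c * cst c + cst c * c) ^ j)) →
    μ.real {0} ≤ 2 * ∑ k, ν.real (Act k)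

end Pool.Agent.P.MP_f30597_gt.SV
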