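import Pool.Agent.P.MP_f30597_gt.SV.Cyc
import Pool.Agent.P.MP_f30597_gt.SV.Iface

/-! The spectral bounds for sofic groups. -/

namespace Pool.Agent.P.MP_f30597_gt.SV

open Finset Matrix Filter MeasureTheory SI SI.Par

section

variable {G ι : Type} [Group G] [Fintype ι] [DecidableEq ι] {deg : ι → ℕ} {c : Matrix ι ι (ZG G)}
  {w w' : ι → ℤ} {n : ℕ}

theorem sof_data (hS : S_SOFA) (S : Sof G) (R : IsResolution deg c w) (hn : ∀ a, deg a ≤ n)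
    (hn0 : 0 < n) (R' : IsResolution (fun a => n - deg a) (cst c) w') {b : Finset G → G}
    (hb : Bary b) {Sd : Bar G →ₗ[ZG G] Bar G} (hd : IsSd Sd) {Λ : Finset (List (Finset (Zs G)))}
    {q ε : ℝ} (hq : 0 ≤ q) (hε : 0 < ε) (hΛ : Pre n deg c w Λ)
    (hl : ∀ l ∈ Λ, l.length = n + 1 ∧ Good q l) :
    ∃ (κ : Type) (_ : Fintype κ) (_ : DecidableEq κ) (dκ : κ → ℕ), Data S deg dκ c
      (2 ^ (n + 1) * (n + 1) ^ 2 * ((n + 1).factorial * (Λ.card * q ^ n + ε) + 2 * ε)) := by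
  classical
  obtain ⟨ω, hω⟩ := hS G S b n q ε Λ hq hε hl
  obtain ⟨Ψ, h⟩ := exists_psi R
  obtain ⟨z, hz, hc⟩ := cyc (P := @Par.mk G _ S (Zs G → ℝ) arrowAction
    fun i v z => ω i (S.act i z.1 v, z.2)) id (fun g x z => congrArg x (inv_smul_smul g z))
    (fun z z' => ⟨Set.toFinite _, fun g => ((S.ae_mul g z.1).and (S.ae_mul g z'.1)).mono
      fun i v e => by
        change (ω i (S.act i z.1 (S.act i g v), z.2) ≤ ω i (S.act i z'.1 (S.act i g v), z'.2)) =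
          (ω i (S.act i (g⁻¹⁻¹ * z.1) v, z.2) ≤ ω i (S.act i (g⁻¹⁻¹ * z'.1) v, z'.2))
        rw [e.1, e.2, inv_inv]⟩) R hn hn0 R' h hb hd hΛ fun l e => (hl l e).1
  refine ⟨_, inferInstance, inferInstance, _, par_data R hn R' h hz (by positivity) hε
    (hω.mono fun i hi => ?_)⟩
  rw [mul_assoc]
  refine le_trans ?_ (mul_le_mul_of_nonneg_left hi (by positivity))
  rw [mul_sum]
  exact sum_le_sum fun v _ => by exact_mod_cast hc _

end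

/-- there is a contractible model -/
def HasModel (G : Type) [Group G] (n : ℕ) (A V : ℝ) : Prop :=
  ∃ (Y : Type) (_ : MetricSpace Y) (_ : ContractibleSpace Y) (_ : MeasurableSpace Y)
    (_ : BorelSpace Y) (_ : MulAction G Y) (μ : Measure Y) (L : NNReal)
    (Φ : Y → lp (fun _ : G => ℝ) 1), IsModel G n A V μ L Φ

theorem le_lim {x y a : ℝ} (ha : 0 ≤ a) (h : ∀ ε, 0 < ε → x ≤ y + a * ε) : x ≤ y :=
  le_of_forall_pos_le_add fun ε hε => (h (ε / (a + 1)) (by positivity)).trans (by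
    rw [← mul_div_assoc]
    gcongr
    rw [div_le_iff₀ (by positivity)]
    nlinarith)

theorem main_sof (hF : S_FINAL) (hP : S_PRE) (hB : S_BARY) (hD : S_SD) (hS : S_SOFA) (n : ℕ)
    (hn0 : 0 < n) (A : ℝ) : ∃ C : ℝ, 0 ≤ C ∧
    ∀ (G ι : Type) [Group G] [Countable G] [Fintype ι] [DecidableEq ι] (_ : Sof G) (deg : ι → ℕ)
      (c : Matrix ι ι (ZG G)) (w w' : ι → ℤ) (μ : ℕ → Measure ℝ) (B : ℕ → ℝ) (V : ℝ),
      (∀ g : G, IsOfFinOrder g → g = 1) →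
      IsResolution deg c w → (∀ a, deg a ≤ n) → IsResolution (fun a => n - deg a) (cst c) w' →
      (∀ p, Mom (μ p) (B p) fun j => wtr (ind deg p) ((c * cst c + cst c * c) ^ j)) →
      HasModel G n A V →
      (∀ p, IntegrableOn Real.log (Set.Ioi 0) (μ p) ∧ (μ p).real {0} ≤ C * V) ∧
      ((∀ p, (μ p).real {0} = 0) → |∑ p ∈ range (n + 1),
        (-1) ^ p * (p : ℝ) * ∫ t in Set.Ioi 0, Real.log t ∂μ p| ≤ C * V) := by
  obtain ⟨C, hC, h⟩ := hF n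
  obtain ⟨C', hC', h'⟩ := hP n A
  obtain ⟨E, hE, hE0⟩ : ∃ E : ℝ, E = 2 ^ (n + 1) * (n + 1) ^ 2 ∧ 0 ≤ E := ⟨_, rfl, by positivity⟩
  obtain ⟨F, hF, hF0⟩ : ∃ F : ℝ, F = (n + 1).factorial ∧ 0 ≤ F := ⟨_, rfl, by positivity⟩
  have h0 : 0 ≤ (1 + C) * (E * (F + 2)) := by positivity
  refine ⟨(1 + C) * (E * (F * C')), by positivity,
    fun G ι _ _ _ _ S deg c w w' μ B V hG R hn R' hμ hV => ?_⟩
  obtain ⟨b, hb⟩ := hB G hG
  obtain ⟨Sd, hd⟩ := hD G b hb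
  obtain ⟨Y, _, _, _, _, _, ν, L, Φ, hM⟩ := hV
  obtain ⟨Λ, q, hq, h1, h2, h3⟩ := h' G ι Y deg c w _ ν L Φ R hM
  have key : ∀ ε : ℝ, 0 < ε → (∀ p, IntegrableOn Real.log (Set.Ioi 0) (μ p) ∧ (μ p).real {0} ≤
      (1 + C) * (E * (F * C')) * V + (1 + C) * (E * (F + 2)) * ε) ∧
      ((∀ p, (μ p).real {0} = 0) → |∑ p ∈ range (n + 1), (-1) ^ p * (p : ℝ) *
        ∫ t in Set.Ioi 0, Real.log t ∂μ p| ≤
          (1 + C) * (E * (F * C')) * V + (1 + C) * (E * (F + 2)) * ε) := by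
    intro ε hε
    obtain ⟨κ, _, _, dκ, h4⟩ := sof_data hS S R hn hn0 R' hb hd hq hε h1 h2
    rw [← hE, ← hF] at h4
    obtain ⟨h5, h6⟩ := h G ι κ S deg dκ c _ μ B hn R.graded R.sq h4 hμ
    obtain ⟨δ, hδ⟩ : ∃ δ, δ = E * (F * (Λ.card * q ^ n + ε) + 2 * ε) := ⟨_, rfl⟩
    have h7 : 0 ≤ δ := by rw [hδ]; positivity
    have h8 : (1 + C) * δ ≤
        (1 + C) * (E * (F * C')) * V + (1 + C) * (E * (F + 2)) * ε :=
      calc _ ≤ (1 + C) * (E * (F * (C' * V + ε) + 2 * ε)) := by rw [hδ]; gcongr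
        _ = _ := by ring
    rw [← hδ] at h5 h6
    exact ⟨fun p => ⟨(h5 p).1, (h5 p).2.trans (le_trans (by nlinarith) h8)⟩,
      fun e => (h6 e).trans (le_trans (by nlinarith) h8)⟩
  exact ⟨fun p => ⟨((key 1 one_pos).1 p).1, le_lim h0 fun ε hε => ((key ε hε).1 p).2⟩,
    fun e => le_lim h0 fun ε hε => (key ε hε).2 e⟩

end Pool.Agent.P.MP_f30597_gt.SV
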