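import Pool.Agent.P.MP_f30597_gt.SV.GCyc
import Pool.Agent.P.MP_f30597_gt.SV.GData
import Pool.Agent.P.MP_f30597_gt.SV.MainS

/-! The bound of the kernels for all groups. -/

namespace Pool.Agent.P.MP_f30597_gt.SV

open Finset Matrix Filter MeasureTheory SI GPar

/-- the Bernoulli space -/
@[reducible] def bern (G : Type) [Group G] : GPar G :=
  @GPar.mk G _ (Zs G → ℝ) arrowAction MeasurableSpace.pi fun _ =>
    measurable_pi_lambda _ fun _ => measurable_pi_apply _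

theorem bern_pmp (G : Type) [Group G] : @Pmp (bern G).X _ G _ (bern G).act (P0 (Zs G)) := fun g => by
  refine ⟨(bern G).meas g, Eq.trans ?_ (Measure.infinitePi_map_piCongrLeft
    (fun _ : Zs G => ProbabilityTheory.gaussianReal 0 1) (MulAction.toPerm g))⟩
  congr 1
  funext x z
  obtain ⟨y, rfl⟩ := (MulAction.toPerm g).surjective z
  rw [MeasurableEquiv.piCongrLeft_apply_apply]
  exact congrArg x (inv_smul_smul g y)

theorem gen_ker {G ι : Type} [Group G] [Fintype ι] [DecidableEq ι] {deg : ι → ℕ}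
    {c : Matrix ι ι (ZG G)} {w w' : ι → ℤ} {n : ℕ} (hR : S_RANK) (hQ : S_PROB)
    (R : IsResolution deg c w) (hn : ∀ a, deg a ≤ n)
    (hn0 : 0 < n) (R' : IsResolution (fun a => n - deg a) (cst c) w') {b : Finset G → G}
    (hb : Bary b) {Sd : Bar G →ₗ[ZG G] Bar G} (hd : IsSd Sd) {Λ : Finset (List (Finset (Zs G)))}
    {q : ℝ} (hΛ : Pre n deg c w Λ) (hl : ∀ l ∈ Λ, l.length = n + 1 ∧ Good q l) {v : ι → ℝ}
    {μ : Measure ℝ} {K : ℝ} (hv : ∀ a, 0 ≤ v a ∧ v a ≤ 1)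
    (hμ : Mom μ K fun j => wtr v ((c * cst c + cst c * c) ^ j)) :
    μ.real {0} ≤ 2 * (2 ^ (n + 1) * ((n + 1).factorial * (Λ.card * q ^ n))) := by
  classical
  obtain ⟨Ψ, h⟩ := exists_psi R
  obtain ⟨z, hz, hc⟩ := gcyc (P := bern G) id (fun g x z => congrArg x (inv_smul_smul g z))
    (fun z z' => ⟨Set.toFinite _, fun _ => measurableSet_setOfPred.1
      (measurableSet_le (measurable_pi_apply z) (measurable_pi_apply z')) .of_discrete⟩)
    R hn hn0 R' h hb hd hΛ fun l e => (hl l e).1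
  obtain ⟨φ, t, e⟩ := retract R hn R' h hz
  refine (@hR G (bern G).X ι _ _ (bern G).act _ _ _ _ (P0 (Zs G)) _ (bern_pmp G) c _ _ _
    (fun k : cells (zU z) => {x | Act z k.1 x}) v μ K (fun a => (φ a).2) (fun k => (cut z Ψ k).2)
    (fun a => (t a).2) (fun k => (tame_act z k.1).set) (fun k x hx => if_neg (c := Act z k.1 x) hx) e hv
    hμ).trans ?_
  choose! E e1 e2 e3 using fun l hl' => hQ G (Zs G) b id n q l (hl l hl').1 (hl l hl').2
    (Set.injOn_id _)
  gcongr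
  refine (act_meas hz.len _ (bern_pmp G)).trans ?_
  gcongr
  refine (sum_meas _ (fun σ _ => (Tame.comp z.2 fun u => σ ∈ u.support).set) e1 (n + 1).factorial
    fun x => ?_).trans ?_
  · refine (card_le_card fun σ hσ => by simp only [mem_filter] at hσ; exact hσ.2).trans
      ((hc x).trans ?_)
    exact Nat.mul_le_mul_left _ (card_le_card fun l hl' =>
      mem_filter.2 ⟨(mem_filter.1 hl').1, e3 l (mem_filter.1 hl').1 x (mem_filter.1 hl').2⟩)
  · gcongr
    exact (sum_le_card_nsmul _ _ _ e2).trans_eq (nsmul_eq_mul _ _)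

theorem main_gen (hP : S_PRE) (hB : S_BARY) (hD : S_SD) (hR : S_RANK) (hQ : S_PROB) (n : ℕ)
    (hn0 : 0 < n) (A : ℝ) : ∃ C : ℝ, 0 ≤ C ∧
    ∀ (G ι : Type) [Group G] [Countable G] [Fintype ι] [DecidableEq ι] (deg : ι → ℕ)
      (c : Matrix ι ι (ZG G)) (w w' : ι → ℤ) (μ : Measure ℝ) (B V : ℝ) (p : ℕ),
      (∀ g : G, IsOfFinOrder g → g = 1) →
      IsResolution deg c w → (∀ a, deg a ≤ n) → IsResolution (fun a => n - deg a) (cst c) w' →
      (Mom μ B fun j => wtr (ind deg p) ((c * cst c + cst c * c) ^ j)) →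
      HasModel G n A V → μ.real {0} ≤ C * V := by
  obtain ⟨C, hC, h⟩ := hP n A
  have h0 : (0 : ℝ) ≤ 2 * (2 ^ (n + 1) * ((n + 1).factorial * C)) := by positivity
  refine ⟨_, h0, fun G ι _ _ _ _ deg c w w' μ B V p hG R hn R' hμ hV => ?_⟩
  obtain ⟨b, hb⟩ := hB G hG
  obtain ⟨Sd, hd⟩ := hD G b hb
  obtain ⟨Y, _, _, _, _, _, ν, L, Φ, hM⟩ := hV
  obtain ⟨Λ, q, -, h1, h2, h3⟩ := h G ι Y deg c w _ ν L Φ R hM
  refine (gen_ker hR hQ R hn hn0 R' hb hd h1 h2 (fun a => ?_) hμ).trans ?_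
  · unfold ind
    split_ifs <;> simp
  · calc _ ≤ 2 * (2 ^ (n + 1) * ((n + 1).factorial * (C * V))) := by gcongr
      _ = _ := by ring

end Pool.Agent.P.MP_f30597_gt.SV
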