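import Pool.Agent.P.MP_f30597_gt.SV.Iface

/-! Step BARY. -/

namespace Pool.Agent.P.MP_f30597_gt.SV

open Finset Filter Topology MeasureTheory SI

open Classical Pointwise in
theorem bary_free {G : Type} [Group G] (h : ∀ g : G, IsOfFinOrder g → g = 1) {S : Finset G}
    (hS : S.Nonempty) {g : G} (e : g • S = S) : g = 1 := by
  obtain ⟨s, hs⟩ := hS
  have h1 : ∀ k : ℕ, g ^ k * s ∈ S := by
    intro k
    induction k with
    | zero => simpa using hs
    | succ k ih =>
      rw [pow_succ', mul_assoc, ← e]
      exact Finset.smul_mem_smul_finset ih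
  by_contra hg
  have h2 : Function.Injective fun k : ℕ => g ^ k * s := fun a b e' =>
    injective_pow_iff_not_isOfFinOrder.2 (fun o => hg (h g o)) (mul_right_cancel e')
  exact Set.infinite_of_injective_forall_mem h2 (s := (S : Set G)) h1 S.finite_toSet

open Classical Pointwise in
theorem p_BARY :
    S_BARY := by
  intro G _ h
  obtain ⟨r, t, h1, h2⟩ := exists_rep G (Finset G)
  have hr : ∀ S : Finset G, S.Nonempty → (r S).Nonempty := fun S hS => by
    rw [← h1 S] at hS
    exact Finset.smul_finset_nonempty.1 hS
  let c : Finset G → G := fun S => if hS : S.Nonempty then hS.choose else 1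
  have hc : ∀ S : Finset G, S.Nonempty → c S ∈ S := fun S hS => by
    simp only [c, dif_pos hS]; exact hS.choose_spec
  refine ⟨fun S => t S * c (r S), fun S hS => ⟨?_, fun g => ?_⟩⟩
  · have := Finset.smul_mem_smul_finset (a := t S) (hc _ (hr S hS))
    rwa [h1 S] at this
  · have e : (S.image fun x => g * x) = g • S := rfl
    have e2 : ((t (g • S))⁻¹ * (g * t S)) • r S = r S := by
      rw [mul_smul, mul_smul, h1 S, inv_smul_eq_iff]
      conv_rhs => rw [← h2 g S]
      exact (h1 _).symm
    have e3 := bary_free h (hr S hS) e2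
    rw [inv_mul_eq_one] at e3
    show t (S.image fun x => g * x) * c (r (S.image fun x => g * x)) = g * (t S * c (r S))
    rw [e, h2, e3, mul_assoc]

end Pool.Agent.P.MP_f30597_gt.SV
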