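import Pool.Agent.P.MP_f30597_gt.SV.Iface

/-! Step DISC. -/

namespace Pool.Agent.P.MP_f30597_gt.SV

open Finset Filter Topology MeasureTheory SI

theorem disc_card {G : Type} (a b : G → ℕ) (T : Finset (G × ℕ))
    (hT : ∀ z, z ∈ T ↔ b z.1 ≤ z.2 ∧ z.2 < a z.1) (E : Finset G) (hE : ∀ g, 0 < a g → g ∈ E) :
    T.card = ∑ g ∈ E, (a g - b g) := by
  have : T = (E.sigma fun g => Ico (b g) (a g)).map (Equiv.sigmaEquivProd G ℕ).toEmbedding := by
    ext z
    simp only [hT, mem_map_equiv, mem_sigma, mem_Ico, Equiv.sigmaEquivProd_symm_apply]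
    exact ⟨fun h => ⟨hE _ (by omega), h⟩, fun h => h.2⟩
  rw [this, card_map, card_sigma]
  simp

theorem disc_sum {G : Type} (v : lp (fun _ : G => ℝ) 1) : HasSum (fun g => |v g|) ‖v‖ := by
  have := lp.hasSum_norm (by norm_num : 0 < (1 : ENNReal).toReal) v
  simpa using this

theorem disc_le {G : Type} (v : lp (fun _ : G => ℝ) 1) (E : Finset G) :
    ∑ g ∈ E, |v g| ≤ ‖v‖ := sum_le_hasSum E (fun _ _ => abs_nonneg _) (disc_sum v)

theorem disc_cs {G : Type} (u v : lp (fun _ : G => ℝ) 1) (E : Finset G) :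
    ∑ g ∈ E, |(|u g| - |v g|)| ≤ ‖u - v‖ :=
  (sum_le_sum fun g _ => abs_abs_sub_abs_le_abs_sub (u g) (v g)).trans (disc_le (u - v) E)

theorem disc_fin {G : Type} (v : lp (fun _ : G => ℝ) 1) (m : ℝ) :
    ∃ E : Finset G, ∀ g, 0 < ⌊m * |v g|⌋₊ → g ∈ E := by
  have h := ((disc_sum v).summable.mul_left m).tendsto_cofinite_zero.eventually
    (gt_mem_nhds one_pos)
  refine ⟨(eventually_cofinite.1 h).toFinset, fun g hg => ?_⟩
  simpa using Nat.floor_pos.1 hg

theorem disc_sf {G : Type} [Group G] (g : G) (S : Finset (Zs G)) : (sf g S).card = S.card := by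
  classical
  exact card_image_of_injective _ (MulAction.injective g)

theorem p_DISC :
    S_DISC := by
  classical
  intro G Y _ _ _ L Φ h1 hΦ hL N η hη
  have hF : ∀ p, ∃ F : Finset G, 1 - η / 2 ≤ ∑ g ∈ F, |Φ p g| := fun p => by
    have h := disc_sum (Φ p)
    rw [h1] at h
    exact ((Filter.Tendsto.eventually h
      (lt_mem_nhds (by linarith : 1 - η / 2 < 1))).exists).imp fun _ h => h.le
  choose F hF using hF
  obtain ⟨m, hm⟩ := exists_nat_gt (2 * (∑ p ∈ N, ((F p).card : ℝ)) / η)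
  have hK : 0 ≤ ∑ p ∈ N, ((F p).card : ℝ) := sum_nonneg fun _ _ => Nat.cast_nonneg _
  have hm0 : (0 : ℝ) < m := lt_of_le_of_lt (div_nonneg (by linarith) hη.le) hm
  rw [div_lt_iff₀ hη] at hm
  choose E hE using fun p => disc_fin (Φ p) m
  have hS : ∀ p, ∃ S : Finset (G × ℕ), ∀ z, z ∈ S ↔ z.2 < ⌊m * |Φ p z.1|⌋₊ := fun p =>
    ⟨((E p).sigma fun g => range ⌊m * |Φ p g|⌋₊).map (Equiv.sigmaEquivProd G ℕ).toEmbedding,
      fun z => by
        simp only [mem_map_equiv, mem_sigma, mem_range, Equiv.sigmaEquivProd_symm_apply]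
        exact ⟨fun h => h.2, fun h => ⟨hE p _ (by omega), h⟩⟩⟩
  choose S hS using hS
  have hc : ∀ p (E' : Finset G), E p ⊆ E' →
      ((S p).card : ℝ) = ∑ g ∈ E', (⌊m * |Φ p g|⌋₊ : ℝ) := fun p E' h => by
    rw [disc_card (fun g => ⌊m * |Φ p g|⌋₊) (fun _ => 0) (S p) (by simp [hS]) E'
      fun g hg => h (hE p g hg)]
    simp
  have he : ∀ (g : G) y, S (g • y) = sf g (S y) := fun g y => by
    refine Finset.ext fun z => (hS _ z).trans (Iff.trans ?_ (mem_sf (z := z)).symm)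
    refine Iff.trans ?_ (hS y (g⁻¹ * z.1, z.2)).symm
    rw [← hΦ g y (g⁻¹ * z.1), mul_inv_cancel_left]
  refine ⟨m, S, by exact_mod_cast hm0, he, fun p ⟨g, hg⟩ => ?_⟩
  have h2 : (m : ℝ) * (1 - η) ≤ (S p).card := by
    have e : (S (g • p)).card = (S p).card := by
      rw [he]
      exact disc_sf g (S p)
    rw [← e, hc _ _ (subset_union_left (s₂ := F (g • p)))]
    have a1 : ∑ x ∈ F (g • p), (m * |Φ (g • p) x| - 1) ≤
        ∑ x ∈ E (g • p) ∪ F (g • p), (⌊m * |Φ (g • p) x|⌋₊ : ℝ) :=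
      (sum_le_sum fun x _ => (Nat.sub_one_lt_floor _).le).trans
        (sum_le_sum_of_subset_of_nonneg subset_union_right fun _ _ _ => Nat.cast_nonneg _)
    rw [sum_sub_distrib, ← mul_sum, sum_const, nsmul_eq_mul, mul_one] at a1
    have a2 := single_le_sum (f := fun p => ((F p).card : ℝ)) (fun _ _ => Nat.cast_nonneg _) hg
    nlinarith [mul_le_mul_of_nonneg_left (hF (g • p)) hm0.le]
  refine ⟨h2, fun p' => ?_⟩
  have e := disc_card (fun g => ⌊m * |Φ p' g|⌋₊) (fun g => ⌊m * |Φ p g|⌋₊) (S p' \ S p)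
    (fun z => by simp [hS, and_comm]) (E p ∪ E p') fun g hg => subset_union_right (hE p' g hg)
  have a1 : ((S p' \ S p).card : ℝ) ≤ ∑ x ∈ E p ∪ E p',
      (m * |(|Φ p x| - |Φ p' x|)| + (m * |Φ p x| - ⌊m * |Φ p x|⌋₊)) := by
    rw [e, Nat.cast_sum]
    refine sum_le_sum fun x _ => ?_
    have b1 := Nat.floor_le (a := m * |Φ p x|) (by positivity)
    have b2 := Nat.floor_le (a := m * |Φ p' x|) (by positivity)
    have b3 := mul_le_mul_of_nonneg_left (neg_le_abs (|Φ p x| - |Φ p' x|)) hm0.le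
    have b4 := mul_nonneg hm0.le (abs_nonneg (|Φ p x| - |Φ p' x|))
    rcases le_total ⌊m * |Φ p' x|⌋₊ ⌊m * |Φ p x|⌋₊ with h | h
    · rw [Nat.sub_eq_zero_of_le h, Nat.cast_zero]; linarith
    · rw [Nat.cast_sub h]; linarith
  rw [sum_add_distrib, sum_sub_distrib, ← mul_sum, ← mul_sum, ← hc p _ subset_union_left] at a1
  have a2 := disc_le (Φ p) (E p ∪ E p')
  rw [h1] at a2
  have a3 : ∑ x ∈ E p ∪ E p', |(|Φ p x| - |Φ p' x|)| ≤ L * dist p p' * 2 := by
    refine (disc_cs _ _ _).trans (le_trans ?_ (le_mul_of_one_le_right (by positivity) one_le_two))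
    rw [← dist_eq_norm]
    exact hL.dist_le_mul p p'
  refine le_trans (le_of_eq ?_) (a1.trans ?_)
  · congr
    exact Subsingleton.elim _ _
  · nlinarith [mul_le_mul_of_nonneg_left a2 hm0.le, mul_le_mul_of_nonneg_left a3 hm0.le]

end Pool.Agent.P.MP_f30597_gt.SV
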