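import Pool.Agent.P.MP_f30597_gt.SV.Iface
import Pool.Agent.P.MP_f30597_gt.OP
import Pool.Agent.P.MP_f30597_gt.LAP

/-! Step ERG. -/

namespace Pool.Agent.P.MP_f30597_gt.SV

open Finset Filter Topology MeasureTheory SI

theorem erg_norm {E : Type} [NormedAddCommGroup E] [InnerProductSpace ℂ E] [CompleteSpace E]
    {D : E →L[ℂ] E} (h : 0 ≤ D) {C : ℝ} (h0 : 0 < C) (hC : ‖D‖ ≤ C) :
    IsSelfAdjoint (1 - ((C⁻¹ : ℝ) : ℂ) • D) ∧ ‖1 - ((C⁻¹ : ℝ) : ℂ) • D‖ ≤ 1 := by
  rw [Complex.coe_smul]
  have h1 : 0 ≤ C⁻¹ • D := smul_nonneg (inv_nonneg.2 h0.le) h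
  have h2 : C⁻¹ • D ≤ 1 := (CStarAlgebra.norm_le_one_iff_of_nonneg _ h1).1 (by
    rw [norm_smul, Real.norm_of_nonneg (inv_nonneg.2 h0.le)]
    exact inv_mul_le_one_of_le₀ hC h0.le)
  have h3 := sub_nonneg.2 h2
  exact ⟨h3.isSelfAdjoint, (CStarAlgebra.norm_le_one_iff_of_nonneg _ h3).2 (sub_le_self _ h1)⟩

open Classical in
/-- the weighted diagonal sum -/
noncomputable def erg_lam {G ι : Type} [Group G] [Fintype ι] (w : ι → ℝ) :
    (L2 (G × ι) →L[ℂ] L2 (G × ι)) →+ ℝ where
  toFun T := ∑ a, w a * (T (dl (1, a)) (1, a)).re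
  map_zero' := by simp
  map_add' S T := by
    rw [← sum_add_distrib]
    refine sum_congr rfl fun a _ => ?_
    change w a * (S (dl (1, a)) (1, a) + T (dl (1, a)) (1, a)).re = _
    rw [Complex.add_re, mul_add]

theorem erg_smul {G ι : Type} [Group G] [Fintype ι] (w : ι → ℝ) (r : ℝ)
    (T : L2 (G × ι) →L[ℂ] L2 (G × ι)) : erg_lam w ((r : ℂ) • T) = r * erg_lam w T := by
  classical
  change _ = r * ∑ a, _
  rw [mul_sum]
  refine sum_congr rfl fun a _ => ?_
  change w a * ((r : ℂ) * T (dl (1, a)) (1, a)).re = _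
  rw [Complex.re_ofReal_mul, mul_left_comm]

theorem erg_op {G ι : Type} [Group G] [Fintype ι] (w : ι → ℝ) (y : Matrix ι ι (ZG G)) :
    erg_lam w (op y) = wtr w y := by
  classical
  refine sum_congr rfl fun a _ => ?_
  congr 1
  unfold dl
  rw [op_apply, sum_eq_single a, op_ev_apply, Finsupp.sum_eq_single 1]
  · simp
  · intro h _ hh
    simp [hh]
  · simp
  · intro b _ hb
    rw [op_ev_apply]
    refine sum_eq_zero fun h _ => ?_
    simp [hb]
  · simp

theorem p_ERG (hKER : S_KER) :
    S_ERG := by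
  intro G X ι _ _ _ _ _ c w μ K hw ⟨hfin, hsup, hmom⟩
  obtain ⟨hm, ha, h1, hs, -⟩ := t_OP G
  obtain ⟨k1, k2, k3⟩ := hKER G X ι ι ι
  set D := op (c * cst c + cst c * c) with hD
  have eD : D = ContinuousLinearMap.adjoint (op c) ∘L op c +
      op c ∘L ContinuousLinearMap.adjoint (op c) := by rw [hD, ha, hm, hm, hs]
  have D0 : 0 ≤ D := eD ▸ (ContinuousLinearMap.nonneg_iff_isPositive _).2
    ((ContinuousLinearMap.isPositive_adjoint_comp_self _).add
      (ContinuousLinearMap.isPositive_self_comp_adjoint _))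
  obtain ⟨C, C0, C1, C2⟩ : ∃ C : ℝ, 0 < C ∧ K ≤ C ∧ ‖D‖ ≤ C :=
    ⟨max 1 (max K ‖D‖), by positivity, by simp, by simp⟩
  obtain ⟨T1, T2⟩ := erg_norm D0 C0 C2
  set T := 1 - ((C⁻¹ : ℝ) : ℂ) • D with hT
  have kT : Ker fun _ : X => T := by
    rw [hT, sub_eq_add_neg, ← neg_smul]
    exact (k3 _ k2).1 _ ((k3 _ (k1 (c * cst c + cst c * c))).2.1 _)
  have kP : ∀ i : ℕ, Ker fun _ : X => T ^ i := fun i => by
    induction i with
    | zero => simpa only [pow_zero] using k2
    | succ i ih => simpa only [pow_succ, ContinuousLinearMap.mul_def] using (k3 _ kT).2.2.2 _ ih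
  have kS : ∀ m : ℕ, Ker fun _ : X => ∑ i ∈ range (m + 1), T ^ i := fun m => by
    induction m with
    | zero => simpa only [zero_add, sum_range_one] using kP 0
    | succ m ih => simpa only [sum_range_succ _ (m + 1)] using (k3 _ ih).1 _ (kP (m + 1))
  set U := T.eqLocus (1 : L2 (G × ι) →L[ℂ] L2 (G × ι)) with hU
  have hker : ∀ v, op c (U.starProjection v) = 0 ∧
      ContinuousLinearMap.adjoint (op c) (U.starProjection v) = 0 := fun v => by
    have e : T (U.starProjection v) = U.starProjection v := U.starProjection_apply_mem v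
    have e2 : D (U.starProjection v) = 0 := by
      change U.starProjection v - ((C⁻¹ : ℝ) : ℂ) • D (U.starProjection v) = _ at e
      exact (smul_eq_zero.1 (sub_eq_self.1 e)).resolve_left (by simpa using C0.ne')
    have e3 : U.starProjection v ∈ (op c).ker ⊓ ((op c).range)ᗮ := by
      rw [lap_ker, ← eD]; exact e2
    rw [ContinuousLinearMap.orthogonal_range] at e3
    exact e3
  have hQ : IsStarProjection U.starProjection := isStarProjection_starProjection
  have lim : ∀ v, Tendsto (fun m : ℕ => (((m + 1 : ℕ) : ℂ)⁻¹ • ∑ i ∈ range (m + 1), T ^ i) v)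
      atTop (𝓝 (U.starProjection v)) := fun v => by
    refine ((T.tendsto_birkhoffAverage_orthogonalProjection T2 v).comp
      (tendsto_add_atTop_nat 1)).congr fun m => ?_
    simp only [Function.comp, birkhoffAverage, birkhoffSum, id, smul_apply,
      _root_.sum_apply, FunLike.coe_pow_eq_iterate]
  refine ⟨U.starProjection, fun m => ((m + 1 : ℕ) : ℂ)⁻¹ • ∑ i ∈ range (m + 1), T ^ i, hQ,
    ContinuousLinearMap.ext fun v => (hker v).1, ?_, fun m => ⟨?_, ?_, ?_⟩, lim, ?_⟩
  · apply ContinuousLinearMap.adjoint.injective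
    rw [ContinuousLinearMap.adjoint_comp, map_zero, hQ.isSelfAdjoint.adjoint_eq]
    exact ContinuousLinearMap.ext fun v => (hker v).2
  · exact (IsSelfAdjoint.natCast _).inv₀.smul (isSelfAdjoint_sum _ fun i _ => T1.pow i)
  · rw [norm_smul, norm_inv, Complex.norm_natCast]
    refine inv_mul_le_one_of_le₀ ((norm_sum_le _ _).trans ?_) (by positivity)
    refine (sum_le_card_nsmul _ _ 1 fun i _ => ?_).trans (by simp)
    rcases i with _ | i
    · rw [pow_zero]; exact ContinuousLinearMap.norm_id_le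
    · exact (norm_pow_le' _ i.succ_pos).trans (pow_le_one₀ (norm_nonneg _) T2)
  · exact (k3 _ (kS m)).2.1 _
  have ae : ∀ᵐ t ∂μ, t ∈ Set.Icc 0 K := hsup
  have int : ∀ f : ℝ → ℝ, Continuous f → Integrable f μ := fun f hf => by
    rw [← Measure.restrict_eq_self_of_ae_mem ae]
    exact hf.continuousOn.integrableOn_Icc
  have hp : ∀ j : ℕ, D ^ j = op ((c * cst c + cst c * c) ^ j) := fun j => by
    induction j with
    | zero => rw [pow_zero, pow_zero, h1]
    | succ j ih => rw [pow_succ', pow_succ, hm, ih, ContinuousLinearMap.mul_def]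
  have mo : ∀ i j : ℕ, erg_lam w (T ^ i * D ^ j) = ∫ t, (1 - C⁻¹ * t) ^ i * t ^ j ∂μ := fun i => by
    induction i with
    | zero => intro j; simp only [pow_zero, one_mul, hp, erg_op, hmom]
    | succ i ih =>
      intro j
      rw [pow_succ, mul_assoc, hT, sub_mul, one_mul, smul_mul_assoc, ← pow_succ', mul_sub,
        mul_smul_comm, map_sub, erg_smul, ← hT, ih, ih, ← integral_const_mul,
        ← integral_sub (int _ (by fun_prop)) (int _ (by fun_prop))]
      exact integral_congr_ae (.of_forall fun t => by ring)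
  have lo : ∀ i : ℕ, μ.real {0} ≤ erg_lam w (T ^ i) := fun i => by
    have := mo i 0
    simp only [pow_zero, mul_one] at this
    rw [this, ← integral_indicator_one (measurableSet_singleton 0)]
    refine integral_mono_ae ((integrable_const 1).indicator (measurableSet_singleton 0))
      (int _ (by fun_prop)) (ae.mono fun t ht => ?_)
    by_cases h : t = 0
    · simp [h]
    · rw [Set.indicator_of_notMem (by simpa using h)]
      exact pow_nonneg (sub_nonneg.2 (inv_mul_le_one_of_le₀ (ht.2.trans C1) C0.le)) _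
  refine le_trans (b := erg_lam w U.starProjection) (ge_of_tendsto' (f := fun m : ℕ => erg_lam w
    (((m + 1 : ℕ) : ℂ)⁻¹ • ∑ i ∈ range (m + 1), T ^ i)) (x := atTop) ?_ fun m => ?_) ?_
  · refine tendsto_finsetSum _ fun a _ => Tendsto.const_mul _ ?_
    exact (Complex.continuous_re.tendsto _).comp
      (((lp.evalCLM ℂ (fun _ : G × ι => ℂ) 2 (1, a)).continuous.tendsto _).comp (lim _))
  · rw [← Complex.ofReal_natCast, ← Complex.ofReal_inv, erg_smul, map_sum,
      le_inv_mul_iff₀ (by positivity)]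
    simpa using card_nsmul_le_sum (range (m + 1)) _ _ fun i _ => lo i
  · refine sum_le_sum fun a _ => mul_le_of_le_one_left ?_ (hw a).2
    have := ((ContinuousLinearMap.nonneg_iff_isPositive _).1 hQ.nonneg).re_inner_nonneg_right
      (dl (1, a))
    unfold dl at this ⊢
    let i0 := Classical.decEq (G × ι)
    rw [lp.inner_single_left] at this
    simpa using this

end Pool.Agent.P.MP_f30597_gt.SV
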