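import Pool.Agent.P.MP_f30597_gt.SV.Iface

/-! Step FILL. -/

namespace Pool.Agent.P.MP_f30597_gt.SV

open Finset Filter Topology MeasureTheory SI

section
variable {Y : Type}

/-- the prism on lists -/
noncomputable def fill_pr0 (f f' : Y → Y) : List Y → Ch Y
  | [] => 0
  | x :: l => cnY (f x) (mp f' (Finsupp.single (x :: l) 1) - fill_pr0 f f' l)

/-- the prism operator -/
noncomputable def fill_P (f f' : Y → Y) : Ch Y →ₗ[ℤ] Ch Y :=
  Finsupp.linearCombination ℤ (fill_pr0 f f')

theorem fill_P_single (f f' : Y → Y) (l : List Y) :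
    fill_P f f' (Finsupp.single l 1) = fill_pr0 f f' l := by
  rw [fill_P, Finsupp.linearCombination_single, one_smul]

theorem fill_P_cn (f f' : Y → Y) (x : Y) (u : Ch Y) :
    fill_P f f' (cnY x u) = cnY (f x) (mp f' (cnY x u) - fill_P f f' u) := by
  refine ch_ext (f := fill_P f f' ∘ₗ cnY x)
    (f' := cnY (f x) ∘ₗ (mp f' ∘ₗ cnY x - fill_P f f')) (fun l => ?_) u
  change fill_P f f' (cnY x _) = cnY (f x) (mp f' (cnY x _) - fill_P f f' _)
  rw [cnY_single, fill_P_single, fill_P_single, fill_pr0]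

theorem fill_mp_cn (f : Y → Y) (x : Y) (u : Ch Y) : mp f (cnY x u) = cnY (f x) (mp f u) := by
  refine ch_ext (f := mp f ∘ₗ cnY x) (f' := cnY (f x) ∘ₗ mp f) (fun l => ?_) u
  change mp f (cnY x _) = cnY (f x) (mp f _)
  rw [cnY_single, mp_single, mp_single, cnY_single, List.map_cons]

theorem fill_hom0 (f f' : Y → Y) (l : List Y) :
    bdY (fill_P f f' (Finsupp.single l 1)) + fill_P f f' (bdY (Finsupp.single l 1)) =
      mp f' (Finsupp.single l 1) - mp f (Finsupp.single l 1) := by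
  induction l with
  | nil => rw [bdY_nil, fill_P_single, fill_pr0, mp_single, mp_single]; simp
  | cons x l ih =>
    have ih' := eq_sub_of_add_eq ih
    rw [← cnY_single, fill_P_cn, bdY_cnY, bdY_cnY, map_sub (fill_P f f'), fill_P_cn, map_sub bdY,
      ih', bdY_mp, bdY_cnY, fill_mp_cn f]
    simp only [map_sub]
    abel

theorem fill_hom (f f' : Y → Y) (u : Ch Y) (hu : bdY u = 0) :
    bdY (fill_P f f' u) = mp f' u - mp f u := by
  have := ch_ext (f := bdY ∘ₗ fill_P f f' + fill_P f f' ∘ₗ bdY) (f' := mp f' - mp f)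
    (fun l => fill_hom0 f f' l) u
  simpa [hu] using this

theorem fill_supp (f f' : Y → Y) (l : List Y) :
    fill_pr0 f f' l ∈ Finsupp.supported ℤ ℤ
      {m : List Y | m.length = l.length + 1 ∧ ∀ z ∈ m, ∃ x ∈ l, z = f x ∨ z = f' x} := by
  induction l with
  | nil => exact zero_mem _
  | cons x l ih =>
    have hw : mp f' (Finsupp.single (x :: l) 1) - fill_pr0 f f' l ∈ Finsupp.supported ℤ ℤ
        {m : List Y | m.length = l.length + 1 ∧ ∀ z ∈ m, ∃ y ∈ x :: l, z = f y ∨ z = f' y} := by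
      refine sub_mem ?_ (Finsupp.supported_mono ?_ ih)
      · rw [mp_single]
        refine Finsupp.single_mem_supported _ _ ⟨by simp, fun z hz => ?_⟩
        obtain ⟨y, hy, rfl⟩ := List.mem_map.1 hz
        exact ⟨y, hy, Or.inr rfl⟩
      · rintro m ⟨h1, h2⟩
        refine ⟨h1, fun z hz => ?_⟩
        obtain ⟨y, hy, h⟩ := h2 z hz
        exact ⟨y, List.mem_cons_of_mem _ hy, h⟩
    rw [fill_pr0]
    refine ch_mem (cnY (f x)) (Finsupp.supported ℤ ℤ _).toAddSubgroup fun m hm => ?_
    rw [cnY_single]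
    obtain ⟨h1, h2⟩ := (Finsupp.mem_supported _ _).1 hw hm
    refine Finsupp.single_mem_supported ℤ _ ⟨by simp [h1], fun z hz => ?_⟩
    rcases List.mem_cons.1 hz with rfl | hz
    · exact ⟨x, List.mem_cons_self, Or.inl rfl⟩
    · exact h2 z hz

end

theorem p_FILL :
    S_FILL := by
  intro Y _ _ K hK
  obtain ⟨y0, ⟨H⟩⟩ := id_nullhomotopic Y
  have hc : IsCompact ((Set.univ : Set unitInterval) ×ˢ K) := isCompact_univ.prod hK
  refine ⟨insert y0 (H '' (Set.univ ×ˢ K)), (hc.image H.continuous).insert _, fun η hη => ?_⟩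
  obtain ⟨d, hd, hH⟩ := Metric.uniformContinuousOn_iff_le.1
    (hc.uniformContinuousOn_of_continuous H.continuous.continuousOn) η hη
  refine ⟨d, hd, fun k u hu hb => ?_⟩
  obtain ⟨J, hJ⟩ := exists_nat_one_div_lt hd
  set f : ℕ → Y → Y := fun j x =>
    H (Set.projIcc (0 : ℝ) 1 zero_le_one ((j : ℝ) / ((J : ℝ) + 1)), x) with hf
  have hpos : (0 : ℝ) < (J : ℝ) + 1 := by positivity
  have h0 : f 0 = id := by
    funext x
    simp only [hf, Nat.cast_zero, zero_div, Set.projIcc_left]
    exact H.apply_zero x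
  have h1 : ∀ x, f (J + 1) x = y0 := by
    intro x
    have : ((J + 1 : ℕ) : ℝ) / ((J : ℝ) + 1) = 1 := by
      push_cast
      exact div_self hpos.ne'
    simp only [hf, this, Set.projIcc_right]
    exact H.apply_one x
  have hdist : ∀ (i j : ℕ), |(i : ℝ) - j| ≤ 1 → ∀ x ∈ K, ∀ y ∈ K, dist x y ≤ d →
      dist (f i x) (f j y) ≤ η := by
    intro i j hij x hx y hy hxy
    refine hH _ ⟨Set.mem_univ _, hx⟩ _ ⟨Set.mem_univ _, hy⟩ ?_
    rw [Prod.dist_eq]
    refine max_le ?_ hxy
    have := (LipschitzWith.projIcc (zero_le_one (α := ℝ))).dist_le_mul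
      ((i : ℝ) / ((J : ℝ) + 1)) ((j : ℝ) / ((J : ℝ) + 1))
    refine this.trans ?_
    rw [NNReal.coe_one, one_mul, Real.dist_eq, ← sub_div, abs_div, abs_of_pos hpos]
    exact (div_le_div_of_nonneg_right hij hpos.le).trans hJ.le
  refine ⟨cnY y0 (mp (f (J + 1)) u) - ∑ j ∈ range (J + 1), fill_P (f j) (f (j + 1)) u, ?_, ?_⟩
  · have key : cnY y0 (mp (f (J + 1)) u) - ∑ j ∈ range (J + 1), fill_P (f j) (f (j + 1)) u ∈
        Finsupp.supported ℤ ℤ {l : List Y | l.length = k + 1 ∧ ∀ x ∈ l,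
          x ∈ insert y0 (H '' (Set.univ ×ˢ K)) ∧ ∀ y ∈ l, dist x y ≤ η} := by
      refine sub_mem ?_ (sum_mem fun j _ => ?_)
      · refine ch_mem (cnY y0 ∘ₗ mp (f (J + 1))) (Finsupp.supported ℤ ℤ _).toAddSubgroup
          fun l hl => ?_
        change cnY y0 (mp _ _) ∈ _
        rw [mp_single, cnY_single]
        have hall : ∀ z ∈ y0 :: l.map (f (J + 1)), z = y0 := by
          intro z hz
          rcases List.mem_cons.1 hz with rfl | hz
          · rfl
          · obtain ⟨y, -, rfl⟩ := List.mem_map.1 hz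
            exact h1 y
        refine Finsupp.single_mem_supported ℤ _ ⟨by simp [(hu l hl).1], fun z hz => ⟨?_, ?_⟩⟩
        · rw [hall z hz]; exact Set.mem_insert _ _
        · intro y hy
          rw [hall z hz, hall y hy, dist_self]
          exact hη.le
      · refine ch_mem (fill_P (f j) (f (j + 1))) (Finsupp.supported ℤ ℤ _).toAddSubgroup
          fun l hl => ?_
        rw [fill_P_single]
        refine Finsupp.supported_mono ?_ (fill_supp (f j) (f (j + 1)) l)
        rintro m ⟨hm1, hm2⟩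
        refine ⟨by rw [hm1, (hu l hl).1], fun z hz => ⟨?_, fun y hy => ?_⟩⟩
        · obtain ⟨x, hx, h⟩ := hm2 z hz
          refine Set.mem_insert_of_mem _ ?_
          rcases h with rfl | rfl <;>
            exact ⟨_, ⟨Set.mem_univ _, ((hu l hl).2 x hx).1⟩, rfl⟩
        · obtain ⟨x, hx, h⟩ := hm2 z hz
          obtain ⟨x', hx', h'⟩ := hm2 y hy
          have hxx := ((hu l hl).2 x hx).2 x' hx'
          rcases h with rfl | rfl <;> rcases h' with rfl | rfl <;>
            refine hdist _ _ ?_ x ((hu l hl).2 x hx).1 x' ((hu l hl).2 x' hx').1 hxx <;> simp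
    exact fun l hl => (Finsupp.mem_supported _ _).1 key hl
  · rw [map_sub, map_sum, bdY_cnY, bdY_mp, hb, map_zero, map_zero, sub_zero,
      sum_congr rfl fun j _ => fill_hom (f j) (f (j + 1)) u hb,
      sum_range_sub (fun j => mp (f j) u), h0, sub_sub_cancel]
    exact ch_ext (f := mp id) (f' := LinearMap.id) (fun l => by simp [mp_single]) u

end Pool.Agent.P.MP_f30597_gt.SV
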