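import Pool.Agent.P.MP_f30597_gt.SV.Iface

/-! Step GOOD. -/

namespace Pool.Agent.P.MP_f30597_gt.SV

open Finset Filter Topology MeasureTheory SI

open Classical in
theorem good_card {G : Type} (n : ℕ) (l : List (Finset (Zs G))) (hl : l.length = n + 1)
    (f : Finset (Zs G) → Finset (Zs G)) (c : ℝ) (hc : 0 ≤ c) (h : ∀ S ∈ l, ((f S).card : ℝ) ≤ c) :
    ((l.toFinset.biUnion f).card : ℝ) ≤ (n + 1) * c := by
  have h1 : ((l.toFinset.biUnion f).card : ℝ) ≤ ∑ S ∈ l.toFinset, ((f S).card : ℝ) := by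
    exact_mod_cast card_biUnion_le
  have h2 : ∑ S ∈ l.toFinset, ((f S).card : ℝ) ≤ l.toFinset.card • c :=
    sum_le_card_nsmul _ _ _ fun S hS => h S (List.mem_toFinset.1 hS)
  have h3 : (l.toFinset.card : ℝ) ≤ n + 1 := by exact_mod_cast hl ▸ List.toFinset_card_le l
  rw [nsmul_eq_mul] at h2
  exact h1.trans (h2.trans (mul_le_mul_of_nonneg_right h3 hc))

theorem p_GOOD :
    S_GOOD := by
  classical
  intro G n m θ l hm hθ hn hl h
  have hmθ : 0 ≤ m * θ := by positivity
  obtain ⟨S0, h0⟩ : ∃ S, S ∈ l := List.exists_mem_of_length_pos (by omega)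
  have hA : ((un l \ it l).card : ℝ) ≤ (n + 1) * ((n + 1) * (m * θ)) := by
    refine le_trans ?_ (good_card n l hl (fun S => l.toFinset.biUnion fun S' => S' \ S) _
      (by positivity) fun S hS => good_card n l hl _ _ hmθ fun S' hS' => (h S hS).2 S' hS')
    refine Nat.cast_le.2 (card_le_card fun z hz => ?_)
    obtain ⟨h1, h2⟩ := Finset.mem_sdiff.1 hz
    rw [mem_it, not_and] at h2
    have h3 := h2 h1
    push Not at h3
    obtain ⟨S, hS, hz⟩ := h3
    obtain ⟨S', hS', hz'⟩ := mem_un.1 h1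
    simp only [mem_biUnion, List.mem_toFinset, Finset.mem_sdiff]
    exact ⟨S, hS, S', hS', hz', hz⟩
  have hB : (S0.card : ℝ) ≤ (it l).card + (n + 1) * (m * θ) := by
    have h1 := good_card n l hl (fun S => S0 \ S) _ hmθ fun S hS => (h S hS).2 S0 h0
    have h2 : S0 ⊆ it l ∪ l.toFinset.biUnion fun S => S0 \ S := fun z hz => by
      by_cases hi : ∀ S ∈ l, z ∈ S
      · exact mem_union_left _ (mem_it.2 ⟨mem_un.2 ⟨S0, h0, hz⟩, hi⟩)
      · push Not at hi
        obtain ⟨S, hS, hz'⟩ := hi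
        refine mem_union_right _ ?_
        simp only [mem_biUnion, List.mem_toFinset, Finset.mem_sdiff]
        exact ⟨S, hS, hz, hz'⟩
    have h3 : (S0.card : ℝ) ≤ (it l).card + ((l.toFinset.biUnion fun S => S0 \ S).card : ℝ) := by
      exact_mod_cast (card_le_card h2).trans (card_union_le _ _)
    linarith
  have hC : m / 2 ≤ (it l).card := by nlinarith [(h S0 h0).1]
  refine ⟨card_pos.1 (Nat.cast_pos.1 (lt_of_lt_of_le (by positivity : (0 : ℝ) < m / 2) hC)), ?_⟩
  have h4 : 2 * ((n : ℝ) + 1) ^ 2 * θ * (m / 2) ≤ 2 * (n + 1) ^ 2 * θ * (it l).card :=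
    mul_le_mul_of_nonneg_left hC (by positivity)
  refine le_trans (hA.trans_eq ?_) h4
  ring

end Pool.Agent.P.MP_f30597_gt.SV
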