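import Pool.Agent.P.MP_f30597_gt.SV.Iface

/-! Step HASH. -/

namespace Pool.Agent.P.MP_f30597_gt.SV

open Finset Filter Topology MeasureTheory SI

theorem hash_perm {Z : Type} {W I W' I' : Finset Z} (h : Disjoint W I) (h' : Disjoint W' I')
    (c1 : W.card = W'.card) (c2 : I.card = I'.card) :
    ∃ σ : Equiv.Perm Z, W.map σ.toEmbedding = W' ∧ I.map σ.toEmbedding = I' := by
  have inj : ∀ {A B : Finset Z}, Disjoint A B →
      Function.Injective (Sum.elim (fun a : A => (a : Z)) fun b : B => (b : Z)) := by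
    intro A B hAB
    refine Subtype.val_injective.sumElim Subtype.val_injective fun a b e => ?_
    exact disjoint_left.1 hAB a.2 (e ▸ b.2)
  obtain ⟨σ, hσ⟩ := Equiv.Perm.exists_extending_pair _ _ (inj h)
    ((inj h').comp ((W.equivOfCardEq c1).sumCongr (I.equivOfCardEq c2)).injective)
  refine ⟨σ, eq_of_subset_of_card_le (fun b hb => ?_) (by simp [c1]),
    eq_of_subset_of_card_le (fun b hb => ?_) (by simp [c2])⟩
  · obtain ⟨a, ha, rfl⟩ := mem_map.1 hb
    have e : σ a = (W.equivOfCardEq c1 ⟨a, ha⟩ : Z) := hσ (Sum.inl ⟨a, ha⟩)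
    exact (show σ a ∈ W' from e ▸ (W.equivOfCardEq c1 ⟨a, ha⟩).2)
  · obtain ⟨a, ha, rfl⟩ := mem_map.1 hb
    have e : σ a = (I.equivOfCardEq c2 ⟨a, ha⟩ : Z) := hσ (Sum.inr ⟨a, ha⟩)
    exact (show σ a ∈ I' from e ▸ (I.equivOfCardEq c2 ⟨a, ha⟩).2)

theorem hash_meas {Z : Type} (W I : Finset Z) :
    MeasurableSet {x : Z → ℝ | ∀ a ∈ W, ∀ b ∈ I, x a < x b} := by
  simp only [Set.ofPred_forall]
  exact W.measurableSet_biInter fun a _ => I.measurableSet_biInter fun b _ =>
    measurableSet_lt (measurable_pi_apply a) (measurable_pi_apply b)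

theorem hash_eq {Z : Type} {W I W' I' : Finset Z} (h : Disjoint W I) (h' : Disjoint W' I')
    (c1 : W.card = W'.card) (c2 : I.card = I'.card) :
    (P0 Z).real {x | ∀ a ∈ W', ∀ b ∈ I', x a < x b} =
      (P0 Z).real {x | ∀ a ∈ W, ∀ b ∈ I, x a < x b} := by
  obtain ⟨σ, rfl, rfl⟩ := hash_perm h h' c1 c2
  have e : (P0 Z).map (MeasurableEquiv.piCongrLeft (fun _ : Z => ℝ) σ) = P0 Z :=
    Measure.infinitePi_map_piCongrLeft (fun _ : Z => ProbabilityTheory.gaussianReal 0 1) σ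
  conv_lhs => rw [← e]
  rw [Measure.real, Measure.real, Measure.map_apply (MeasurableEquiv.measurable _) (hash_meas _ _)]
  congr 2
  ext x
  have a1 : ∀ a, MeasurableEquiv.piCongrLeft (fun _ : Z => ℝ) σ x (σ a) = x a := fun a =>
    MeasurableEquiv.piCongrLeft_apply_apply (β := fun _ : Z => ℝ) σ x a
  simp only [Set.mem_preimage, Set.mem_ofPred_eq, forall_mem_map, Equiv.coe_toEmbedding, a1]

theorem p_HASH :
    S_HASH := by
  classical
  intro Z W I h
  have hc : (W ∪ I).card = W.card + I.card := card_union_of_disjoint h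
  have key := measureReal_biUnion_finset (μ := P0 Z) (s := (W ∪ I).powersetCard W.card)
    (f := fun W' => {x : Z → ℝ | ∀ a ∈ W', ∀ b ∈ (W ∪ I) \ W', x a < x b}) ?_
    (fun W' _ => hash_meas _ _)
  · rw [sum_congr rfl (g := fun _ => (P0 Z).real {x | ∀ a ∈ W, ∀ b ∈ I, x a < x b}) ?_,
      sum_const, card_powersetCard, hc, nsmul_eq_mul] at key
    · have hp : (0 : ℝ) < ((W.card + I.card).choose W.card : ℝ) := by
        exact_mod_cast Nat.choose_pos (Nat.le_add_right _ _)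
      rw [le_div_iff₀ hp, mul_comm, ← key]
      exact measureReal_le_one
    · intro W' hW'
      obtain ⟨s1, s2⟩ := mem_powersetCard.1 hW'
      refine hash_eq h disjoint_sdiff s2.symm ?_
      rw [card_sdiff_of_subset s1, hc, s2]
      omega
  · intro A hA B hB hne
    obtain ⟨a1, a2⟩ := mem_powersetCard.1 (mem_coe.1 hA)
    obtain ⟨b1, b2⟩ := mem_powersetCard.1 (mem_coe.1 hB)
    have n1 : ¬ A ⊆ B := fun s => hne (eq_of_subset_of_card_le s (by omega))
    have n2 : ¬ B ⊆ A := fun s => hne (eq_of_subset_of_card_le s (by omega)).symm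
    obtain ⟨a, ha, ha'⟩ := not_subset.1 n1
    obtain ⟨b, hb, hb'⟩ := not_subset.1 n2
    refine Set.disjoint_left.2 fun x hx hy => ?_
    exact lt_asymm (hx a ha b (mem_sdiff.2 ⟨b1 hb, hb'⟩)) (hy b hb a (mem_sdiff.2 ⟨a1 ha, ha'⟩))

end Pool.Agent.P.MP_f30597_gt.SV
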