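import Pool.Agent.P.MP_f30597_gt.SV.Iface

/-! Step KER. -/

namespace Pool.Agent.P.MP_f30597_gt.SV

open Finset Filter Topology MeasureTheory SI

open Classical in
theorem ker_dl {α : Type} (p q : α) : dl p q = if q = p then 1 else 0 := by
  simp [dl, lp.single_apply, Pi.single_apply]

theorem ker_adj {α β : Type} (T : L2 α →L[ℂ] L2 β) (p : α) (q : β) :
    ContinuousLinearMap.adjoint T (dl q) p = (starRingEnd ℂ) (T (dl p) q) := by
  classical
  have h1 : ∀ (v : L2 α), inner ℂ (dl p) v = v p := fun v => by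
    simp [dl, lp.inner_single_left]
  have h2 : ∀ (v : L2 β), inner ℂ (dl q) v = v q := fun v => by
    simp [dl, lp.inner_single_left]
  rw [← h1, ContinuousLinearMap.adjoint_inner_right, ← h2, inner_conj_symm]

theorem ker_exp {G κ κ' κ'' : Type} [Group G] [Fintype κ'] (F : Finset G)
    (T : L2 (G × κ) →L[ℂ] L2 (G × κ')) (S : L2 (G × κ') →L[ℂ] L2 (G × κ'')) (h : G) (k : κ)
    (hF : ∀ h' k', T (dl (h, k)) (h', k') ≠ 0 → h⁻¹ * h' ∈ F) (q : G × κ'') :
    (S ∘L T) (dl (h, k)) q =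
      ∑ k', ∑ s ∈ F, T (dl (h, k)) (h * s, k') * S (dl (h * s, k')) q := by
  classical
  have e : T (dl (h, k)) = ∑ k', ∑ s ∈ F, T (dl (h, k)) (h * s, k') • dl (h * s, k') := by
    refine lp.ext (funext fun ⟨h', k'⟩ => ?_)
    simp only [lp.coeFn_sum, Finset.sum_apply, lp.coeFn_smul, Pi.smul_apply, ker_dl, smul_eq_mul]
    rw [sum_eq_single k' (fun j _ hj => sum_eq_zero fun s _ => by simp [hj.symm]) (by simp),
      sum_eq_single (h⁻¹ * h') (fun s _ hs => ?_) (fun hs => ?_)]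
    · simp
    · rw [if_neg, mul_zero]
      intro e
      exact hs (by rw [(Prod.mk.inj e).1]; simp)
    · by_contra e
      exact hs (hF h' k' (by simpa using e))
  rw [ContinuousLinearMap.comp_apply, congrArg S e]
  simp only [map_sum, map_smul, lp.coeFn_sum, Finset.sum_apply, lp.coeFn_smul, Pi.smul_apply,
    smul_eq_mul]

theorem p_KER (hREP : S_REP) :
    S_KER := by
  classical
  intro G X κ κ' κ'' _ _ _ _ _ _
  refine ⟨fun y => ?_, ?_, fun T hT => ⟨fun T' hT' => ?_, fun s => ?_, ?_, fun S hS => ?_⟩⟩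
  · have r := (hREP G X κ κ' κ'').2.1 y
    refine ⟨fun g x h k h' k' => ?_, ⟨univ.biUnion fun k => univ.biUnion fun k' =>
      (y k k').coeff.support, fun x h k h' k' e => ?_⟩, fun _ _ => measurable_const,
      _, fun _ => le_rfl⟩
    · rw [r x, r x]
      simp [mul_assoc]
    · rw [r x] at e
      simp only [mem_biUnion, mem_univ, true_and]
      exact ⟨k, k', Finsupp.mem_support_iff.2 fun e' => e (by rw [e']; simp)⟩
  · refine ⟨fun g x h k h' k' => by simp [ker_dl], ⟨{1}, fun x h k h' k' e => ?_⟩,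
      fun _ _ => measurable_const, _, fun _ => le_rfl⟩
    have : h' = h ∧ k' = k := by simpa [ker_dl] using e
    simp [this.1]
  · obtain ⟨F, hF⟩ := hT.fin
    obtain ⟨F', hF'⟩ := hT'.fin
    obtain ⟨M, hM⟩ := hT.bdd
    obtain ⟨M', hM'⟩ := hT'.bdd
    have e : ∀ x p p', (T x + T' x) (dl p) p' = T x (dl p) p' + T' x (dl p) p' := fun _ _ _ => rfl
    refine ⟨fun g x h k h' k' => by rw [e, e, hT.eqv, hT'.eqv], ⟨F ∪ F', fun x h k h' k' n => ?_⟩,
      fun p p' => (hT.meas p p').add (hT'.meas p p'), M + M',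
      fun x => (norm_add_le _ _).trans (add_le_add (hM x) (hM' x))⟩
    by_contra c
    rw [mem_union, not_or] at c
    refine n ?_
    rw [e, not_not.1 fun a => c.1 (hF x h k h' k' a), not_not.1 fun a => c.2 (hF' x h k h' k' a),
      add_zero]
  · obtain ⟨F, hF⟩ := hT.fin
    obtain ⟨M, hM⟩ := hT.bdd
    have e : ∀ x p p', (s • T x) (dl p) p' = s * T x (dl p) p' := fun _ _ _ => rfl
    exact ⟨fun g x h k h' k' => by rw [e, e, hT.eqv],
      ⟨F, fun x h k h' k' n => hF x h k h' k' (right_ne_zero_of_mul (e x _ _ ▸ n))⟩,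
      fun p p' => (hT.meas p p').const_mul s, ‖s‖ * M,
      fun x => (norm_smul_le _ _).trans (mul_le_mul_of_nonneg_left (hM x) (norm_nonneg _))⟩
  · obtain ⟨F, hF⟩ := hT.fin
    obtain ⟨M, hM⟩ := hT.bdd
    refine ⟨fun g x h k h' k' => by rw [ker_adj, ker_adj, hT.eqv],
      ⟨F.image fun s => s⁻¹, fun x h k h' k' n => ?_⟩, fun p p' => ?_, M, fun x => ?_⟩
    · rw [ker_adj] at n
      exact mem_image.2 ⟨_, hF x h' k' h k fun a => n (by rw [a, map_zero]), by simp⟩
    · simp only [ker_adj]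
      exact Complex.continuous_conj.measurable.comp (hT.meas p' p)
    · rw [LinearIsometryEquiv.norm_map]
      exact hM x
  · obtain ⟨F, hF⟩ := hT.fin
    obtain ⟨F', hF'⟩ := hS.fin
    obtain ⟨M, hM⟩ := hT.bdd
    obtain ⟨M', hM'⟩ := hS.bdd
    have e := fun x h k => ker_exp F (T x) (S x) h k (hF x h k)
    refine ⟨fun g x h k h' k' => ?_, ⟨image₂ (· * ·) F F', fun x h k h' k' n => ?_⟩,
      fun ⟨h, k⟩ p' => ?_, M' * M, fun x => (ContinuousLinearMap.opNorm_comp_le _ _).trans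
        (mul_le_mul (hM' x) (hM x) (norm_nonneg _) ((norm_nonneg _).trans (hM' x)))⟩
    · rw [e, e]
      simp only [mul_assoc g h, hT.eqv, hS.eqv]
    · rw [e] at n
      obtain ⟨j, -, n⟩ := exists_ne_zero_of_sum_ne_zero n
      obtain ⟨s, hs, n⟩ := exists_ne_zero_of_sum_ne_zero n
      exact mem_image₂.2 ⟨s, hs, _, hF' x _ _ _ _ (right_ne_zero_of_mul n), by group⟩
    · simp only [e]
      exact Finset.measurable_sum _ fun j _ => Finset.measurable_sum _ fun s _ =>
        (hT.meas _ _).mul (hS.meas _ _)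

end Pool.Agent.P.MP_f30597_gt.SV
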