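import Pool.Agent.P.MP_f30597_gt.SV.Iface

/-! Step LOW. -/

namespace Pool.Agent.P.MP_f30597_gt.SV

open Finset Filter Topology MeasureTheory SI ContinuousLinearMap

theorem low_sq {H K : Type} [NormedAddCommGroup H] [InnerProductSpace ℂ H] [CompleteSpace H]
    [NormedAddCommGroup K] [InnerProductSpace ℂ K] [CompleteSpace K] (A : K →L[ℂ] H) {M : ℝ}
    (h1 : 1 ≤ M) (hA : ‖A‖ ≤ M) (v : H) :
    ‖(1 - ((1 / M ^ 2 : ℝ) : ℂ) • (A ∘L adjoint A)) v‖ ^ 2 ≤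
      ‖v‖ ^ 2 - 1 / M ^ 2 * ‖adjoint A v‖ ^ 2 := by
  have hM : 0 < M := by linarith
  have hc : 0 < 1 / M ^ 2 := by positivity
  have e1 : (1 - ((1 / M ^ 2 : ℝ) : ℂ) • (A ∘L adjoint A)) v =
      v - ((1 / M ^ 2 : ℝ) : ℂ) • A (adjoint A v) := rfl
  have e2 : RCLike.re (inner ℂ v (((1 / M ^ 2 : ℝ) : ℂ) • A (adjoint A v))) =
      1 / M ^ 2 * ‖adjoint A v‖ ^ 2 := by
    rw [inner_smul_right, ← adjoint_inner_left, inner_self_eq_norm_sq_to_K]
    simp only [RCLike.re_to_complex]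
    rw [Complex.re_ofReal_mul]
    norm_cast
  have e3 : ‖((1 / M ^ 2 : ℝ) : ℂ) • A (adjoint A v)‖ ≤ 1 / M ^ 2 * (M * ‖adjoint A v‖) := by
    rw [norm_smul, Complex.norm_real, Real.norm_of_nonneg hc.le]
    exact mul_le_mul_of_nonneg_left ((A.le_opNorm _).trans
      (mul_le_mul_of_nonneg_right hA (norm_nonneg _))) hc.le
  have e4 : (1 / M ^ 2 * (M * ‖adjoint A v‖)) ^ 2 = 1 / M ^ 2 * ‖adjoint A v‖ ^ 2 := by
    field_simp
  have e5 := pow_le_pow_left₀ (norm_nonneg _) e3 2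
  rw [e1, @norm_sub_sq ℂ, e2]
  linarith

theorem p_LOW :
    S_LOW := by
  intro H K _ _ _ _ _ _ A M h1 hA
  have hM : 0 < M := by linarith
  have hc : 0 < 1 / M ^ 2 := by positivity
  refine ⟨opNorm_le_bound _ zero_le_one fun v => ?_, fun Q B hQ hB hAB hQA j v => ?_⟩
  · have := low_sq (adjoint A) h1 (by rwa [LinearIsometryEquiv.norm_map]) v
    rw [adjoint_adjoint] at this
    rw [one_mul]
    refine (pow_le_pow_iff_left₀ (norm_nonneg _) (norm_nonneg _) two_ne_zero).1 (this.trans ?_)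
    have : 0 ≤ 1 / M ^ 2 * ‖A v‖ ^ 2 := by positivity
    linarith
  set T := 1 - ((1 / M ^ 2 : ℝ) : ℂ) • (A ∘L adjoint A) with hT
  set s := √(1 - 1 / M ^ 4) with hs
  have hQs : adjoint Q = Q := hQ.isSelfAdjoint
  have hQQ : ∀ x, Q (Q x) = Q x := fun x => congrArg (fun f : H →L[ℂ] H => f x) hQ.isIdempotentElem
  have hQA' : ∀ x, Q (A x) = A x := fun x => congrArg (fun f : K →L[ℂ] H => f x) hQA
  have hAQ : ∀ x, adjoint A (Q x) = adjoint A x := fun x => by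
    have := congrArg (fun f => adjoint f x) hQA
    simpa [adjoint_comp, hQs] using this
  have eT : ∀ x, T x = x - ((1 / M ^ 2 : ℝ) : ℂ) • A (adjoint A x) := fun _ => rfl
  have h4 : 1 / M ^ 4 ≤ 1 := by
    rw [div_le_one (by positivity)]; exact one_le_pow₀ h1
  have hs0 : 0 ≤ s := Real.sqrt_nonneg _
  have hs2 : s ^ 2 = 1 - 1 / M ^ 4 := Real.sq_sqrt (by linarith)
  have a1 : ∀ x, Q x = x → Q (T x) = T x ∧ ‖T x‖ ≤ s * ‖x‖ := fun x hx => by
    refine ⟨by rw [eT, map_sub, map_smul, hQA', hx], ?_⟩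
    have b1 : ‖x‖ ^ 2 ≤ ‖adjoint A x‖ * (M * ‖x‖) := by
      have : A (B x) = x := (congrArg (fun f : H →L[ℂ] H => f x) hAB).trans hx
      calc ‖x‖ ^ 2 = ‖inner ℂ x (A (B x))‖ := by
            rw [this, inner_self_eq_norm_sq_to_K]; simp
        _ ≤ ‖adjoint A x‖ * ‖B x‖ := by rw [← adjoint_inner_left]; exact norm_inner_le_norm _ _
        _ ≤ _ := mul_le_mul_of_nonneg_left ((B.le_opNorm _).trans
            (mul_le_mul_of_nonneg_right hB (norm_nonneg _))) (norm_nonneg _)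
    have b2 : ‖x‖ ≤ ‖adjoint A x‖ * M := by
      rcases (norm_nonneg x).eq_or_lt with e | e
      · rw [← e]; positivity
      · exact le_of_mul_le_mul_right (by nlinarith) e
    have b3 : 1 / M ^ 4 * ‖x‖ ^ 2 ≤ 1 / M ^ 2 * ‖adjoint A x‖ ^ 2 := by
      calc _ ≤ 1 / M ^ 4 * (‖adjoint A x‖ * M) ^ 2 := by gcongr
        _ = _ := by field_simp
    have b4 := low_sq A h1 hA x
    refine (pow_le_pow_iff_left₀ (norm_nonneg _) (by positivity) two_ne_zero).1 (b4.trans ?_)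
    rw [mul_pow, hs2]
    linarith
  have a2 : ∀ n : ℕ, Q ((T ^ n) (Q v)) = (T ^ n) (Q v) ∧ ‖(T ^ n) (Q v)‖ ≤ s ^ n * ‖Q v‖ := by
    intro n
    induction n with
    | zero => simpa using hQQ v
    | succ n ih =>
      obtain ⟨c1, c2⟩ := a1 _ ih.1
      rw [pow_succ', ContinuousLinearMap.mul_apply]
      refine ⟨c1, c2.trans ?_⟩
      rw [pow_succ', mul_assoc]
      exact mul_le_mul_of_nonneg_left ih.2 hs0
  have a3 : ∀ n : ℕ, (T ^ n) (v - Q v) = v - Q v := by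
    intro n
    induction n with
    | zero => simp
    | succ n ih => rw [pow_succ', ContinuousLinearMap.mul_apply, ih, eT, map_sub (adjoint A), hAQ]; simp
  have a4 : v - (T ^ j) v = Q v - (T ^ j) (Q v) := by
    have := a3 j
    rw [map_sub] at this
    rw [sub_eq_sub_iff_sub_eq_sub, this]
  have a5 : ∀ x, Q x = x → inner ℂ v x = inner ℂ (Q v) x := fun x hx => by
    conv_lhs => rw [← hx, ← adjoint_inner_left, hQs]
  have a6 : (inner ℂ v (Q v)).re = ‖Q v‖ ^ 2 := by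
    rw [a5 _ (hQQ v), inner_self_eq_norm_sq_to_K]; norm_cast
  have a7 : (inner ℂ v ((T ^ j) (Q v))).re ≤ s ^ j * ‖Q v‖ ^ 2 := by
    rw [a5 _ (a2 j).1]
    calc _ ≤ ‖inner ℂ (Q v) ((T ^ j) (Q v))‖ := Complex.re_le_norm _
      _ ≤ ‖Q v‖ * ‖(T ^ j) (Q v)‖ := norm_inner_le_norm _ _
      _ ≤ ‖Q v‖ * (s ^ j * ‖Q v‖) := mul_le_mul_of_nonneg_left (a2 j).2 (norm_nonneg _)
      _ = _ := by ring
  rw [a4, inner_sub_right, Complex.sub_re, a6]
  linarith

end Pool.Agent.P.MP_f30597_gt.SV
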