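import Pool.Agent.P.MP_f30597_gt.SV.Iface

/-! Step MESH. -/

namespace Pool.Agent.P.MP_f30597_gt.SV

open Finset Filter Topology MeasureTheory SI

theorem mesh_mono {Y : Type} [MetricSpace Y] {k : ℕ} {K K' : Set Y} {η η' : ℝ} {u : Ch Y}
    (h : Sm k K η u) (hK : K ⊆ K') (hη : η ≤ η') : Sm k K' η' u := fun l hl =>
  ⟨(h l hl).1, fun x hx => ⟨hK ((h l hl).2 x hx).1, fun y hy =>
    (((h l hl).2 x hx).2 y hy).trans hη⟩⟩

theorem p_MESH (hFILL : S_FILL) :
    S_MESH := by
  intro G ι Y _ _ _ _ _ _ deg c w R hiso
  classical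
  have key : ∀ k, ∃ K : Set Y, IsCompact K ∧ ∀ η : ℝ, 0 < η → ∃ φ : ι → Ch Y, ∀ a, deg a < k →
      Sm (deg a + 1) K η (φ a) ∧
        bdY (φ a) = w a • Finsupp.single [] 1 + ∑ b, rY (c a b) (φ b) := by
    intro k
    induction k with
    | zero => exact ⟨∅, isCompact_empty, fun η _ => ⟨0, fun a h => absurd h (Nat.not_lt_zero _)⟩⟩
    | succ k ih =>
      obtain ⟨K, hK, ih⟩ := ih
      have hK1 : IsCompact (⋃ a, ⋃ b, ⋃ g ∈ (c a b).coeff.support, (fun y : Y => g • y) '' K) :=
        isCompact_iUnion fun a => isCompact_iUnion fun b => Finset.isCompact_biUnion _ fun g _ =>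
          hK.image (Isometry.of_dist_eq (hiso g)).continuous
      obtain ⟨K', hK', hF⟩ := hFILL Y _ hK1
      refine ⟨K ∪ K', hK.union hK', fun η hη => ?_⟩
      obtain ⟨η', hη', hF⟩ := hF η hη
      obtain ⟨φ, hφ⟩ := ih (min η η') (lt_min hη hη')
      have h3 : ∀ a, deg a = k → ∃ v : Ch Y, Sm (k + 1) K' η v ∧
          bdY v = w a • Finsupp.single [] 1 + ∑ b, rY (c a b) (φ b) := fun a ha => by
        refine hF k _ (fun l hl => ?_) ?_
        · rcases mem_union.1 (Finsupp.support_add hl) with hl | hl
          · have e : w a ≠ 0 := fun e => by simp [e] at hl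
            have e2 : l = [] :=
              mem_singleton.1 (Finsupp.support_single_subset (Finsupp.support_smul hl))
            subst e2
            exact ⟨by rw [← ha, R.aug_deg a e]; rfl, fun x hx => absurd hx List.not_mem_nil⟩
          · obtain ⟨b, -, hb⟩ := mem_biUnion.1 (Finsupp.support_finsetSum hl)
            have e : c a b ≠ 0 := fun e => by simp [e] at hb
            have e1 := R.graded a b e
            obtain ⟨g, hg, l', hl', rfl⟩ := rY_supp _ _ hb
            obtain ⟨h1, h2⟩ := (hφ b (by omega)).1 l' hl'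
            refine ⟨by rw [List.length_map, h1]; omega, fun x hx => ?_⟩
            obtain ⟨x, hx', rfl⟩ := List.mem_map.1 hx
            refine ⟨Set.mem_iUnion.2 ⟨a, Set.mem_iUnion.2 ⟨b, Set.mem_iUnion₂.2
              ⟨g, hg, x, (h2 x hx').1, rfl⟩⟩⟩, fun y hy => ?_⟩
            obtain ⟨y, hy', rfl⟩ := List.mem_map.1 hy
            rw [hiso]
            exact ((h2 x hx').2 y hy').trans (min_le_right _ _)
        · have h4 : ∀ b, bdY (rY (c a b) (φ b)) = (w b * eps (c a b)) • Finsupp.single [] 1 +
              ∑ e, rY (c a b * c b e) (φ e) := fun b => by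
            by_cases e : c a b = 0
            · simp [e]
            · rw [rY_bd, (hφ b (by have := R.graded a b e; omega)).2, map_add, map_zsmul, rY_nil,
                smul_smul, map_sum]
              simp only [map_mul, Module.End.mul_apply]
          have h5 := (pat_cc R a).2
          rw [aug_eq] at h5
          rw [map_add, map_zsmul, bdY_nil, smul_zero, zero_add, map_sum,
            sum_congr rfl fun b _ => h4 b, sum_add_distrib, ← sum_smul, h5, zero_smul, zero_add,
            sum_comm]
          refine sum_eq_zero fun e _ => ?_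
          rw [← LinearMap.sum_apply, ← map_sum, ← Matrix.mul_apply, R.sq]
          simp
      choose! x hx using h3
      refine ⟨fun a => if deg a = k then x a else φ a, fun a ha => ?_⟩
      have h5 : ∑ b, rY (c a b) (if deg b = k then x b else φ b) = ∑ b, rY (c a b) (φ b) :=
        sum_congr rfl fun b _ => by
          by_cases e : c a b = 0
          · simp [e]
          · rw [if_neg (by have := R.graded a b e; omega)]
      beta_reduce
      rw [h5]
      split_ifs with e
      · exact ⟨e ▸ mesh_mono (hx a e).1 Set.subset_union_right le_rfl, (hx a e).2⟩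
      · exact ⟨mesh_mono (hφ a (by omega)).1 Set.subset_union_left (min_le_left _ _),
          (hφ a (by omega)).2⟩
  intro η hη
  obtain ⟨K, -, h⟩ := key (univ.sup deg + 1)
  obtain ⟨φ, h⟩ := h η hη
  have h' := fun a => h a (Nat.lt_succ_of_le (le_sup (mem_univ a)))
  exact ⟨φ, fun a => ⟨fun l hl => ((h' a).1 l hl).1, (h' a).2⟩,
    fun a l hl x hx => (((h' a).1 l hl).2 x hx).2⟩

end Pool.Agent.P.MP_f30597_gt.SV
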