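import Pool.Agent.P.MP_f30597_gt.SV.Iface

/-! Step NET. -/

namespace Pool.Agent.P.MP_f30597_gt.SV

open Finset Filter Topology MeasureTheory SI

theorem p_NET (hPACK : S_PACK) :
    S_NET := by
  intro G Y _ _ _ _ _ _ _ n A V μ L Φ h
  classical
  obtain ⟨hA, hV, r₀, r0, hfree, hp⟩ := hPACK G Y n A V μ L Φ h
  refine ⟨hA, hV, r₀, r0, fun ε ε0 εr => ?_⟩
  obtain ⟨hp1, hp2⟩ := hp ε ε0 εr
  have free : ∀ (g : G) (y : Y), dist (g • y) y ≤ ε → g = 1 := fun g y e => by
    by_contra hg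
    linarith [hfree g hg y]
  have hc : 0 < ((L : ℝ) * ε / 2) ^ n := by
    have : (0 : ℝ) < L := h.pos
    positivity
  obtain ⟨B, hB⟩ := exists_nat_ge (V / ((L : ℝ) * ε / 2) ^ n)
  have hbd : BddAbove {k : ℕ | ∃ N : Finset Y,
      (∀ p ∈ N, ∀ p' ∈ N, ∀ g : G, dist (g • p) p' ≤ ε → p = p') ∧ N.card = k} := by
    refine ⟨B, ?_⟩
    rintro _ ⟨N, hN, rfl⟩
    exact_mod_cast ((le_div_iff₀ hc).2 (hp1 N hN)).trans hB
  obtain ⟨N, hN, hcard⟩ := Nat.sSup_mem (by exact ⟨0, ∅, by simp, rfl⟩) hbd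
  have hmax : ∀ y : Y, ∃ (g : G) (p : Y), p ∈ N ∧ dist y (g • p) ≤ ε := by
    intro y
    by_contra hy
    push Not at hy
    have y0 : y ∉ N := fun e => by
      have := hy 1 y e
      rw [one_smul, dist_self] at this
      linarith
    have := le_csSup hbd ⟨insert y N, fun p hp p' hp' g e => ?_, rfl⟩
    · rw [← hcard, card_insert_of_notMem y0] at this
      omega
    · rcases mem_insert.1 hp with e1 | e1 <;> rcases mem_insert.1 hp' with e2 | e2
      · rw [e1, e2]
      · have h1 := hy g⁻¹ p' e2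
        rw [← h.iso g, smul_inv_smul, ← e1] at h1
        linarith
      · have h1 := hy g p e1
        rw [dist_comm, ← e2] at h1
        linarith
      · exact hN p e1 p' e2 g e
  choose a b hb hab using hmax
  obtain ⟨rep, t, h1, h2⟩ := exists_rep G Y
  have ht : ∀ (g : G) y, t (g • y) = g * t y := fun g y => by
    have e : ((g * t y)⁻¹ * t (g • y)) • rep y = rep y := by
      rw [mul_smul, inv_smul_eq_iff, mul_smul, h1, ← h2 g y, h1]
    exact (inv_mul_eq_one.1 (free _ (rep y) (by rw [e, dist_self]; exact ε0.le))).symm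
  have hin : ∀ y, ∃ g : G, g • t y • a (rep y) • b (rep y) ∈ N := fun y =>
    ⟨(t y * a (rep y))⁻¹, by rw [← mul_smul (t y), inv_smul_smul]; exact hb _⟩
  refine ⟨N, fun y => t y • a (rep y) • b (rep y), fun g y => by simp only [ht, h2, mul_smul],
    fun y => ?_, hin, hp1 N hN, fun y => ?_⟩
  · have e := hab (rep y)
    rwa [← h.iso (t y), h1] at e
  · have key : ∀ T : Finset Y, ↑T ⊆ {z : Y | (∃ g : G, g • z ∈ N) ∧ dist z y ≤ 3 * ε} →
        (T.card : ℝ) ≤ A * 8 ^ n := fun T hT => hp2 y T fun z hz => ⟨(hT hz).2, fun z' hz' e => by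
      obtain ⟨g, hg⟩ := (hT hz).1
      obtain ⟨g', hg'⟩ := (hT hz').1
      have e1 : dist ((g' * g⁻¹) • g • z) (g' • z') ≤ ε := by
        rwa [mul_smul, inv_smul_smul, h.iso]
      have e2 := hN _ hg _ hg' _ e1
      rw [← e2] at e1
      rw [mul_inv_eq_one.1 (free _ _ e1)] at e2
      exact MulAction.injective g e2⟩
    have fin : {z : Y | (∃ g : G, g • z ∈ N) ∧ dist z y ≤ 3 * ε}.Finite := by
      by_contra hi
      obtain ⟨k, hk⟩ := exists_nat_gt (A * 8 ^ n)
      obtain ⟨T, hT, e⟩ := Set.Infinite.exists_subset_card_eq hi k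
      have := key T hT
      rw [e] at this
      linarith
    exact ⟨fin.toFinset, key _ (by simp), fun y' e => fin.mem_toFinset.2 ⟨hin y', e⟩⟩

end Pool.Agent.P.MP_f30597_gt.SV
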