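import Pool.Agent.P.MP_f30597_gt.SV.Iface
import Pool.Agent.P.MP_f30597_gt.OP

/-! Step OPX. -/

namespace Pool.Agent.P.MP_f30597_gt.SV

open Finset Filter Topology MeasureTheory SI

theorem opx_mu {α : Type} (a : α → ℂ) (m : ℕ) (h : ∀ p, ‖a p‖ ≤ m) :
    ∃ U : L2 α →L[ℂ] L2 α, ‖U‖ ≤ m ∧ ∀ ξ p, U ξ p = a p * ξ p := by
  have k : ∀ (ξ : L2 α) p, ‖a p * ξ p‖ ≤ ‖((m : ℂ) • ξ) p‖ := fun ξ p => by
    rw [lp.coeFn_smul, Pi.smul_apply, norm_smul, norm_mul, Complex.norm_natCast]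
    gcongr
    exact h p
  let u : L2 α →ₗ[ℂ] L2 α :=
    { toFun := fun ξ => ⟨fun p => a p * ξ p, (lp.memℓp ((m : ℂ) • ξ)).mono' (k ξ)⟩
      map_add' := fun _ _ => lp.ext (funext fun _ => mul_add _ _ _)
      map_smul' := fun c ξ => lp.ext (funext fun p => mul_left_comm (a p) c (ξ p)) }
  have hu : ∀ ξ, ‖u ξ‖ ≤ m * ‖ξ‖ := fun ξ => by
    refine (lp.norm_mono (by norm_num) (y := (m : ℂ) • ξ) (k ξ)).trans ?_
    rw [norm_smul, Complex.norm_natCast]
  exact ⟨u.mkContinuous m hu, u.mkContinuous_norm_le (Nat.cast_nonneg m) hu, fun _ _ => rfl⟩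

theorem opx_res {α β : Type} (j : β ↪ α) : ‖res j‖ ≤ 1 :=
  LinearMap.mkContinuous_norm_le _ zero_le_one _

theorem p_OPX :
    S_OPX := by
  classical
  intro G X κ κ' _ _ _ _ _ A hm hA
  obtain ⟨F, M, hb⟩ := exists_bdd (fun p : κ × X => A p.1 p.2)
    ((Set.finite_iUnion fun k => (hA k).1).subset (by
      rintro _ ⟨p, rfl⟩
      exact Set.mem_iUnion.2 ⟨p.1, p.2, rfl⟩))
  choose U hU hU' using fun (x : X) (k : κ) (k' : κ') (s : G) =>
    opx_mu (fun h : G => (((A k (h⁻¹ • x) k').coeff s : ℤ) : ℂ)) M fun h => by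
      rw [Complex.norm_intCast]
      exact_mod_cast (hb (k, h⁻¹ • x) k').2 s
  let T : X → L2 (G × κ) →L[ℂ] L2 (G × κ') := fun x => ∑ k, ∑ k', ∑ s ∈ F,
    ContinuousLinearMap.adjoint (res (emb s k')) ∘L U x k k' s ∘L res (emb 1 k)
  have hR : Rep A T := fun x h k h' k' => by
    have key : ∀ (a : κ) (b : κ') (s : G), op_at (dl (h, k)) (h', k')
        (ContinuousLinearMap.adjoint (res (emb s b)) ∘L U x a b s ∘L res (emb 1 a)) =
        if b = k' then if a = k then if s = h⁻¹ * h' then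
          (((A k (h⁻¹ • x) k').coeff (h⁻¹ * h') : ℤ) : ℂ) else 0 else 0 else 0 := by
      intro a b s
      change ContinuousLinearMap.adjoint (res (emb s b))
        (U x a b s (res (emb 1 a) (dl (h, k)))) (h', k') = _
      have e : res (emb 1 a) (dl (h, k)) (h' * s⁻¹) =
          if h' * s⁻¹ = h ∧ a = k then 1 else 0 := by
        change dl (h, k) (h' * s⁻¹ * 1, a) = _
        simp [dl, lp.single_apply, Pi.single_apply]
      rw [op_adj_res, hU', e]
      by_cases h1 : b = k'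
      · subst h1
        by_cases h2 : a = k
        · subst h2
          by_cases h3 : s = h⁻¹ * h'
          · subst h3
            simp
          · have : h' * s⁻¹ ≠ h := fun e => h3 (by rw [← e]; simp)
            simp [h3, this]
        · simp [h2]
      · simp [h1, Ne.symm h1]
    change op_at (dl (h, k)) (h', k') (T x) = _
    simp only [T, map_sum, key, sum_ite_irrel, sum_const_zero, sum_ite_eq', mem_univ, if_true]
    split_ifs with h0
    · rfl
    · rw [Finsupp.notMem_support_iff.1 fun e => h0 ((hb (k, h⁻¹ • x) k').1 e), Int.cast_zero]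
  refine ⟨T, ⟨fun g x h k h' k' => ?_, ⟨F, fun x h k h' k' e => ?_⟩, fun p p' => ?_,
    ⟨∑ _k : κ, ∑ _k' : κ', ∑ _s ∈ F, (M : ℝ), fun x => ?_⟩⟩, hR⟩
  · rw [hR, hR]
    simp [smul_smul, mul_assoc]
  · rw [hR] at e
    exact (hb (k, h⁻¹ • x) k').1 (Finsupp.mem_support_iff.2 (Int.cast_ne_zero.1 e))
  · obtain ⟨h, k⟩ := p
    obtain ⟨h', k'⟩ := p'
    simp only [hR _ h k h' k']
    refine Measurable.comp (g := fun y => (((A k y k').coeff (h⁻¹ * h') : ℤ) : ℂ)) ?_ (hm h⁻¹)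
    exact (SimpleFunc.map (fun r : κ' → ZG G => (((r k').coeff (h⁻¹ * h') : ℤ) : ℂ))
      ⟨A k, (hA k).2, (hA k).1⟩).measurable
  · refine norm_sum_le_of_le _ fun k _ => norm_sum_le_of_le _ fun k' _ =>
      norm_sum_le_of_le _ fun s _ => ?_
    refine (ContinuousLinearMap.opNorm_comp_le _ _).trans ?_
    rw [LinearIsometryEquiv.norm_map]
    refine (mul_le_of_le_one_left (norm_nonneg _) (opx_res _)).trans ?_
    refine (ContinuousLinearMap.opNorm_comp_le _ _).trans ?_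
    exact (mul_le_of_le_one_right (norm_nonneg _) (opx_res _)).trans (hU x k k' s)

end Pool.Agent.P.MP_f30597_gt.SV
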