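import Pool.Agent.P.MP_f30597_gt.SV.Iface

/-! Step PACK. -/

namespace Pool.Agent.P.MP_f30597_gt.SV

open Finset Filter Topology MeasureTheory SI

theorem pack_sum {Y : Type} [MetricSpace Y] [MeasurableSpace Y] [BorelSpace Y] (μ : Measure Y)
    (N : Finset Y) (ε c : ℝ) (hc : 0 ≤ c) (hs : ∀ p ∈ N, ∀ p' ∈ N, dist p p' ≤ ε → p = p')
    (hm : ∀ p, ENNReal.ofReal c ≤ μ (Metric.ball p (ε / 2))) :
    ENNReal.ofReal (N.card * c) ≤ μ (⋃ p ∈ N, Metric.ball p (ε / 2)) := by
  rw [measure_biUnion_finset (fun p hp p' hp' hne => ?_) fun _ _ => Metric.isOpen_ball.measurableSet]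
  · rw [ENNReal.ofReal_mul (Nat.cast_nonneg _), ENNReal.ofReal_natCast, ← nsmul_eq_mul,
      ← Finset.sum_const]
    exact Finset.sum_le_sum fun p _ => hm p
  · refine Metric.ball_disjoint_ball ?_
    by_contra hlt
    exact hne (hs p hp p' hp' (by linarith [not_le.1 hlt]))

theorem p_PACK :
    S_PACK := by
  intro G Y _ _ _ _ _ _ _ n A V μ L Φ h
  obtain ⟨r, hr, hdis, hreg⟩ := h.reg
  obtain ⟨D, hD, hV⟩ := h.vol
  haveI : SMulInvariantMeasure G Y μ := ⟨fun g s hs => h.inv g s hs⟩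
  haveI : MeasurableConstSMul G Y :=
    ⟨fun g => (Isometry.of_dist_eq (h.iso g)).continuous.measurable⟩
  obtain ⟨y₀⟩ := ‹Nonempty Y›
  have hA : 1 ≤ A := by
    have h1 := (hreg y₀ r hr le_rfl).1.trans (hreg y₀ r hr le_rfl).2
    have hp : 0 < r ^ n := pow_pos hr n
    rcases ENNReal.ofReal_le_ofReal_iff'.1 h1 with h2 | h2
    · nlinarith
    · linarith
  have hL : (0 : ℝ) < L := h.pos
  have key : ∀ ε : ℝ, 0 < ε → ε ≤ r / 4 → ∀ N : Finset Y,
      (∀ p ∈ N, ∀ p' ∈ N, ∀ g : G, dist (g • p) p' ≤ ε → p = p') →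
      ENNReal.ofReal ((N.card : ℝ) * (L * ε / 2) ^ n) ≤ ENNReal.ofReal V := by
    intro ε hε hεr N hN
    have h1 := pack_sum μ N ε ((ε / 2) ^ n) (by positivity)
      (fun p hp p' hp' hd => hN p hp p' hp' 1 (by rwa [one_smul]))
      fun p => (hreg p (ε / 2) (by positivity) (by linarith)).1
    have h2 : μ (⋃ p ∈ N, Metric.ball p (ε / 2)) ≤ μ D := by
      by_contra hlt
      obtain ⟨x, hx, y, hy, g, hg, hxy⟩ := hD.exists_ne_one_smul_eq
        (isOpen_biUnion fun _ _ => Metric.isOpen_ball).measurableSet.nullMeasurableSet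
        (not_le.1 hlt)
      simp only [Set.mem_iUnion, Metric.mem_ball] at hx hy
      obtain ⟨p, hp, hx⟩ := hx
      obtain ⟨p', hp', hy⟩ := hy
      have h3 : dist (g • p) p' ≤ ε := by
        have h4 := dist_triangle (g • p) (g • x) p'
        rw [h.iso, hxy, dist_comm p x] at h4
        linarith
      have h5 := hN p hp p' hp' g h3
      subst h5
      linarith [hdis g hg p]
    refine le_trans ?_ hV
    have e : (N.card : ℝ) * (L * ε / 2) ^ n = (L : ℝ) ^ n * (N.card * (ε / 2) ^ n) := by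
      rw [mul_div_assoc, mul_pow]; ring
    rw [e, ENNReal.ofReal_mul (by positivity), ENNReal.ofReal_pow hL.le, ENNReal.ofReal_coe_nnreal]
    gcongr
    exact h1.trans h2
  have hV0 : 0 < V := by
    have h1 := key (r / 4) (by positivity) le_rfl {y₀} (by simp)
    have hp : 0 < ((({y₀} : Finset Y).card : ℝ)) * (L * (r / 4) / 2) ^ n := by
      rw [card_singleton]; positivity
    rcases ENNReal.ofReal_le_ofReal_iff'.1 h1 with h2 | h2 <;> linarith
  refine ⟨hA, hV0.le, r / 4, by positivity, fun g hg y => by linarith [hdis g hg y],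
    fun ε hε hεr => ⟨fun N hN => (ENNReal.ofReal_le_ofReal_iff hV0.le).1 (key ε hε hεr N hN),
      fun y T hT => ?_⟩⟩
  have h1 := pack_sum μ T ε ((ε / 2) ^ n) (by positivity) (fun p hp => (hT p hp).2)
    fun p => (hreg p (ε / 2) (by positivity) (by linarith)).1
  have h2 : μ (⋃ p ∈ T, Metric.ball p (ε / 2)) ≤ μ (Metric.ball y (4 * ε)) := by
    refine measure_mono (Set.iUnion₂_subset fun p hp => Metric.ball_subset_ball' ?_)
    linarith [(hT p hp).1]
  have h3 := (h1.trans h2).trans (hreg y (4 * ε) (by positivity) (by linarith)).2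
  rw [ENNReal.ofReal_le_ofReal_iff (by positivity)] at h3
  have e : (4 * ε) ^ n = 8 ^ n * (ε / 2) ^ n := by rw [← mul_pow]; congr 1; ring
  rw [e, ← mul_assoc] at h3
  exact le_of_mul_le_mul_right h3 (by positivity)

end Pool.Agent.P.MP_f30597_gt.SV
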