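import Pool.Agent.P.MP_f30597_gt.SV.Iface

/-! Step PRE. -/

namespace Pool.Agent.P.MP_f30597_gt.SV

open Finset Filter Topology MeasureTheory SI

theorem pre_ofFn {Y : Type} (n : ℕ) (l : List Y) (h : l.length = n) :
    ∃ t : Fin n → Y, l = List.ofFn t := by
  subst h
  exact ⟨l.get, (List.ofFn_get l).symm⟩

theorem pre_card {Y Z : Type} [DecidableEq Z] (n : ℕ) (B : ℝ) (N : Finset Y) (T : Y → Finset Y)
    (f : Y → (Fin n → Y) → Z) (hT : ∀ y, ((T y).card : ℝ) ≤ B) :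
    ((N.biUnion fun p => (Fintype.piFinset fun _ : Fin n => T p).image (f p)).card : ℝ) ≤
      N.card * B ^ n := by
  have h1 : (N.biUnion fun p => (Fintype.piFinset fun _ : Fin n => T p).image (f p)).card ≤
      ∑ p ∈ N, (T p).card ^ n := by
    refine card_biUnion_le.trans (sum_le_sum fun p _ => card_image_le.trans (le_of_eq ?_))
    rw [Fintype.card_piFinset]
    simp
  have h2 : ((∑ p ∈ N, (T p).card ^ n : ℕ) : ℝ) ≤ ∑ _p ∈ N, B ^ n := by
    push_cast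
    exact sum_le_sum fun p _ => pow_le_pow_left₀ (Nat.cast_nonneg _) (hT p) n
  rw [sum_const, nsmul_eq_mul] at h2
  exact le_trans (by exact_mod_cast h1) h2

theorem p_PRE (hMESH : S_MESH) (hNET : S_NET) (hDISC : S_DISC) (hGOOD : S_GOOD) :
    S_PRE := by
  classical
  intro n A
  refine ⟨(28 * ((n : ℝ) + 1) ^ 2 * (|A| * 8 ^ n)) ^ n, by positivity, ?_⟩
  intro G ι Y _ _ _ _ _ _ _ _ _ deg c w V μ L Φ hres hM
  obtain ⟨hA, hV, r0, hr0, hnet⟩ := hNET G Y n A V μ L Φ hM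
  have hL : (0 : ℝ) < L := hM.pos
  have hn : (0 : ℝ) ≤ n := Nat.cast_nonneg n
  obtain ⟨ε, hε, hε1, hε2⟩ : ∃ ε : ℝ, 0 < ε ∧ ε ≤ r0 ∧ (n + 2) * (7 * (L * ε)) ≤ 1 / 2 := by
    refine ⟨min r0 (1 / (14 * (n + 2) * L)), lt_min hr0 (by positivity), min_le_left _ _, ?_⟩
    calc ((n : ℝ) + 2) * (7 * (L * min r0 (1 / (14 * (n + 2) * L))))
        ≤ (n + 2) * (7 * (L * (1 / (14 * (n + 2) * L)))) := by
          gcongr
          exact min_le_right _ _
      _ = 1 / 2 := by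
          field_simp
          norm_num
  have hη : 0 < (L : ℝ) * ε := mul_pos hL hε
  have hη1 : (L : ℝ) * ε < 1 := by nlinarith
  obtain ⟨N, r, hr1, hr2, hr3, hr4, hr5⟩ := hnet ε hε hε1
  choose T hT1 hT2 using hr5
  obtain ⟨m, S, hm, hS1, hS2⟩ := hDISC G Y L Φ hM.unit hM.eqv hM.lip N (L * ε) hη
  obtain ⟨φ, hφ1, hφ2⟩ := hMESH G ι Y deg c w hres hM.iso ε hε
  have hm' : (0 : ℝ) < m := by exact_mod_cast hm
  have hd : ∀ (g : G) (y y' : Y), dist y y' ≤ ε → dist (r (g • y)) (r (g • y')) ≤ 3 * ε := by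
    intro g y y' h
    have h1 := dist_triangle4 (r (g • y)) (g • y) (g • y') (r (g • y'))
    have h2 := hr2 (g • y)
    have h3 := hr2 (g • y')
    rw [hM.iso] at h1
    rw [dist_comm] at h2
    linarith
  refine ⟨(N.biUnion fun p => (Fintype.piFinset fun _ : Fin n => T p).image
      fun t => (p :: List.ofFn t).map S).filter
      fun l => l.length = n + 1 ∧ Good (2 * ((n : ℝ) + 1) ^ 2 * (7 * (L * ε))) l,
    2 * ((n : ℝ) + 1) ^ 2 * (7 * (L * ε)), by positivity,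
    ⟨Y, inferInstance, fun y => S (r y), φ, fun y => ?_, fun g y => ?_, hφ1, ?_⟩,
    fun l hl => (mem_filter.1 hl).2, ?_⟩
  · have h1 := (hS2 (r y) (hr3 y)).1
    have h2 : (0 : ℝ) < (S (r y)).card := lt_of_lt_of_le (mul_pos hm' (by linarith)) h1
    exact card_pos.1 (by exact_mod_cast h2)
  · change S (r (g • y)) = sf g (S (r y))
    rw [hr1, hS1]
  · intro a ha l hl
    have hlen : l.length = n + 1 := by rw [(hφ1 a).1 l hl, ha]
    obtain ⟨x, l', rfl⟩ := List.exists_cons_of_length_eq_add_one hlen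
    obtain ⟨t, rfl⟩ := pre_ofFn n l' (by simpa using hlen)
    obtain ⟨g, hg⟩ := hr3 x
    refine ⟨g, mem_filter.2 ⟨mem_biUnion.2 ⟨r (g • x), by rwa [hr1], mem_image.2
      ⟨fun i => r (g • t i), Fintype.mem_piFinset.2 fun i => hT2 _ _ (hd g _ _ ?_), ?_⟩⟩,
      by simp, ?_⟩⟩
    · exact hφ2 a _ hl _ (List.mem_cons_of_mem _ (List.mem_ofFn.2 ⟨i, rfl⟩)) _ List.mem_cons_self
    · simp only [List.map_cons, List.map_ofFn]
      rfl
    · refine hGOOD G n m (7 * (L * ε)) _ hm' (by positivity) hε2 (by simp) ?_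
      intro S0 hS0
      obtain ⟨y, hy, rfl⟩ := List.mem_map.1 hS0
      obtain ⟨h1, h2⟩ := hS2 (r (g • y)) (hr3 _)
      refine ⟨le_trans (mul_le_mul_of_nonneg_left (by linarith) hm'.le) h1, fun S1 hS1' => ?_⟩
      obtain ⟨y', hy', rfl⟩ := List.mem_map.1 hS1'
      refine (h2 _).trans (mul_le_mul_of_nonneg_left ?_ hm'.le)
      have h3 := hd g y y' (hφ2 a _ hl y hy y' hy')
      nlinarith
  · have h1 := pre_card n (A * 8 ^ n) N T (fun p t => (p :: List.ofFn t).map S) hT1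
    rw [abs_of_nonneg (by linarith : 0 ≤ A)]
    have hA0 : 0 ≤ A := by linarith
    calc _ ≤ (N.card * (A * 8 ^ n) ^ n) * (2 * ((n : ℝ) + 1) ^ 2 * (7 * (L * ε))) ^ n := by
          refine mul_le_mul_of_nonneg_right (le_trans ?_ h1) (by positivity)
          exact_mod_cast card_filter_le _ _
      _ = (28 * ((n : ℝ) + 1) ^ 2 * (A * 8 ^ n)) ^ n * (N.card * (L * ε / 2) ^ n) := by
          have : (A * 8 ^ n) * (2 * ((n : ℝ) + 1) ^ 2 * (7 * (L * ε))) =
              (28 * ((n : ℝ) + 1) ^ 2 * (A * 8 ^ n)) * (L * ε / 2) := by ring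
          rw [mul_assoc, ← mul_pow, this, mul_pow, mul_left_comm]
      _ ≤ _ := mul_le_mul_of_nonneg_left hr4 (by positivity)

end Pool.Agent.P.MP_f30597_gt.SV
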