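import Pool.Agent.P.MP_f30597_gt.SV.Iface

/-! Step PROB. -/

namespace Pool.Agent.P.MP_f30597_gt.SV

open Finset Filter Topology MeasureTheory SI

open Classical in
theorem prob_comb {G : Type} (b : Finset G → G) {n : ℕ} {l : List (Finset (Zs G))}
    (hl : l.length = n + 1) (hI : (it l).Nonempty) {x : Zs G → ℝ} (hx : Set.InjOn x (un l))
    (h : (l.map fun S => lab b S x).Nodup) :
    ∃ W ∈ (un l \ it l).powersetCard n, ∀ z ∈ W, ∀ y ∈ it l, x z < x y := by
  obtain ⟨y0, h0⟩ := hI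
  have : ∀ S, ∃ z, S ∈ l → z ∈ mins S x := fun S => by
    by_cases hS : S ∈ l
    · exact (mins_ne ⟨y0, (mem_it.1 h0).2 S hS⟩ x).imp fun _ h _ => h
    · exact ⟨y0, fun h => absurd h hS⟩
  choose z hz using this
  simp only [mem_mins] at hz
  have hU : ∀ S ∈ l, ∀ y ∈ S, y ∈ un l := fun S hS y hy => mem_un.2 ⟨S, hS, hy⟩
  have e : (l.map fun S => lab b S x) = (l.map z).map fun y => b {y.1} := by
    rw [List.map_map]
    refine List.map_congr_left fun S hS => ?_
    have : mins S x = {z S} := eq_singleton_iff_unique_mem.2 ⟨mem_mins.2 (hz S hS), fun y hy =>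
      hx (hU S hS _ (mem_mins.1 hy).1) (hU S hS _ (hz S hS).1)
        (le_antisymm ((mem_mins.1 hy).2 _ (hz S hS).1) ((hz S hS).2 _ (mem_mins.1 hy).1))⟩
    simp [lab, this]
  rw [e] at h
  have c1 := List.toFinset_card_of_nodup (List.Nodup.of_map _ h)
  have m : ∀ w ∈ (l.map z).toFinset, w ∈ un l ∧ ∀ y ∈ it l, x w ≤ x y := fun w hw => by
    obtain ⟨S, hS, rfl⟩ := List.mem_map.1 (List.mem_toFinset.1 hw)
    exact ⟨hU S hS _ (hz S hS).1, fun y hy => (hz S hS).2 y ((mem_it.1 hy).2 S hS)⟩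
  have c2 : ((l.map z).toFinset ∩ it l).card ≤ 1 := card_le_one.2 fun w hw w' hw' => by
    rw [mem_inter] at hw hw'
    exact hx (m w hw.1).1 (m w' hw'.1).1 (le_antisymm ((m w hw.1).2 _ hw'.2) ((m w' hw'.1).2 _ hw.2))
  have c3 := card_sdiff_add_card_inter (l.map z).toFinset (it l)
  rw [List.length_map] at c1
  obtain ⟨W, hW, c4⟩ := exists_subset_card_eq (s := (l.map z).toFinset \ it l) (n := n) (by omega)
  refine ⟨W, mem_powersetCard.2 ⟨fun w hw => ?_, c4⟩, fun w hw y hy => ?_⟩ <;>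
    have a := mem_sdiff.1 (hW hw)
  · exact mem_sdiff.2 ⟨(m w a.1).1, a.2⟩
  · exact ((m w a.1).2 y hy).lt_of_ne fun e => a.2 (hx (m w a.1).1 (mem_it.1 hy).1 e ▸ hy)

theorem prob_num {a i n : ℕ} {q : ℝ} (hi : 0 < i) (h : (a : ℝ) ≤ q * i) :
    (a.choose n : ℝ) * (1 / ((n + i).choose n : ℝ)) ≤ q ^ n := by
  have i0 : (0 : ℝ) < i := by exact_mod_cast hi
  have h1 := Nat.descFactorial_le_pow a n
  have h2 : i ^ n ≤ (n + i).descFactorial n :=
    (Nat.pow_le_pow_left (by omega) n).trans (Nat.pow_sub_le_descFactorial (n + i) n)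
  rw [Nat.descFactorial_eq_factorial_mul_choose] at h1 h2
  have q0 : 0 ≤ q := nonneg_of_mul_nonneg_left (le_trans (Nat.cast_nonneg a) h) i0
  rw [mul_one_div, div_le_iff₀ (by exact_mod_cast Nat.choose_pos (by omega))]
  refine le_of_mul_le_mul_left ?_ (show (0 : ℝ) < n.factorial by exact_mod_cast n.factorial_pos)
  calc _ ≤ (a : ℝ) ^ n := by exact_mod_cast h1
    _ ≤ q ^ n * (i : ℝ) ^ n := by rw [← mul_pow]; gcongr
    _ ≤ q ^ n * (n.factorial * ((n + i).choose n : ℝ)) := by gcongr; exact_mod_cast h2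
    _ = _ := by ring

theorem p_PROB (hTIE : S_TIE) (hHASH : S_HASH) :
    S_PROB := by
  classical
  intro G Z _ b e n q l hl hG he
  refine ⟨(⋃ p ∈ (un l).offDiag, {ω | ω (e p.1) = ω (e p.2)}) ∪
    ⋃ W ∈ (un l \ it l).powersetCard n, {ω | ∀ a ∈ W.image e, ∀ c ∈ (it l).image e, ω a < ω c},
    ?_, ?_, fun ω h => ?_⟩
  · refine (measurableSet_biUnion _ fun p _ => measurableSet_eq_fun (by fun_prop) (by fun_prop)).union
      (measurableSet_biUnion _ fun W _ => ?_)
    simp only [Set.ofPred_forall]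
    exact measurableSet_biInter _ fun a _ => measurableSet_biInter _ fun c _ =>
      measurableSet_lt (by fun_prop) (by fun_prop)
  · have iu : it l ⊆ un l := fun z hz => (mem_it.1 hz).1
    refine (measureReal_union_le _ _).trans ((add_le_add (measureReal_biUnion_finset_le _ _)
      (measureReal_biUnion_finset_le _ _)).trans ?_)
    rw [sum_eq_zero fun p hp => ?_, zero_add]
    swap
    · obtain ⟨a1, a2, a3⟩ := mem_offDiag.1 hp
      rw [Measure.real, hTIE Z _ _ fun h => a3 (he a1 a2 h), ENNReal.toReal_zero]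
    refine (sum_le_card_nsmul _ _ (1 / ((n + (it l).card).choose n : ℝ)) fun W hW => ?_).trans ?_
    · obtain ⟨a1, a2⟩ := mem_powersetCard.1 hW
      have a3 : W ⊆ un l := a1.trans sdiff_subset
      have := hHASH Z (W.image e) ((it l).image e) (disjoint_left.2 fun y h1 h2 => by
        obtain ⟨u, hu, rfl⟩ := mem_image.1 h1
        obtain ⟨v, hv, e'⟩ := mem_image.1 h2
        exact (mem_sdiff.1 (a1 hu)).2 (he (iu hv) (a3 hu) e' ▸ hv))
      rwa [card_image_of_injOn (he.mono a3), card_image_of_injOn (he.mono iu), a2] at this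
    · rw [card_powersetCard, nsmul_eq_mul]
      exact prob_num hG.1.card_pos (by convert hG.2)
  · by_cases hx : Set.InjOn (fun z => ω (e z)) (un l)
    · obtain ⟨W, hW, h1⟩ := prob_comb b hl hG.1 hx h
      refine .inr (Set.mem_iUnion₂.2 ⟨W, by convert hW, fun a ha c hc => ?_⟩)
      obtain ⟨u, hu, rfl⟩ := mem_image.1 ha
      obtain ⟨v, hv, rfl⟩ := mem_image.1 hc
      exact h1 u hu v hv
    · simp only [Set.InjOn, not_forall] at hx
      obtain ⟨u, hu, v, hv, h1, h2⟩ := hx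
      exact .inl (Set.mem_iUnion₂.2 ⟨(u, v), mem_offDiag.2 ⟨hu, hv, h2⟩, h1⟩)

end Pool.Agent.P.MP_f30597_gt.SV
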