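import Pool.Agent.P.MP_f30597_gt.SV.Iface
import Pool.Agent.P.MP_f30597_gt.OP

/-! Step RANK. -/

namespace Pool.Agent.P.MP_f30597_gt.SV

open Finset Filter Topology MeasureTheory SI

theorem rank_st {H : Type} [NormedAddCommGroup H] [NormedSpace ℂ H] {U : ℕ → H →L[ℂ] H}
    {U' : H →L[ℂ] H} (hb : ∀ m, ‖U m‖ ≤ 1) (h : ∀ v, Tendsto (fun m => U m v) atTop (𝓝 (U' v)))
    {u : ℕ → H} {v : H} (hu : Tendsto u atTop (𝓝 v)) :
    Tendsto (fun m => U m (u m)) atTop (𝓝 (U' v)) := by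
  have h1 : Tendsto (fun m => U m (u m - v)) atTop (𝓝 0) :=
    squeeze_zero_norm (fun m => ((U m).le_opNorm _).trans
      (mul_le_of_le_one_left (norm_nonneg _) (hb m))) (tendsto_iff_norm_sub_tendsto_zero.1 hu)
  simpa using h1.add (h v)

theorem rank_pw {H : Type} [NormedAddCommGroup H] [NormedSpace ℂ H] {U : ℕ → H →L[ℂ] H}
    {U' : H →L[ℂ] H} (hb : ∀ m, ‖U m‖ ≤ 1) (h : ∀ v, Tendsto (fun m => U m v) atTop (𝓝 (U' v)))
    (j : ℕ) (v : H) : Tendsto (fun m => (U m ^ j) v) atTop (𝓝 ((U' ^ j) v)) := by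
  induction j with
  | zero => simp
  | succ j ih => simpa only [pow_succ', mul_apply_eq_comp] using rank_st hb h ih

theorem rank_nm {H : Type} [NormedAddCommGroup H] [NormedSpace ℂ H] {U : H →L[ℂ] H}
    (hb : ‖U‖ ≤ 1) (j : ℕ) (v : H) : ‖(U ^ j) v‖ ≤ ‖v‖ := by
  induction j with
  | zero => simp
  | succ j ih =>
    rw [pow_succ', mul_apply_eq_comp]
    exact (U.le_opNorm _).trans ((mul_le_of_le_one_left (norm_nonneg _) hb).trans ih)

theorem rank_in {α : Type} (p : α) (v : L2 α) : inner ℂ (dl p) v = v p := by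
  classical
  unfold dl
  rw [lp.inner_single_left]
  simp

theorem rank_dl {α : Type} (p : α) : ‖dl p‖ = 1 := by
  classical
  unfold dl
  rw [lp.norm_single (by norm_num), norm_one]

theorem rank_dg {G ι : Type} [Group G] [Fintype ι] (U : L2 (G × ι) →L[ℂ] L2 (G × ι)) :
    dg (1 - U) = ∑ a, (inner ℂ (dl (1, a)) (dl (1, a) - U (dl (1, a)))).re :=
  sum_congr rfl fun a _ => by rw [rank_in]; rfl

theorem rank_bd {G ι : Type} [Group G] [Fintype ι] {U : L2 (G × ι) →L[ℂ] L2 (G × ι)}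
    (h : ‖U‖ ≤ 1) (j : ℕ) : |dg (1 - U ^ j)| ≤ ∑ _a : ι, (2 : ℝ) := by
  rw [rank_dg]
  refine (abs_sum_le_sum_abs _ _).trans (sum_le_sum fun a _ => (Complex.abs_re_le_norm _).trans
    ((norm_inner_le_norm _ _).trans ?_))
  have h1 := rank_nm h j (dl (1, a))
  have h2 := norm_sub_le (dl ((1 : G), a)) ((U ^ j) (dl (1, a)))
  rw [rank_dl] at h1 h2 ⊢
  linarith

theorem rank_cv {G ι : Type} [Group G] [Fintype ι] {U : ℕ → L2 (G × ι) →L[ℂ] L2 (G × ι)}
    {U' : L2 (G × ι) →L[ℂ] L2 (G × ι)} (hb : ∀ m, ‖U m‖ ≤ 1)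
    (h : ∀ v, Tendsto (fun m => U m v) atTop (𝓝 (U' v))) (j : ℕ) :
    Tendsto (fun m => dg (1 - U m ^ j)) atTop (𝓝 (dg (1 - U' ^ j))) := by
  simp only [rank_dg]
  exact tendsto_finsetSum _ fun a _ => (Complex.continuous_re.tendsto _).comp
    (tendsto_const_nhds.inner (tendsto_const_nhds.sub (rank_pw hb h j _)))

theorem rank_c2 {H K : Type} [NormedAddCommGroup H] [InnerProductSpace ℂ H] [CompleteSpace H]
    [NormedAddCommGroup K] [InnerProductSpace ℂ K] [CompleteSpace K] {S : ℕ → H →L[ℂ] H}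
    {Q : H →L[ℂ] H} (hb : ∀ m, ‖S m‖ ≤ 1) (h : ∀ v, Tendsto (fun m => S m v) atTop (𝓝 (Q v)))
    (h1 : ∀ m, IsSelfAdjoint (S m)) (h2 : IsSelfAdjoint Q) (T : K →L[ℂ] H) (s : ℂ) (v : H) :
    Tendsto (fun m => ((1 : H →L[ℂ] H) - s • ((S m ∘L T) ∘L
      ContinuousLinearMap.adjoint (S m ∘L T))) v) atTop
      (𝓝 (((1 : H →L[ℂ] H) - s • ((Q ∘L T) ∘L ContinuousLinearMap.adjoint (Q ∘L T))) v)) := by
  simp only [ContinuousLinearMap.adjoint_comp, (h1 _).adjoint_eq, h2.adjoint_eq]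
  exact tendsto_const_nhds.sub ((rank_st hb h
    (((T ∘L ContinuousLinearMap.adjoint T).continuous.tendsto _).comp (h v))).const_smul s)

theorem rank_ker (hKER : S_KER) {G X ι κ : Type} [Group G] [MulAction G X] [MeasurableSpace X]
    [Fintype ι] [Fintype κ] {T : X → L2 (G × κ) →L[ℂ] L2 (G × ι)} (h : Ker T) (s : ℂ) (j : ℕ) :
    Ker fun x => 1 - (1 - s • (T x ∘L ContinuousLinearMap.adjoint (T x))) ^ j := by
  obtain ⟨-, k1, k2⟩ := hKER G X ι ι ι
  have sub : ∀ U : X → L2 (G × ι) →L[ℂ] L2 (G × ι), Ker U → Ker fun x => 1 - U x := fun U hU => by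
    simpa only [neg_one_smul, ← sub_eq_add_neg] using (k2 _ k1).1 _ ((k2 _ hU).2.1 (-1))
  have a := sub _ ((k2 _ (((hKER G X ι κ ι).2.2 _
    ((hKER G X κ ι ι).2.2 T h).2.2.1).2.2.2 T h)).2.1 s)
  refine sub _ ?_
  induction j with
  | zero => simpa only [pow_zero] using k1
  | succ j ih => simpa only [pow_succ, ContinuousLinearMap.mul_def] using (k2 _ a).2.2.2 _ ih

theorem p_RANK (hOPX : S_OPX) (hREP : S_REP) (hKER : S_KER) (hLOW : S_LOW) (hERG : S_ERG) (hUP : S_UP) :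
    S_RANK := by
  intro G X ι κ _ _ _ _ _ _ ν _ hP c φ ψ t Act w μ K hφ hψ ht hA h0 he hw hμ
  have hm : ∀ g : G, Measurable fun x : X => g • x := fun g => (hP g).measurable
  obtain ⟨Tf, kf, rf⟩ := hOPX G X ι κ φ hm hφ
  obtain ⟨Tp, kp, rp⟩ := hOPX G X κ ι ψ hm hψ
  obtain ⟨Tt, -, rt⟩ := hOPX G X ι ι t hm ht
  obtain ⟨ex, rc, rm⟩ := hREP G X ι ι ι
  have key : ∀ x, Tp x ∘L Tf x = 1 + (op c ∘L Tt x + Tt x ∘L op c) := fun x =>
    ex _ _ fun p p' => by
      have r1 := (hREP G X ι κ ι).2.2 φ ψ Tf Tp rf rp x p.1 p.2 p'.1 p'.2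
      have r2 := rm _ _ _ _ rt (rc c) x p.1 p.2 p'.1 p'.2
      have r3 := rm _ _ _ _ (rc c) rt x p.1 p.2 p'.1 p'.2
      have r0 := rc 1 x p.1 p.2 p'.1 p'.2
      rw [(t_OP G).2.2.1] at r0
      refine r1.trans (Eq.trans ?_ (congrArg₂ (· + ·) r0 (congrArg₂ (· + ·) r2 r3)).symm)
      rw [he]
      simp
  obtain ⟨Q, S, hQ, q1, q2, hS, hl, hd⟩ := hERG G X ι c w μ K hw hμ
  obtain ⟨M1, b1⟩ := kf.bdd
  obtain ⟨M2, b2⟩ := kp.bdd
  obtain ⟨M, hM, m1, m2⟩ : ∃ M : ℝ, 1 ≤ M ∧ M1 ≤ M ∧ M2 ≤ M :=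
    ⟨max 1 (max M1 M2), by simp, by simp, by simp⟩
  have qq : Q ∘L Q = Q := hQ.isIdempotentElem
  have nl : ∀ (U : L2 (G × ι) →L[ℂ] L2 (G × ι)) x, ‖U‖ ≤ 1 → ‖U ∘L Tp x‖ ≤ M := fun U x h =>
    ((U.opNorm_comp_le _).trans (mul_le_of_le_one_left (norm_nonneg _) h)).trans ((b2 x).trans m2)
  have low : ∀ x (j : ℕ), (1 - √(1 - 1 / M ^ 4) ^ j) * dg Q ≤ dg (1 - (1 - ((1 / M ^ 2 : ℝ) : ℂ) •
      ((Q ∘L Tp x) ∘L ContinuousLinearMap.adjoint (Q ∘L Tp x))) ^ j) := fun x j => by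
    rw [dg, dg, mul_sum]
    refine sum_le_sum fun a _ => ?_
    have := (hLOW _ _ (Q ∘L Tp x) M hM (nl Q x hQ.norm_le)).2 Q (Tf x ∘L Q) hQ
      ((((Tf x).opNorm_comp_le _).trans (mul_le_of_le_one_right (norm_nonneg _) hQ.norm_le)).trans
        ((b1 x).trans m1)) (by
        rw [ContinuousLinearMap.comp_assoc, ← ContinuousLinearMap.comp_assoc (Tp x), key]
        simp only [ContinuousLinearMap.add_comp, ContinuousLinearMap.comp_add,
          ContinuousLinearMap.one_def, ContinuousLinearMap.id_comp, qq,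
          ContinuousLinearMap.comp_assoc, q1, ContinuousLinearMap.comp_zero, add_zero]
        rw [← ContinuousLinearMap.comp_assoc, q2, ContinuousLinearMap.zero_comp, add_zero])
      (by rw [← ContinuousLinearMap.comp_assoc, qq]) j (dl (1, a))
    rwa [rank_in, rank_in] at this
  have nr : ∀ m x, ‖1 - ((1 / M ^ 2 : ℝ) : ℂ) •
      ((S m ∘L Tp x) ∘L ContinuousLinearMap.adjoint (S m ∘L Tp x))‖ ≤ 1 := fun m x => by
    have := (hLOW _ _ (ContinuousLinearMap.adjoint (S m ∘L Tp x)) M hM (by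
      rw [LinearIsometryEquiv.norm_map]; exact nl _ x (hS m).2.1)).1
    rwa [ContinuousLinearMap.adjoint_adjoint] at this
  have main : ∀ j : ℕ, (1 - √(1 - 1 / M ^ 4) ^ j) * dg Q ≤ 2 * ∑ k, ν.real (Act k) := fun j => by
    obtain ⟨f, hf⟩ : ∃ f : ℕ → X → ℝ, ∀ m x, f m x = dg (1 - (1 - ((1 / M ^ 2 : ℝ) : ℂ) •
      ((S m ∘L Tp x) ∘L ContinuousLinearMap.adjoint (S m ∘L Tp x))) ^ j) := ⟨_, fun _ _ => rfl⟩
    have km : ∀ m, Ker fun x => S m ∘L Tp x := fun m =>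
      ((hKER G X κ ι ι).2.2 Tp kp).2.2.2 _ (hS m).2.2
    have f1 : ∀ m, Measurable (f m) := fun m => by
      rw [funext (hf m)]
      exact Finset.measurable_sum _ fun a _ =>
        Complex.measurable_re.comp ((rank_ker hKER (km m) _ j).meas _ _)
    have f2 : ∀ m x, |f m x| ≤ ∑ _a : ι, (2 : ℝ) := fun m x => by
      rw [hf]
      exact rank_bd (nr m x) j
    have f3 : ∀ m, ∫ x, f m x ∂ν ≤ 2 * ∑ k, ν.real (Act k) := fun m => by
      simp only [hf]
      refine hUP G X ι κ ν hP _ Act M j (km m) hM (fun x => nl _ x (hS m).2.1) hA fun k x hx => ?_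
      have : Tp x (dl (1, k)) = 0 := lp.ext (funext fun p => by
        have := rp x 1 k p.1 p.2
        rw [inv_one, one_smul, h0 k x hx] at this
        simpa using this)
      rw [ContinuousLinearMap.comp_apply, this, map_zero]
    generalize hL : (1 - √(1 - 1 / M ^ 4) ^ j) * dg Q = L
    have f4 : ∀ x, Tendsto (fun m => min (f m x) L) atTop (𝓝 L) := fun x => by
      have h1 := rank_cv (nr · x) (rank_c2 (fun m => (hS m).2.1) hl (fun m => (hS m).1)
        hQ.isSelfAdjoint (Tp x) _) j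
      simp only [← hf] at h1
      have := h1.min (tendsto_const_nhds (x := L))
      rwa [min_eq_right (hL ▸ low x j)] at this
    have f5 : ∀ m x, ‖min (f m x) L‖ ≤ ∑ _a : ι, (2 : ℝ) + |L| := fun m x => by
      have := f2 m x
      have := abs_nonneg L
      have := abs_nonneg (f m x)
      rcases min_choice (f m x) L with e | e <;> rw [e, Real.norm_eq_abs] <;> linarith
    have f6 := tendsto_integral_of_dominated_convergence (μ := ν) _
      (fun m => ((f1 m).min measurable_const).aestronglyMeasurable) (integrable_const _)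
      (fun m => ae_of_all _ (f5 m)) (ae_of_all _ f4)
    rw [integral_const, probReal_univ, one_smul] at f6
    exact le_of_tendsto' f6 fun m => (integral_mono
      (.of_bound ((f1 m).min measurable_const).aestronglyMeasurable _ (ae_of_all _ (f5 m)))
      (.of_bound (f1 m).aestronglyMeasurable _ (ae_of_all _ (f2 m)))
      fun x => min_le_left _ _).trans (f3 m)
  have s1 : √(1 - 1 / M ^ 4) < 1 := by
    rw [Real.sqrt_lt' one_pos]
    have : 0 < 1 / M ^ 4 := by positivity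
    linarith
  have := ((tendsto_pow_atTop_nhds_zero_of_lt_one (Real.sqrt_nonneg _) s1).const_sub 1).mul_const
    (dg Q)
  rw [sub_zero, one_mul] at this
  exact hd.trans (le_of_tendsto' this main)

end Pool.Agent.P.MP_f30597_gt.SV
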