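import Pool.Agent.P.MP_f30597_gt.SV.Iface
import Pool.Agent.P.MP_f30597_gt.OP

/-! Step REP. -/

namespace Pool.Agent.P.MP_f30597_gt.SV

open Finset Filter Topology MeasureTheory SI

open Classical in
theorem rep_dl {α : Type} (p q : α) : dl p q = if q = p then 1 else 0 := by
  simp [dl, lp.single_apply, Pi.single_apply]

open Classical in
theorem rep_sum {G : Type} [Group G] (z : ZG G) (t : G) :
    (z.coeff.sum fun g m => (m : ℂ) * if g = t then 1 else 0) = (z.coeff t : ℂ) := by
  rw [Finsupp.sum_eq_single t]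
  · simp
  · intro g _ hg; simp [hg]
  · simp

theorem rep_row {G κ : Type} [Group G] [Fintype κ] (z : κ → ZG G) (h : G) (ξ : L2 (G × κ))
    (hξ : ∀ h' k', ξ (h', k') = (((z k').coeff (h⁻¹ * h') : ℤ) : ℂ)) :
    ξ = ∑ k', ∑ g ∈ (z k').coeff.support, (((z k').coeff g : ℤ) : ℂ) • dl (h * g, k') := by
  classical
  ext ⟨h', k'⟩
  rw [hξ, lp.coeFn_sum, Finset.sum_apply, sum_eq_single k', lp.coeFn_sum, Finset.sum_apply,
    ← rep_sum]
  · refine sum_congr rfl fun g _ => ?_
    rw [lp.coeFn_smul, Pi.smul_apply, smul_eq_mul, rep_dl]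
    simp only [Prod.mk.injEq, and_true, eq_inv_mul_iff_mul_eq, eq_comm]
  · intro b _ hb
    rw [lp.coeFn_sum, Finset.sum_apply]
    refine sum_eq_zero fun g _ => ?_
    rw [lp.coeFn_smul, Pi.smul_apply, smul_eq_mul, rep_dl]
    simp [Ne.symm hb]
  · simp

theorem p_REP :
    S_REP := by
  intro G X κ κ' κ'' _ _ _ _ _
  classical
  refine ⟨fun T T' h => ?_, fun y x h k h' k' => ?_, fun A B T S hT hS x h k h'' k'' => ?_⟩
  · have key : ∀ p, (lp.singleContinuousLinearMap ℂ (fun _ => ℂ) 2 p) 1 = (dl p : L2 (G × κ)) := by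
      intro p
      ext q
      rw [lp.singleContinuousLinearMap_apply, rep_dl]
      simp [lp.single_apply, Pi.single_apply]
    refine lp.ext_continuousLinearMap (by simp) fun p => ContinuousLinearMap.ext_ring ?_
    ext p'
    rw [ContinuousLinearMap.comp_apply, ContinuousLinearMap.comp_apply, key, h]
  · rw [op_apply, sum_eq_single k, op_ev_apply, ← rep_sum]
    · refine Finsupp.sum_congr fun g _ => ?_
      rw [rep_dl]
      simp only [Prod.mk.injEq, and_true, eq_inv_mul_iff_mul_eq, mul_inv_eq_iff_eq_mul,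
        eq_comm (a := h')]
    · intro a _ ha
      rw [op_ev_apply]
      refine sum_eq_zero fun g _ => ?_
      simp [rep_dl, ha]
    · simp
  · rw [ContinuousLinearMap.comp_apply, rep_row (A k (h⁻¹ • x)) h _ (hT x h k), map_sum,
      lp.coeFn_sum, Finset.sum_apply, tp, Finset.sum_apply, MonoidAlgebra.coeff_sum,
      Finsupp.finsetSum_apply, Int.cast_sum]
    refine sum_congr rfl fun k' _ => ?_
    rw [map_sum, lp.coeFn_sum, Finset.sum_apply, Finsupp.sum, Finset.sum_apply,
      MonoidAlgebra.coeff_sum, Finsupp.finsetSum_apply, Int.cast_sum]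
    refine sum_congr rfl fun g _ => ?_
    rw [map_smul, lp.coeFn_smul, Pi.smul_apply, smul_eq_mul, hS, Pi.smul_apply, smul_eq_mul,
      MonoidAlgebra.coeff_single_mul_apply, Int.cast_mul, mul_inv_rev, mul_smul, mul_assoc]

end Pool.Agent.P.MP_f30597_gt.SV
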