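import Pool.Agent.P.MP_f30597_gt.SV.Iface

/-! Step SD. -/

namespace Pool.Agent.P.MP_f30597_gt.SV

open Finset Filter Topology MeasureTheory SI

set_option linter.unusedSectionVars false

noncomputable section

variable {G : Type} [Group G]

open Classical in
/-- the subdivision with fuel -/
def sd_f (b : Finset G → G) : ℕ → List G → Bar G
  | 0, l => sx l
  | k + 1, l => SI.cons (b l.toFinset) (Finsupp.linearCombination ℤ (sd_f b k) (bdZ (sx l)))

/-- the subdivision -/
def sd_0 (b : Finset G → G) : Bar G →ₗ[ℤ] Bar G :=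
  Finsupp.linearCombination ℤ fun l => sd_f b l.length l

theorem sd_sx (b : Finset G → G) (l : List G) : sd_0 b (sx l) = sd_f b l.length l := by
  rw [sd_0, Finsupp.linearCombination_single, one_smul]

theorem sd_nil (b : Finset G → G) : sd_0 b (sx []) = sx [] := sd_sx b []

open Classical in
theorem sd_rec (b : Finset G → G) {l : List G} {k : ℕ} (hl : l.length = k + 1) :
    sd_0 b (sx l) = SI.cons (b l.toFinset) (sd_0 b (bdZ (sx l))) := by
  rw [sd_sx, hl, sd_f]
  congr 1
  refine sup_eq (S := {l | l.length = k}) _ _ (fun m hm => ?_) (bdZ_len (hl ▸ sx_len l))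
  rw [sd_sx, Finsupp.linearCombination_single, one_smul, show m.length = k from hm]

theorem sd_cons_smul (g x : G) (u : Bar G) :
    el g • SI.cons x u = SI.cons (g * x) (el g • u) := by
  induction u using bar_ind with
  | h0 => simp
  | h1 a c ha hc => rw [map_add, smul_add, ha, hc, smul_add, map_add]
  | h2 m l =>
    rw [map_zsmul, smul_comm, smul_comm (el g), map_zsmul, cons_sx, el_smul, el_smul, cons_sx]
    rfl

theorem sd_erase {l : List G} {k i : ℕ} (hl : l.length = k + 1) (hi : i ∈ range l.length) :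
    (l.eraseIdx i).length = k := by
  rw [List.length_eraseIdx_of_lt (mem_range.1 hi), hl]; rfl

theorem sd_eqv {b : Finset G → G} (hb : Bary b) (g : G) (k : ℕ) :
    ∀ l : List G, l.length = k → sd_0 b (sx (tr g l)) = el g • sd_0 b (sx l) := by
  classical
  induction k with
  | zero =>
    intro l hl
    obtain rfl := List.length_eq_zero_iff.1 hl
    rw [sd_nil, el_smul]; exact sd_nil b
  | succ k ih =>
    intro l hl
    have hne : l.toFinset.Nonempty := by
      cases l with
      | nil => simp at hl
      | cons x l => exact ⟨x, by simp⟩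
    have h1 : (tr g l).toFinset = l.toFinset.image fun t => g * t := by
      ext t; simp only [tr, List.mem_toFinset, List.mem_map, mem_image]
    have h2 := (hb _ hne).2 g
    rw [sd_rec b ((tr_length g l).trans hl), sd_rec b hl, sd_cons_smul]
    congr 1
    · congr 1
      convert h2 using 2
    · rw [bdZ_sx, bdZ_sx, tr_length, map_sum, map_sum, smul_sum]
      refine sum_congr rfl fun i hi => ?_
      rw [map_zsmul, map_zsmul, smul_comm (el g), ← ih _ (sd_erase hl hi), tr, tr,
        List.eraseIdx_map]

theorem sd_bd (b : Finset G → G) (k : ℕ) :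
    ∀ l : List G, l.length = k → bdZ (sd_0 b (sx l)) = sd_0 b (bdZ (sx l)) := by
  induction k with
  | zero =>
    intro l hl
    obtain rfl := List.length_eq_zero_iff.1 hl
    rw [sd_nil, bdZ_nil, map_zero]
  | succ k ih =>
    intro l hl
    have h : bdZ (sd_0 b (bdZ (sx l))) = sd_0 b (bdZ (bdZ (sx l))) :=
      sup_eq (S := {l | l.length = k}) (bdZ ∘ₗ sd_0 b) (sd_0 b ∘ₗ bdZ) (fun m hm => ih m hm)
        (bdZ_len (hl ▸ sx_len l))
    rw [sd_rec b hl, bdZ_cons, h, bdZ_bdZ, map_zero, map_zero, sub_zero]

theorem sd_len (b : Finset G → G) (k : ℕ) :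
    ∀ l : List G, l.length = k → sd_0 b (sx l) ∈ Len k := by
  induction k with
  | zero =>
    intro l hl
    obtain rfl := List.length_eq_zero_iff.1 hl
    rw [sd_nil]; exact sx_len _
  | succ k ih =>
    intro l hl
    have h : sd_0 b (bdZ (sx l)) ∈ Len k :=
      sup_map (S := {l | l.length = k}) (sd_0 b) (Len k).toAddSubgroup (fun m hm => ih m hm)
        (bdZ_len (hl ▸ sx_len l))
    rw [sd_rec b hl]
    exact sup_map (S := {l | l.length = k}) (SI.cons _) (Len (k + 1)).toAddSubgroup
      (fun m hm => by rw [cons_sx]; exact (show m.length = k from hm) ▸ sx_len _) h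

theorem sd_card (b : Finset G → G) (k : ℕ) :
    ∀ l : List G, l.length = k → (sd_0 b (sx l)).support.card ≤ k.factorial := by
  classical
  induction k with
  | zero =>
    intro l hl
    obtain rfl := List.length_eq_zero_iff.1 hl
    rw [sd_nil]
    exact (card_le_card Finsupp.support_single_subset).trans (by simp)
  | succ k ih =>
    intro l hl
    rw [sd_rec b hl]
    refine (card_le_card Finsupp.mapDomain_support).trans (card_image_le.trans ?_)
    rw [bdZ_sx, map_sum]
    refine (card_le_card Finsupp.support_finsetSum).trans (card_biUnion_le.trans ?_)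
    refine (sum_le_card_nsmul _ _ k.factorial fun i hi => ?_).trans ?_
    · rw [map_zsmul]
      exact (card_le_card Finsupp.support_smul).trans (ih _ (sd_erase hl hi))
    · rw [card_range, hl, Nat.factorial_succ, smul_eq_mul]

/-- the span of the symmetric sums -/
def sd_N (G : Type) (k : ℕ) : Submodule ℤ (Bar G) :=
  Submodule.span ℤ {w | ∃ (u : List G) (x y : G) (v : List G), u.length + v.length + 2 = k ∧
    w = sx (u ++ x :: y :: v) + sx (u ++ y :: x :: v)}

theorem sd_N_cons (z : G) {k : ℕ} {w : Bar G} (hw : w ∈ sd_N G k) :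
    SI.cons z w ∈ sd_N G (k + 1) := by
  have : sd_N G k ≤ (sd_N G (k + 1)).comap (SI.cons z) := by
    refine Submodule.span_le.2 ?_
    rintro _ ⟨u, x, y, v, h, rfl⟩
    change SI.cons z _ ∈ sd_N G (k + 1)
    rw [map_add, cons_sx, cons_sx]
    exact Submodule.subset_span ⟨z :: u, x, y, v, by rw [List.length_cons]; omega, rfl⟩
  exact this hw

theorem sd_N_bd (u : List G) (x y : G) (v : List G) :
    bdZ (sx (u ++ x :: y :: v) + sx (u ++ y :: x :: v)) ∈ sd_N G (u.length + v.length + 1) := by
  induction u with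
  | nil =>
    have h : bdZ (sx ([] ++ x :: y :: v) + sx ([] ++ y :: x :: v)) =
        SI.cons x (SI.cons y (bdZ (sx v))) + SI.cons y (SI.cons x (bdZ (sx v))) := by
      simp only [List.nil_append, ← cons_sx, map_add, bdZ_cons, map_sub]
      abel
    rw [h, bdZ_sx]
    simp only [map_sum, map_zsmul, cons_sx, ← sum_add_distrib, ← smul_add]
    refine sum_mem fun i hi => Submodule.smul_mem _ _
      (Submodule.subset_span ⟨[], x, y, v.eraseIdx i, ?_, rfl⟩)
    have := mem_range.1 hi
    rw [List.length_eraseIdx_of_lt this]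
    omega
  | cons z u ih =>
    rw [List.cons_append, List.cons_append, ← cons_sx z, ← cons_sx z, ← map_add, bdZ_cons,
      show (z :: u).length + v.length + 1 = u.length + v.length + 1 + 1 by
        rw [List.length_cons]; omega]
    exact sub_mem (Submodule.subset_span ⟨u, x, y, v, rfl, rfl⟩) (sd_N_cons z ih)

theorem sd_N_zero (b : Finset G → G) (k : ℕ) : ∀ w ∈ sd_N G k, sd_0 b w = 0 := by
  classical
  induction k with
  | zero =>
    refine (Submodule.span_le (p := LinearMap.ker (sd_0 b))).2 ?_
    rintro _ ⟨u, x, y, v, h, rfl⟩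
    omega
  | succ k ih =>
    refine (Submodule.span_le (p := LinearMap.ker (sd_0 b))).2 ?_
    rintro _ ⟨u, x, y, v, h, rfl⟩
    change sd_0 b _ = 0
    have h1 : (u ++ x :: y :: v).length = k + 1 := by simp; omega
    have h2 : (u ++ y :: x :: v).length = k + 1 := by simp; omega
    have h3 : (u ++ y :: x :: v).toFinset = (u ++ x :: y :: v).toFinset :=
      List.toFinset_eq_of_perm _ _ ((List.Perm.swap _ _ _).append_left u)
    have h4 := ih _ ((show u.length + v.length + 1 = k by omega) ▸ sd_N_bd u x y v)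
    rw [map_add, sd_rec b h1, sd_rec b h2]
    convert (show SI.cons (b (u ++ x :: y :: v).toFinset) (sd_0 b (bdZ (sx (u ++ x :: y :: v)))) +
      SI.cons (b (u ++ x :: y :: v).toFinset) (sd_0 b (bdZ (sx (u ++ y :: x :: v)))) = 0 by
        rw [← map_add, ← map_add, ← map_add, h4, map_zero]) using 5

theorem sd_swap (b : Finset G → G) (u : List G) (x y : G) (v : List G) :
    sd_0 b (sx (u ++ x :: y :: v)) + sd_0 b (sx (u ++ y :: x :: v)) = 0 := by
  rw [← map_add]
  exact sd_N_zero b _ _ (Submodule.subset_span ⟨u, x, y, v, rfl, rfl⟩)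

theorem sd_perm (b : Finset G → G) {l l' : List G} (h : l.Perm l') :
    ∀ u : List G, sd_0 b (sx (u ++ l)) = 0 → sd_0 b (sx (u ++ l')) = 0 := by
  induction h with
  | nil => exact fun _ h => h
  | cons x _ ih =>
    intro u hu
    simpa using ih (u ++ [x]) (by simpa using hu)
  | swap x y l =>
    intro u hu
    have := sd_swap b u x y l
    rwa [hu, add_zero] at this
  | trans _ _ h1 h2 => exact fun u hu => h2 u (h1 u hu)

theorem sd_dup (b : Finset G → G) (l : List G) (h : ¬ l.Nodup) : sd_0 b (sx l) = 0 := by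
  obtain ⟨x, hx⟩ := List.exists_duplicate_iff_not_nodup.2 h
  obtain ⟨t, ht⟩ := (List.duplicate_iff_sublist.1 hx).exists_perm_append
  refine sd_perm b ht.symm [] ?_
  have := sd_swap b [] x x t
  ext a
  have h2 := DFunLike.congr_fun this a
  rw [Finsupp.add_apply, Finsupp.zero_apply] at h2
  exact add_self_eq_zero.1 h2

end

theorem p_SD :
    S_SD := by
  intro G _ b hb
  refine ⟨lin (sd_0 b) fun g l => sd_eqv hb g _ l rfl, sd_nil b, fun u => ?_,
    fun l => sd_len b _ l rfl, sd_dup b, fun l => sd_card b _ l rfl⟩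
  exact sup_eq (S := Set.univ) (bdZ ∘ₗ sd_0 b) (sd_0 b ∘ₗ bdZ) (fun l _ => sd_bd b _ l rfl)
    fun _ _ => trivial

end Pool.Agent.P.MP_f30597_gt.SV
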