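import Pool.Agent.P.MP_f30597_gt.SV.Iface

/-! Step SOFA. -/

namespace Pool.Agent.P.MP_f30597_gt.SV

open Finset Filter Topology MeasureTheory SI

open Classical in
theorem sofa_key {V L Ω : Type} [Fintype V] [MeasurableSpace Ω] (μ : Measure Ω)
    [IsProbabilityMeasure μ] (Λ : Finset L) (P : V → Ω → L → Prop) (Gd : V → Prop) (p : ℝ)
    (hp : 0 ≤ p) (h : ∀ v, Gd v → ∀ l ∈ Λ, ∃ E : Set Ω, MeasurableSet E ∧ μ.real E ≤ p ∧
      ∀ ω, P v ω l → ω ∈ E) :
    ∃ ω, (∑ v, ((Λ.filter fun l => P v ω l).card : ℝ)) ≤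
      Λ.card * p * Fintype.card V + Λ.card * ((univ.filter fun v => ¬ Gd v).card : ℝ) := by
  have h' : ∀ v l, ∃ E : Set Ω, MeasurableSet E ∧ μ.real E ≤ p ∧
      (Gd v → l ∈ Λ → ∀ ω, P v ω l → ω ∈ E) := by
    intro v l
    by_cases e : Gd v ∧ l ∈ Λ
    · obtain ⟨E, h1, h2, h3⟩ := h v e.1 l e.2
      exact ⟨E, h1, h2, fun _ _ => h3⟩
    · exact ⟨∅, MeasurableSet.empty, by simpa using hp, fun a b => absurd ⟨a, b⟩ e⟩
  choose E hm hE hP using h'
  have hi : ∀ v l, Integrable ((E v l).indicator fun _ => (1 : ℝ)) μ := fun v l =>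
    (integrable_const _).indicator (hm v l)
  have hi2 : ∀ v, Integrable (fun ω => ∑ l ∈ Λ, (E v l).indicator (fun _ => (1 : ℝ)) ω) μ :=
    fun v => integrable_finsetSum _ fun l _ => hi v l
  obtain ⟨ω, hω⟩ := exists_le_integral (μ := μ)
    (f := fun ω => ∑ v, ∑ l ∈ Λ, (E v l).indicator (fun _ => (1 : ℝ)) ω)
    (integrable_finsetSum _ fun v _ => hi2 v)
  refine ⟨ω, ?_⟩
  have h1 : ∫ ω, ∑ v, ∑ l ∈ Λ, (E v l).indicator (fun _ => (1 : ℝ)) ω ∂μ ≤
      Λ.card * p * Fintype.card V := by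
    rw [integral_finsetSum _ fun v _ => hi2 v]
    calc _ ≤ ∑ _v : V, (Λ.card * p : ℝ) := by
          refine sum_le_sum fun v _ => ?_
          rw [integral_finsetSum _ fun l _ => hi v l]
          calc _ ≤ ∑ _l ∈ Λ, p := by
                refine sum_le_sum fun l _ => ?_
                rw [integral_indicator_const _ (hm v l)]
                simpa using hE v l
            _ = _ := by simp
      _ = _ := by simp [mul_comm]
  have h2 : ∀ v, ((Λ.filter fun l => P v ω l).card : ℝ) ≤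
      ∑ l ∈ Λ, (E v l).indicator (fun _ => (1 : ℝ)) ω +
        if ¬ Gd v then (Λ.card : ℝ) else 0 := by
    intro v
    have h0 : 0 ≤ ∑ l ∈ Λ, (E v l).indicator (fun _ => (1 : ℝ)) ω :=
      sum_nonneg fun l _ => Set.indicator_nonneg (fun _ _ => zero_le_one) _
    by_cases e : Gd v
    · rw [if_neg (not_not.2 e), add_zero, card_filter, Nat.cast_sum]
      refine sum_le_sum fun l hl => ?_
      split_ifs with e'
      · rw [Set.indicator_of_mem (hP v l e hl ω e')]; simp
      · simpa using Set.indicator_nonneg (fun _ _ => zero_le_one) _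
    · rw [if_pos e]
      have : ((Λ.filter fun l => P v ω l).card : ℝ) ≤ Λ.card := by
        exact_mod_cast card_filter_le _ _
      linarith
  refine (sum_le_sum fun v _ => h2 v).trans ?_
  rw [sum_add_distrib, ← sum_filter, sum_const, nsmul_eq_mul, mul_comm]
  exact add_le_add (hω.trans h1) le_rfl

theorem p_SOFA (hPROB : S_PROB) :
    S_SOFA := by
  classical
  intro G _ S b n q ε Λ hq hε hΛ
  let T : Finset G := (Λ.biUnion un).image fun z => z.1
  have key := fun i => sofa_key (P0 (Fin (S.N i) × ℕ)) Λ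
    (fun v ω l => (l.map fun U => lab b U fun z => ω (S.act i z.1 v, z.2)).Nodup)
    (fun v => Set.InjOn (fun t => S.act i t v) T) (q ^ n) (pow_nonneg hq n) (by
      intro v hv l hl
      refine hPROB G _ b (fun z => (S.act i z.1 v, z.2)) n q l (hΛ l hl).1 (hΛ l hl).2 ?_
      intro z hz z' hz' e
      have m : ∀ y ∈ un l, y.1 ∈ T := fun y hy => mem_image_of_mem _ (mem_biUnion.2 ⟨l, hl, hy⟩)
      have e2 := (Prod.ext_iff.1 e).2
      exact Prod.ext (hv (m z hz) (m z' hz') (Prod.ext_iff.1 e).1) e2)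
  choose ω hω using key
  refine ⟨ω, ?_⟩
  have h0 : (0 : ℝ) < Λ.card + 1 := by positivity
  filter_upwards [(Sof.ae_inj (S := S) T).ev (div_pos hε h0)] with i hi
  have h1 := hω i
  rw [Fintype.card_fin] at h1
  have h2 : (Λ.card : ℝ) * (ε / (Λ.card + 1) * S.N i) ≤ ε * S.N i := by
    rw [← mul_assoc]
    refine mul_le_mul_of_nonneg_right ?_ (by positivity)
    rw [← mul_div_assoc, div_le_iff₀ h0]
    nlinarith
  have h3 := mul_le_mul_of_nonneg_left hi (Nat.cast_nonneg (α := ℝ) Λ.card)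
  rw [add_mul]
  refine le_trans ?_ (add_le_add le_rfl (h3.trans h2))
  unfold bad
  refine le_trans (le_of_eq ?_) (h1.trans (le_of_eq ?_)) <;> congr!

end Pool.Agent.P.MP_f30597_gt.SV
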