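import Pool.Agent.P.MP_f30597_gt.SV.Iface

/-! Step TRC. -/

namespace Pool.Agent.P.MP_f30597_gt.SV

open Finset Filter Topology MeasureTheory SI

theorem trc_exp {α : Type} (v : L2 α) (A : Finset α) (h : ∀ p, v p ≠ 0 → p ∈ A) :
    v = ∑ p ∈ A, v p • dl p := by
  classical
  refine lp.ext (funext fun q => ?_)
  rw [lp.coeFn_sum, Finset.sum_apply, sum_eq_single q]
  · simp [dl]
  · intro p _ hp
    simp [dl, lp.single_apply, hp.symm]
  · intro hq
    have : v q = 0 := by_contra fun a => hq (h q a)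
    simp [this]

theorem trc_le {α β : Type} (T : L2 α →L[ℂ] L2 β) (p : α) (q : β) : ‖T (dl p) q‖ ≤ ‖T‖ := by
  classical
  refine (lp.norm_apply_le_norm two_ne_zero _ q).trans ((T.le_opNorm _).trans_eq ?_)
  rw [dl, lp.norm_single (by norm_num), norm_one, mul_one]

theorem trc_dg {G κ κ' : Type} [Group G] [Fintype κ] [Fintype κ']
    (T : L2 (G × κ) →L[ℂ] L2 (G × κ')) (S : L2 (G × κ') →L[ℂ] L2 (G × κ)) (F : Finset G)
    (h : ∀ k s k', T (dl (1, k)) (s, k') ≠ 0 → s ∈ F) :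
    dg (S ∘L T) = ∑ s ∈ F, ∑ k, ∑ k', (T (dl (1, k)) (s, k') * S (dl (s, k')) (1, k)).re := by
  rw [sum_comm, dg]
  refine sum_congr rfl fun k _ => ?_
  rw [ContinuousLinearMap.comp_apply, trc_exp (T (dl (1, k))) (F ×ˢ univ)
    fun p hp => mem_product.2 ⟨h k p.1 p.2 hp, mem_univ _⟩, map_sum, lp.coeFn_sum,
    Finset.sum_apply, Complex.re_sum, sum_product, ← trc_exp (T (dl (1, k))) (F ×ˢ univ)
    fun p hp => mem_product.2 ⟨h k p.1 p.2 hp, mem_univ _⟩]
  simp only [map_smul, lp.coeFn_smul, Pi.smul_apply, smul_eq_mul]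

theorem trc_int {G X κ κ' : Type} [Group G] [MulAction G X] [MeasurableSpace X] (ν : Measure X)
    [IsProbabilityMeasure ν] {T : X → L2 (G × κ) →L[ℂ] L2 (G × κ')}
    {S : X → L2 (G × κ') →L[ℂ] L2 (G × κ)} (hT : Ker T) (hS : Ker S) (p q : G × κ)
    (p' q' : G × κ') : Integrable (fun x => (T x (dl p) p' * S x (dl q') q).re) ν := by
  obtain ⟨M, hM⟩ := hT.bdd
  obtain ⟨N, hN⟩ := hS.bdd
  refine Integrable.of_bound (Complex.measurable_re.comp
    ((hT.meas p p').mul (hS.meas q' q))).aestronglyMeasurable (M * N) (ae_of_all _ fun x => ?_)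
  refine (Complex.abs_re_le_norm _).trans ?_
  rw [norm_mul]
  exact mul_le_mul ((trc_le _ _ _).trans (hM x)) ((trc_le _ _ _).trans (hN x)) (norm_nonneg _)
    ((norm_nonneg _).trans (hM x))

theorem p_TRC :
    S_TRC := by
  classical
  intro G X κ κ' _ _ _ _ _ ν _ hP T S hT hS
  obtain ⟨F1, h1⟩ := hT.fin
  obtain ⟨F2, h2⟩ := hS.fin
  have e1 : ∀ x, dg (S x ∘L T x) = _ := fun x => trc_dg (T x) (S x) (F1 ∪ F2.image (·⁻¹))
    fun k s k' h => mem_union_left _ (by simpa using h1 x 1 k s k' h)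
  have e2 : ∀ x, dg (T x ∘L S x) = _ := fun x => trc_dg (S x) (T x)
    ((F1 ∪ F2.image (·⁻¹)).image (·⁻¹)) fun k s k' h => mem_image.2 ⟨s⁻¹, mem_union_right _
      (mem_image.2 ⟨s, by simpa using h2 x 1 k s k' h, rfl⟩), inv_inv s⟩
  simp only [e1, e2]
  simp only [sum_image (inv_injective (G := G)).injOn]
  rw [integral_finsetSum _ fun s _ => integrable_finsetSum _ fun k _ =>
      integrable_finsetSum _ fun k' _ => trc_int ν hT hS _ _ _ _,
    integral_finsetSum _ fun s _ => integrable_finsetSum _ fun k _ =>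
      integrable_finsetSum _ fun k' _ => trc_int ν hS hT _ _ _ _]
  refine sum_congr rfl fun s _ => ?_
  have hI := (integrable_finsetSum (univ : Finset κ) fun k _ => integrable_finsetSum
    (univ : Finset κ') fun k' _ => trc_int ν hT hS (1, k) (1, k) (s, k') (s, k')).1
  conv_lhs => rw [← (hP s).map_eq]
  rw [integral_map (hP s).measurable.aemeasurable (by rwa [(hP s).map_eq])]
  refine integral_congr_ae (ae_of_all _ fun x => ?_)
  beta_reduce
  rw [sum_comm]
  refine sum_congr rfl fun k' _ => sum_congr rfl fun k _ => ?_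
  rw [← hS.eqv s x 1 k' s⁻¹ k, ← hT.eqv s x s⁻¹ k 1 k', mul_one, mul_inv_cancel, mul_comm]

end Pool.Agent.P.MP_f30597_gt.SV
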