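import Pool.Agent.P.MP_f30597_gt.SV.Iface

/-! Step UP. -/

namespace Pool.Agent.P.MP_f30597_gt.SV

open Finset Filter Topology MeasureTheory SI

theorem up_pow {H : Type} [NormedAddCommGroup H] [NormedSpace ℂ H] {U : H →L[ℂ] H} (h : ‖U‖ ≤ 1)
    (j : ℕ) : ‖1 - U ^ j‖ ≤ 2 := by
  have h1 : ‖(1 : H →L[ℂ] H)‖ ≤ 1 := ContinuousLinearMap.norm_id_le
  have h2 : ‖U ^ j‖ ≤ 1 := by
    induction j with
    | zero => rwa [pow_zero]
    | succ j ih =>
      rw [pow_succ]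
      exact (norm_mul_le _ _).trans (mul_le_one₀ ih (norm_nonneg _) h)
  linarith [norm_sub_le (1 : H →L[ℂ] H) (U ^ j)]

open Classical in
theorem up_dl {α : Type} (p : α) : ‖dl p‖ = 1 := by
  rw [dl, lp.norm_single (by norm_num), norm_one]

theorem up_ex (hKER : S_KER) {G X ι κ : Type} [Group G] [MulAction G X] [MeasurableSpace X]
    [Fintype ι] [Fintype κ] {T : X → L2 (G × κ) →L[ℂ] L2 (G × ι)}
    {S : X → L2 (G × ι) →L[ℂ] L2 (G × κ)} (hT : Ker T) (hS : Ker S) (j : ℕ) :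
    ∃ R : X → L2 (G × ι) →L[ℂ] L2 (G × κ), Ker R ∧ ∀ x,
      R x ∘L T x = 1 - (1 - S x ∘L T x) ^ j ∧ T x ∘L R x = 1 - (1 - T x ∘L S x) ^ j := by
  induction j with
  | zero => exact ⟨_, ((hKER G X ι κ κ).2.2 S hS).2.1 0, fun x => by simp⟩
  | succ j ih =>
    obtain ⟨R, hR, e⟩ := ih
    have k1 := ((hKER G X ι κ ι).2.2 R hR).2.2.2 T hT
    have k2 := ((hKER G X ι ι κ).2.2 _ k1).2.2.2 S hS
    have k3 := ((hKER G X ι κ κ).2.2 _ k2).2.1 (-1)
    have k4 := ((hKER G X ι κ κ).2.2 R hR).1 _ k3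
    refine ⟨_, ((hKER G X ι κ κ).2.2 S hS).1 _ k4, fun x => ⟨?_, ?_⟩⟩
    · have : (S x + (R x + (-1 : ℂ) • S x ∘L T x ∘L R x)) ∘L T x =
          S x ∘L T x + (1 - S x ∘L T x) * (R x ∘L T x) := by
        ext v; simp [sub_eq_add_neg]
      rw [this, (e x).1, pow_succ']; noncomm_ring
    · have : T x ∘L (S x + (R x + (-1 : ℂ) • S x ∘L T x ∘L R x)) =
          T x ∘L S x + (1 - T x ∘L S x) * (T x ∘L R x) := by
        ext v; simp [sub_eq_add_neg]
      rw [this, (e x).2, pow_succ']; noncomm_ring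

theorem p_UP (hKER : S_KER) (hTRC : S_TRC) (hLOW : S_LOW) :
    S_UP := by
  intro G X ι κ _ _ _ _ _ ν _ hP T Act M j hT hM hb hA h0
  have hS := ((hKER G X ι κ κ).2.2 _ ((hKER G X κ ι κ).2.2 T hT).2.2.1).2.1 ((1 / M ^ 2 : ℝ) : ℂ)
  obtain ⟨R, hR, e⟩ := up_ex hKER hT hS j
  simp only [ContinuousLinearMap.comp_smul, ContinuousLinearMap.smul_comp] at e
  simp only [← (e _).2]
  rw [hTRC G X ι κ ν hP R T hR hT]
  by_cases hI : Integrable (fun x => dg (R x ∘L T x)) ν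
  swap
  · rw [integral_undef hI]; positivity
  have hi : ∀ k ∈ (univ : Finset κ), Integrable ((Act k).indicator fun _ => (2 : ℝ)) ν :=
    fun k _ => (integrable_const _).indicator (hA k)
  refine (integral_mono hI (integrable_finsetSum _ hi) fun x => sum_le_sum fun k _ => ?_).trans ?_
  · by_cases hx : x ∈ Act k
    · rw [Set.indicator_of_mem hx]
      have n1 : ‖R x ∘L T x‖ ≤ 2 := by
        rw [(e x).1]; exact up_pow (hLOW _ _ (T x) M hM (hb x)).1 j
      refine (Complex.re_le_norm _).trans ((lp.norm_apply_le_norm (by norm_num) _ _).trans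
        (((R x ∘L T x).le_opNorm _).trans ?_))
      rwa [up_dl, mul_one]
    · simp [Set.indicator_of_notMem hx, h0 k x hx]
  · rw [integral_finsetSum _ hi, mul_sum]
    exact sum_le_sum fun k _ => by rw [integral_indicator_const _ (hA k), smul_eq_mul, mul_comm]

end Pool.Agent.P.MP_f30597_gt.SV
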