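import Pool.Agent.P.MP_f30597_gt.SI.Res
import Pool.Agent.P.MP_f30597_gt.SV.MainG
import Pool.Agent.P.MP_f30597_gt.SV.TFILL
import Pool.Agent.P.MP_f30597_gt.SV.TMESH
import Pool.Agent.P.MP_f30597_gt.SV.TPACK
import Pool.Agent.P.MP_f30597_gt.SV.TNET
import Pool.Agent.P.MP_f30597_gt.SV.TDISC
import Pool.Agent.P.MP_f30597_gt.SV.TGOOD
import Pool.Agent.P.MP_f30597_gt.SV.TPRE
import Pool.Agent.P.MP_f30597_gt.SV.TBARY
import Pool.Agent.P.MP_f30597_gt.SV.TSD
import Pool.Agent.P.MP_f30597_gt.SV.TTIE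
import Pool.Agent.P.MP_f30597_gt.SV.THASH
import Pool.Agent.P.MP_f30597_gt.SV.TPROB
import Pool.Agent.P.MP_f30597_gt.SV.TSOFA
import Pool.Agent.P.MP_f30597_gt.SV.TOPX
import Pool.Agent.P.MP_f30597_gt.SV.TREP
import Pool.Agent.P.MP_f30597_gt.SV.TKER
import Pool.Agent.P.MP_f30597_gt.SV.TTRC
import Pool.Agent.P.MP_f30597_gt.SV.TLOW
import Pool.Agent.P.MP_f30597_gt.SV.TERG
import Pool.Agent.P.MP_f30597_gt.SV.TUP
import Pool.Agent.P.MP_f30597_gt.SV.TRANK

/-! Assembly of the steps. -/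

namespace Pool.Agent.P.MP_f30597_gt.SV

open Finset MeasureTheory SI

theorem all_pre : S_PRE := p_PRE (p_MESH p_FILL) (p_NET p_PACK) p_DISC p_GOOD

theorem all_prob : S_PROB := p_PROB p_TIE p_HASH

theorem all_rank : S_RANK :=
  p_RANK p_OPX p_REP (p_KER p_REP) p_LOW (p_ERG (p_KER p_REP)) (p_UP (p_KER p_REP) p_TRC p_LOW)

theorem mod_nonneg {G : Type} [Group G] [Countable G] {n : ℕ} {A V : ℝ} (h : HasModel G n A V) :
    0 ≤ V := by
  obtain ⟨Y, _, _, _, _, _, μ, L, Φ, hM⟩ := h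
  exact (p_PACK G Y n A V μ L Φ hM).2.1

theorem main (hF : S_FINAL) (n : ℕ) (hn0 : 0 < n) (A : ℝ) : ∃ C : ℝ,
    ∀ (G ι : Type) [Group G] [Countable G] [Fintype ι] [DecidableEq ι] (deg : ι → ℕ)
      (c : Matrix ι ι (ZG G)) (w w' : ι → ℤ) (μ : ℕ → Measure ℝ) (B : ℕ → ℝ) (V : ℝ),
      (∀ g : G, IsOfFinOrder g → g = 1) →
      IsResolution deg c w → (∀ a, deg a ≤ n) → IsResolution (fun a => n - deg a) (cst c) w' →
      (∀ p, Mom (μ p) (B p) fun j => wtr (ind deg p) ((c * cst c + cst c * c) ^ j)) →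
      SmoothVolLe G n A V → (∀ p, (μ p).real {0} ≤ C * V) ∧ ∀ _ : Sof G,
      (∀ p, IntegrableOn Real.log (Set.Ioi 0) (μ p)) ∧
      ((∀ p, (μ p).real {0} = 0) → |∑ p ∈ range (n + 1),
        (-1) ^ p * (p : ℝ) * ∫ t in Set.Ioi 0, Real.log t ∂μ p| ≤ C * V) := by
  classical
  obtain ⟨C, hC, h⟩ := main_sof hF all_pre p_BARY p_SD (p_SOFA all_prob) n hn0 A
  obtain ⟨C', hC', h'⟩ := main_gen all_pre p_BARY p_SD all_rank all_prob n hn0 A
  have h0 : 0 ≤ C + C' := by positivity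
  refine ⟨C + C', fun G ι _ _ _ _ deg c w w' μ B V hG R hn R' hμ hV => ?_⟩
  have key : ∀ ε : ℝ, 0 < ε → (∀ p, (μ p).real {0} ≤ (C + C') * V + (C + C') * ε) ∧ ∀ _ : Sof G,
      (∀ p, IntegrableOn Real.log (Set.Ioi 0) (μ p)) ∧ ((∀ p, (μ p).real {0} = 0) →
        |∑ p ∈ range (n + 1), (-1) ^ p * (p : ℝ) * ∫ t in Set.Ioi 0, Real.log t ∂μ p| ≤
          (C + C') * V + (C + C') * ε) := by
    intro ε hε
    obtain ⟨K, hK, hM⟩ := hV (V + ε) (by linarith)
    obtain ⟨P, hP⟩ := exists_tv K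
    have := Fintype.ofFinite (G ⧸ K)
    obtain ⟨m, hm⟩ : ∃ m, m = K.index := ⟨_, rfl⟩
    have m0 : m ≠ 0 := hm ▸ hK.index_ne_zero
    have m1 : (0 : ℝ) < m := by positivity
    have m2 : Fintype.card (G ⧸ K) = m := by rw [hm, Subgroup.index, Nat.card_eq_fintype_card]
    have m3 : (m : ENNReal) ≠ ⊤ := ENNReal.natCast_ne_top m
    have R2 := P.isResolution R'
    rw [P.res_cst] at R2
    rw [← hm] at hM
    have hK' : ∀ g : K, IsOfFinOrder g → g = 1 := fun g hg =>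
      Subtype.ext (hG _ (K.subtype.isOfFinOrder hg))
    have hν : ∀ p, Mom ((m : ENNReal) • μ p) (B p) fun j => wtr (ind (fun a : ι × (G ⧸ K) =>
        deg a.1) p) ((P.res c * cst (P.res c) + cst (P.res c) * P.res c) ^ j) := fun p =>
      ⟨(have := (hμ p).1; Measure.smul_finite _ m3), by simp [(hμ p).2.1], fun j => by
        rw [integral_smul_measure, (hμ p).2.2, ENNReal.toReal_natCast, smul_eq_mul, ← m2,
          ← P.res_wtr, ← P.res_cst]
        congr 1
        change P.resR _ = (P.resR _ * P.resR _ + P.resR _ * P.resR _) ^ j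
        rw [map_pow, map_add, map_mul, map_mul]⟩
    have h4 : 0 ≤ V + ε := nonneg_of_mul_nonneg_left (mod_nonneg hM) m1
    refine ⟨fun p => ?_, fun S => ?_⟩
    · have := h' K _ _ _ _ _ _ _ _ p hK' (P.isResolution R) (fun p => hn p.1) R2 (hν p) hM
      rw [measureReal_ennreal_smul_apply, ENNReal.toReal_natCast, ← mul_assoc, mul_comm _ (m : ℝ)]
        at this
      have := le_of_mul_le_mul_left this m1
      nlinarith
    · obtain ⟨h1, h2⟩ := h K _ (P.sof hP S) _ _ _ _ _ B _ hK' (P.isResolution R)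
        (fun p => hn p.1) R2 hν hM
      refine ⟨fun p => ?_, fun e => ?_⟩
      · have := (h1 p).1
        rwa [IntegrableOn, Measure.restrict_smul,
          integrable_smul_measure (Nat.cast_ne_zero.2 m0) m3] at this
      · have := h2 fun p => by rw [measureReal_ennreal_smul_apply, e, mul_zero]
        rw [← mul_assoc, mul_comm _ (m : ℝ)] at this
        simp only [Measure.restrict_smul, integral_smul_measure, ENNReal.toReal_natCast,
          smul_eq_mul, mul_left_comm _ (m : ℝ), ← mul_sum, abs_mul, Nat.abs_cast] at this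
        have := le_of_mul_le_mul_left this m1
        nlinarith
  exact ⟨fun p => le_lim h0 fun ε hε => (key ε hε).1 p, fun S => ⟨((key 1 one_pos).2 S).1,
    fun e => le_lim h0 fun ε hε => ((key ε hε).2 S).2 e⟩⟩

end Pool.Agent.P.MP_f30597_gt.SV
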