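import Mathlib

/-! Definition: an upper bound for the stable smoothing volume. -/

namespace Pool.Agent.P.MP_f30597_gt.SV

open MeasureTheory

/-- The group `G` acts isometrically and with displacement bounded below on the metric space `Y`,
the invariant measure `μ` gives small balls of radius `r` a mass between `r ^ n` and `A r ^ n`, the
map `Φ` to the unit sphere of the summable functions on `G` is equivariant and
`L`-Lipschitz, and `L ^ n` times the covolume is at most `V`. -/
structure IsModel (G : Type) [Group G] {Y : Type} [MetricSpace Y] [MeasurableSpace Y]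
    [MulAction G Y] (n : ℕ) (A V : ℝ) (μ : Measure Y) (L : NNReal)
    (Φ : Y → lp (fun _ : G => ℝ) 1) : Prop where
  iso : ∀ (g : G) (x y : Y), dist (g • x) (g • y) = dist x y
  inv : ∀ (g : G) (s : Set Y), MeasurableSet s → μ ((fun y => g • y) ⁻¹' s) = μ s
  reg : ∃ r₀ : ℝ, 0 < r₀ ∧ (∀ g : G, g ≠ 1 → ∀ y : Y, r₀ ≤ dist (g • y) y) ∧
    ∀ (y : Y) (r : ℝ), 0 < r → r ≤ r₀ → ENNReal.ofReal (r ^ n) ≤ μ (Metric.ball y r) ∧
      μ (Metric.ball y r) ≤ ENNReal.ofReal (A * r ^ n)
  pos : 0 < L
  vol : ∃ D : Set Y, IsFundamentalDomain G D μ ∧ (L : ENNReal) ^ n * μ D ≤ ENNReal.ofReal V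
  unit : ∀ y, ‖Φ y‖ = 1
  eqv : ∀ (g : G) (y : Y) (h : G), Φ (g • y) (g * h) = Φ y h
  lip : LipschitzWith L Φ

/-- For every `W > V` some subgroup `K` of finite index has a contractible model with bound
`W` times the index. -/
def SmoothVolLe (G : Type) [Group G] (n : ℕ) (A V : ℝ) : Prop :=
  ∀ W : ℝ, V < W → ∃ (K : Subgroup G) (_ : K.FiniteIndex) (Y : Type) (_ : MetricSpace Y)
    (_ : ContractibleSpace Y) (_ : MeasurableSpace Y) (_ : BorelSpace Y) (_ : MulAction K Y)
    (μ : Measure Y) (L : NNReal) (Φ : Y → lp (fun _ : K => ℝ) 1),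
    IsModel K n A (W * K.index) μ L Φ

end Pool.Agent.P.MP_f30597_gt.SV
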