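import Pool.Agent.P.MP_f30597_gt.SI.Cover
import Pool.Agent.P.MP_f30597_gt.SV.Defs

/-! Definitions and small tools for the bound by the smoothing volume. -/

namespace Pool.Agent.P.MP_f30597_gt.SV

open Finset MeasureTheory SI

noncomputable section

/-! ### Chains on a `G`-set -/

section Ch

variable {G Y : Type} [Group G] [MulAction G Y]

/-- chains -/
abbrev Ch (Y : Type) : Type := List Y →₀ ℤ

/-- the boundary as a linear map -/
def bdY : Ch Y →ₗ[ℤ] Ch Y := Finsupp.linearCombination ℤ fun l =>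
  ∑ i ∈ range l.length, (-1 : ℤ) ^ i • Finsupp.single (l.eraseIdx i) 1

theorem bdY_single (l : List Y) : bdY (Finsupp.single l 1) =
    ∑ i ∈ range l.length, (-1 : ℤ) ^ i • Finsupp.single (l.eraseIdx i) 1 := by
  rw [bdY, Finsupp.linearCombination_single, one_smul]

theorem bdY_eq (u : Ch Y) : bd u = bdY u := by
  simp [bd, bdY, Finsupp.linearCombination_apply, smul_sum, mul_comm]

theorem bdY_nil : bdY (Finsupp.single ([] : List Y) 1) = 0 := by simp [bdY_single]

/-- linear maps on chains are determined by the lists -/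
theorem ch_ext {M : Type} [AddCommGroup M] {f f' : Ch Y →ₗ[ℤ] M}
    (h : ∀ l, f (Finsupp.single l 1) = f' (Finsupp.single l 1)) (u : Ch Y) : f u = f' u := by
  induction u using Finsupp.induction_linear with
  | zero => simp
  | add a b ha hb => simp only [map_add, ha, hb]
  | single l m => rw [← Finsupp.smul_single_one, map_zsmul, map_zsmul, h]

/-- membership in a subgroup can be tested on the support -/
theorem ch_mem {M : Type} [AddCommGroup M] (f : Ch Y →ₗ[ℤ] M) (P : AddSubgroup M) {u : Ch Y}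
    (h : ∀ l ∈ u.support, f (Finsupp.single l 1) ∈ P) : f u ∈ P := by
  rw [← u.sum_single, Finsupp.sum, map_sum]
  exact sum_mem fun l hl => by
    rw [← Finsupp.smul_single_one, map_zsmul]; exact zsmul_mem (h l hl) _

/-- the cone -/
def cnY (y : Y) : Ch Y →ₗ[ℤ] Ch Y := Finsupp.lmapDomain ℤ ℤ (y :: ·)

theorem cnY_single (y : Y) (l : List Y) :
    cnY y (Finsupp.single l 1) = Finsupp.single (y :: l) 1 := Finsupp.mapDomain_single

theorem bdY_cnY (y : Y) (u : Ch Y) : bdY (cnY y u) = u - cnY y (bdY u) := by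
  refine ch_ext (f := bdY ∘ₗ cnY y) (f' := LinearMap.id - cnY y ∘ₗ bdY) (fun l => ?_) u
  change bdY (cnY y _) = _ - cnY y (bdY _)
  rw [cnY_single, bdY_single, bdY_single, List.length_cons, sum_range_succ', map_sum, add_comm,
    sub_eq_add_neg, ← sum_neg_distrib]
  simp only [map_zsmul, cnY_single, pow_succ, mul_neg_one, neg_smul, List.eraseIdx_cons_succ]
  simp

/-- the chain map of a map of sets -/
def mp {Z : Type} (f : Y → Z) : Ch Y →ₗ[ℤ] Ch Z := Finsupp.lmapDomain ℤ ℤ (List.map f)

theorem mp_single {Z : Type} (f : Y → Z) (l : List Y) :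
    mp f (Finsupp.single l 1) = Finsupp.single (l.map f) 1 := Finsupp.mapDomain_single

theorem bdY_mp {Z : Type} (f : Y → Z) (u : Ch Y) : bdY (mp f u) = mp f (bdY u) := by
  rw [← bdY_eq, ← bdY_eq]
  exact bd_map f u

variable (G Y) in
/-- translation of chains -/
def rhoY : G →* Module.End ℤ (Ch Y) where
  toFun g := mp fun y => g • y
  map_one' := LinearMap.ext (ch_ext fun l => by simp [mp_single])
  map_mul' g h := LinearMap.ext (ch_ext fun l => by simp [mp_single, mul_smul, Function.comp_def])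

/-- the action of the group ring on chains -/
def rY : ZG G →+* Module.End ℤ (Ch Y) :=
  (MonoidAlgebra.lift ℤ (Module.End ℤ (Ch Y)) G (rhoY G Y)).toRingHom

theorem rY_el (g : G) (u : Ch Y) : rY (el g) u = mp (fun y => g • y) u := by
  change MonoidAlgebra.lift ℤ (Module.End ℤ (Ch Y)) G (rhoY G Y) (el g) u = _
  rw [MonoidAlgebra.lift_single, one_smul]
  rfl

theorem rY_bd (r : ZG G) (u : Ch Y) : bdY (rY r u) = rY r (bdY u) := by
  induction r using zg_ind with
  | h0 => simp
  | h1 x y hx hy => simp only [map_add, LinearMap.add_apply, hx, hy]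
  | h2 m g => simp only [map_zsmul, LinearMap.smul_apply, rY_el, bdY_mp]

theorem rY_nil (r : ZG G) : rY r (Finsupp.single ([] : List Y) 1) = eps r • Finsupp.single [] 1 := by
  induction r using zg_ind with
  | h0 => simp
  | h1 x y hx hy => simp only [map_add, LinearMap.add_apply, hx, hy, add_smul]
  | h2 m g => simp only [map_zsmul, LinearMap.smul_apply, rY_el, mp_single, eps_el]; simp

theorem rY_supp (r : ZG G) (u : Ch Y) {l : List Y} (h : l ∈ (rY r u).support) :
    ∃ g ∈ r.coeff.support, ∃ l' ∈ u.support, l = l'.map fun y => g • y := by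
  classical
  have e : rY r u = ∑ g ∈ r.coeff.support, r.coeff g • mp (fun y => g • y) u := by
    conv_lhs => rw [← MonoidAlgebra.sum_coeff_single r, Finsupp.sum, map_sum, LinearMap.sum_apply]
    exact sum_congr rfl fun g _ => by rw [single_eq, map_zsmul, LinearMap.smul_apply, rY_el]
  rw [e] at h
  obtain ⟨g, hg, h⟩ := mem_biUnion.1 (Finsupp.support_finsetSum h)
  obtain ⟨l', hl, rfl⟩ := mem_image.1 (Finsupp.mapDomain_support (Finsupp.support_smul h))
  exact ⟨g, hg, l', hl, rfl⟩

/-- a chain map from the resolution to the chains on `Y` -/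
def IsCh {ι : Type} [Fintype ι] (deg : ι → ℕ) (c : Matrix ι ι (ZG G)) (w : ι → ℤ)
    (φ : ι → Ch Y) : Prop :=
  ∀ a, (∀ l ∈ (φ a).support, l.length = deg a + 1) ∧
    bdY (φ a) = w a • Finsupp.single [] 1 + ∑ b, rY (c a b) (φ b)

/-- all lists have length `k`, entries in `K` and diameter at most `η` -/
def Sm [MetricSpace Y] (k : ℕ) (K : Set Y) (η : ℝ) (u : Ch Y) : Prop :=
  ∀ l ∈ u.support, l.length = k ∧ ∀ x ∈ l, x ∈ K ∧ ∀ y ∈ l, dist x y ≤ η

end Ch

/-! ### Labels -/

section Lab

variable {G : Type} [Group G]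

/-- countably many copies of the group -/
def Zs (G : Type) : Type := G × ℕ

instance : MulAction G (Zs G) where
  smul g z := (g * z.1, z.2)
  one_smul z := Prod.ext (one_mul z.1) rfl
  mul_smul g h z := Prod.ext (mul_assoc g h z.1) rfl

theorem zs_smul (g : G) (z : Zs G) : g • z = ((g * z.1, z.2) : G × ℕ) := rfl

open Classical in
/-- translation of finite sets -/
def sf (g : G) (S : Finset (Zs G)) : Finset (Zs G) := S.image fun z => g • z

theorem mem_sf {g : G} {S : Finset (Zs G)} {z : Zs G} : z ∈ sf g S ↔ g⁻¹ • z ∈ S := by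
  simp only [sf, mem_image]
  exact ⟨by rintro ⟨y, hy, rfl⟩; simpa using hy, fun h => ⟨_, h, smul_inv_smul _ _⟩⟩

open Classical in
/-- an equivariant choice of a point in every finite set -/
def Bary (b : Finset G → G) : Prop :=
  ∀ S : Finset G, S.Nonempty → b S ∈ S ∧ ∀ g, b (S.image fun t => g * t) = g * b S

open Classical in
/-- the minimisers -/
def mins (S : Finset (Zs G)) (x : Zs G → ℝ) : Finset (Zs G) := S.filter fun z => ∀ y ∈ S, x z ≤ x y

open Classical in
/-- the label -/
def lab (b : Finset G → G) (S : Finset (Zs G)) (x : Zs G → ℝ) : G :=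
  b ((mins S x).image fun z => z.1)

open Classical in
/-- the union -/
def un (l : List (Finset (Zs G))) : Finset (Zs G) := l.toFinset.biUnion id

open Classical in
/-- the intersection -/
def it (l : List (Finset (Zs G))) : Finset (Zs G) := (un l).filter fun z => ∀ S ∈ l, z ∈ S

open Classical in
/-- the sets almost agree -/
def Good (q : ℝ) (l : List (Finset (Zs G))) : Prop :=
  (it l).Nonempty ∧ (((un l) \ (it l)).card : ℝ) ≤ q * (it l).card

open Classical in
/-- the number of lists with pairwise different labels -/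
def bad (b : Finset G → G) (Λ : Finset (List (Finset (Zs G)))) (x : Zs G → ℝ) : ℕ :=
  (Λ.filter fun l => (l.map fun S => lab b S x).Nodup).card

omit [Group G] in
theorem mem_un {l : List (Finset (Zs G))} {z : Zs G} : z ∈ un l ↔ ∃ S ∈ l, z ∈ S := by simp [un]

omit [Group G] in
theorem mem_it {l : List (Finset (Zs G))} {z : Zs G} : z ∈ it l ↔ z ∈ un l ∧ ∀ S ∈ l, z ∈ S := by
  simp [it]

omit [Group G] in
theorem mem_mins {S : Finset (Zs G)} {x : Zs G → ℝ} {z : Zs G} :
    z ∈ mins S x ↔ z ∈ S ∧ ∀ y ∈ S, x z ≤ x y := by simp [mins]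

omit [Group G] in
theorem mins_ne {S : Finset (Zs G)} (h : S.Nonempty) (x : Zs G → ℝ) : (mins S x).Nonempty :=
  (exists_min_image S x h).imp fun _ hz => mem_mins.2 hz

/-- independent priorities -/
def P0 (Z : Type) : Measure (Z → ℝ) :=
  Measure.infinitePi fun _ : Z => ProbabilityTheory.gaussianReal 0 1

instance (Z : Type) : IsProbabilityMeasure (P0 Z) := by unfold P0; infer_instance

/-- a subdivision operator -/
structure IsSd (Sd : Bar G →ₗ[ZG G] Bar G) : Prop where
  nil : Sd (sx []) = sx []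
  bd : ∀ u, bdZ (Sd u) = Sd (bdZ u)
  len : ∀ l, Sd (sx l) ∈ Len l.length
  dup : ∀ l, ¬ l.Nodup → Sd (sx l) = 0
  card : ∀ l, (Sd (sx l)).support.card ≤ l.length.factorial

/-- the combinatorial data extracted from the geometry -/
def Pre {ι : Type} [Fintype ι] (n : ℕ) (deg : ι → ℕ) (c : Matrix ι ι (ZG G)) (w : ι → ℤ)
    (Λ : Finset (List (Finset (Zs G)))) : Prop :=
  ∃ (Y : Type) (_ : MulAction G Y) (S : Y → Finset (Zs G)) (φ : ι → Ch Y),
    (∀ y, (S y).Nonempty) ∧ (∀ (g : G) y, S (g • y) = sf g (S y)) ∧ IsCh deg c w φ ∧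
    ∀ a, deg a = n → ∀ l ∈ (φ a).support, ∃ g : G, (l.map fun y => S (g • y)) ∈ Λ

end Lab

/-! ### Random equivariant operators -/

section Ker

variable {G X κ κ' κ'' : Type} [Group G] [MulAction G X] [MeasurableSpace X]

/-- finite range and measurable level sets -/
def Tm {Y : Type} (f : X → Y) : Prop := (Set.range f).Finite ∧ ∀ y, MeasurableSet (f ⁻¹' {y})

/-- the action preserves the measure -/
def Pmp (G : Type) [Group G] [MulAction G X] (ν : Measure X) : Prop :=
  ∀ g : G, MeasurePreserving (fun x : X => g • x) ν ν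

/-- the twisted product of rows -/
def tp [Fintype κ'] (A : κ → X → κ' → ZG G) (B : κ' → X → κ'' → ZG G) (k : κ) (x : X) :
    κ'' → ZG G :=
  ∑ k', (A k x k').coeff.sum fun g m => (MonoidAlgebra.single g m : ZG G) • B k' (g⁻¹ • x)

open Classical in
/-- unit vectors -/
def dl {α : Type} (p : α) : L2 α := lp.single 2 p 1

/-- families of operators that are equivariant, of finite propagation, measurable and bounded -/
structure Ker (T : X → L2 (G × κ) →L[ℂ] L2 (G × κ')) : Prop where
  eqv : ∀ (g : G) x h k h' k', T (g • x) (dl (g * h, k)) (g * h', k') = T x (dl (h, k)) (h', k')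
  fin : ∃ F : Finset G, ∀ x h k h' k', T x (dl (h, k)) (h', k') ≠ 0 → h⁻¹ * h' ∈ F
  meas : ∀ p p', Measurable fun x => T x (dl p) p'
  bdd : ∃ M : ℝ, ∀ x, ‖T x‖ ≤ M

/-- `T x` is the operator given by the rows `A` at the point `x` -/
def Rep (A : κ → X → κ' → ZG G) (T : X → L2 (G × κ) →L[ℂ] L2 (G × κ')) : Prop :=
  ∀ x h k h' k', T x (dl (h, k)) (h', k') = (((A k (h⁻¹ • x) k').coeff (h⁻¹ * h') : ℤ) : ℂ)

/-- the diagonal sum at the identity -/
def dg [Fintype κ] (T : L2 (G × κ) →L[ℂ] L2 (G × κ)) : ℝ := ∑ k, (T (dl (1, k)) (1, k)).re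

end Ker

end

end Pool.Agent.P.MP_f30597_gt.SV
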