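import Pool.Agent.P.MP_f30597_gt.SV.Lab

/-! A small parametrised fundamental cycle. -/

namespace Pool.Agent.P.MP_f30597_gt.SV

open Finset Matrix SI SI.Par

variable {G ι : Type} [Group G] [Fintype ι] [DecidableEq ι] {deg : ι → ℕ} {c : Matrix ι ι (ZG G)}
  {w w' : ι → ℤ} {n : ℕ} {Ψ : Bar G →ₗ[ZG G] (ι → ZG G)}

theorem cyc {P : Par G} (ev : P.X → Zs G → ℝ) (hev : ∀ (g : G) x z, ev (g • x) (g • z) = ev x z)
    (ht : ∀ z z', P.Tame fun x => ev x z ≤ ev x z') (R : IsResolution deg c w)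
    (hn : ∀ a, deg a ≤ n) (hn0 : 0 < n) (R' : IsResolution (fun a => n - deg a) (cst c) w')
    (h : IsPsi deg c w Ψ) {b : Finset G → G} (hb : Bary b) {Sd : Bar G →ₗ[ZG G] Bar G}
    (hS : IsSd Sd) {Λ : Finset (List (Finset (Zs G)))} (hΛ : Pre n deg c w Λ)
    (hl : ∀ l ∈ Λ, l.length = n + 1) : ∃ z : P.Fn (Bar G), PF Ψ n w' z ∧
      ∀ x, (z.1 x).support.card ≤ (n + 1).factorial * bad b Λ (ev x) := by
  classical
  obtain ⟨Y, _, S, φ, s0, s1, hφ, s2⟩ := hΛ
  obtain ⟨β, hβ⟩ := exists_beta R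
  obtain ⟨-, f2, f3⟩ := fund0 R hn hn0 R' h hβ
  have hτ : ∀ y, P.Tame fun x => lab b (S y) (ev x) := fun y =>
    Tame.det (S y ×ˢ S y) (f := fun p x => ev x p.1 ≤ ev x p.2) (fun p _ => ht p.1 p.2)
      fun _ _ e => lab_congr b _ fun z hz z' hz' => (e (z, z') (mk_mem_product hz hz')).to_iff
  obtain ⟨A, hA⟩ : ∃ A : Ch Y →ₗ[ℤ] P.Fn (Bar G), ∀ u, A u = mapL Sd (pm hτ u) :=
    ⟨(mapL Sd).restrictScalars ℤ ∘ₗ (pm hτ).toIntLinearMap, fun _ => rfl⟩
  have a0 : A (Finsupp.single [] 1) = cn (sx []) := (hA _).trans (Subtype.ext (funext fun x =>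
    (congrArg Sd Finsupp.mapDomain_single).trans hS.nil))
  have a1 : ∀ (g : G) (l : List Y), A (Finsupp.single (l.map fun y => g • y) 1) =
      el g • A (Finsupp.single l 1) := fun g l => by
    rw [hA, hA, ← map_smul]
    refine congrArg _ (psh_el (tame_map hτ) (tame_map hτ) fun x => ?_)
    rw [tr, List.map_map, List.map_map]
    refine List.map_congr_left fun y _ => ?_
    change lab b (S (g • y)) _ = g * lab b (S y) _
    rw [s1]
    exact lab_eqv hb (s0 y) g fun z => by rw [← hev g (g⁻¹ • x), smul_inv_smul]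
  have a2 : ∀ (r : ZG G) u, A (rY r u) = r • A u := fun r u => by
    induction r using zg_ind with
    | h0 => simp
    | h1 x y hx hy => rw [map_add, LinearMap.add_apply, map_add, hx, hy, add_smul]
    | h2 m g =>
      rw [map_zsmul, LinearMap.smul_apply, map_zsmul, smul_assoc, rY_el]
      exact congrArg _ (ch_ext (f := A ∘ₗ mp fun y => g • y)
        (f' := DistribSMul.toLinearMap ℤ _ (el g) ∘ₗ A)
        (fun l => (congrArg A (mp_single _ l)).trans (a1 g l)) u)
  have a3 : ∀ u, mapL bdL (A u) = A (bdY u) := fun u => by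
    rw [hA, hA, ← bdY_eq, ← pm_bd]
    exact Subtype.ext (funext fun x => hS.bd _)
  have a4 : ∀ {k : ℕ} {u : Ch Y}, (∀ l ∈ u.support, l.length = k) → ∀ x, (A u).1 x ∈ Len k :=
    fun hu x => hA _ ▸ sub_len hS (psh_len _ (fun l hl _ => by simpa using hu l hl) x)
  obtain ⟨U, hU⟩ := genF (P := P) (fun a => deg a + 1) (-c)
    (fun a b e => congrArg (· + 1) (R.graded a b (neg_ne_zero.1 e))) (by rw [neg_mul_neg, R.sq])
    bdL Len (fun k => Len (k + 1)) (fun _ => le_rfl) len_fill (fun a => A (φ a) - cn (β a))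
    (fun a x => sub_mem (a4 (hφ a).1 x) (hβ a).1)
    fun a => by
      have e1 : mapL bdL (cn (P := P) (β a)) = cn (bdZ (β a)) := rfl
      simp only [map_sub, e1, a3, (hβ a).2, (hφ a).2, map_add, map_zsmul, map_sum, map_smul, a0, a2,
        Matrix.neg_apply, neg_smul, smul_sub, sum_neg_distrib, sum_sub_distrib]
      abel
  obtain ⟨u, hu⟩ : ∃ u : Ch Y, u = ∑ a, w' a • φ a := ⟨_, rfl⟩
  have u1 : ∀ l ∈ u.support, l.length = n + 1 ∧ ∃ g : G, (l.map fun y => S (g • y)) ∈ Λ := by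
    rw [hu]
    change _ ∈ Finsupp.supported ℤ ℤ {l : List Y | l.length = n + 1 ∧
      ∃ g : G, (l.map fun y => S (g • y)) ∈ Λ}
    refine sum_mem fun a _ => ?_
    by_cases e : w' a = 0
    · simp [e]
    · have := dual_deg hn R' a e
      exact zsmul_mem (fun l hl => ⟨this ▸ (hφ a).1 l hl, s2 a this l hl⟩) _
  choose! u1 γ hγ using u1
  refine ⟨A (u.mapDomain fun l => l.map fun y => γ l • y), ⟨a4 fun l hl => ?_, _, 1,
    ∑ a, w' a • U a, f2, by simpa using f3, fun x => ?_, fun Φ hΦ => ?_⟩, fun x => ?_⟩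
  · obtain ⟨l', h', rfl⟩ := mem_image.1 (Finsupp.mapDomain_support hl)
    simpa using u1 l' h'
  · refine (show ∑ a, w' a • U a ∈ pc (Len (n + 2)) from sum_mem fun a _ => ?_) x
    by_cases e : w' a = 0
    · simp [e]
    · exact zsmul_mem (dual_deg hn R' a e ▸ (hU a).1) _
  · have e1 : Φ (A (u.mapDomain fun l => l.map fun y => γ l • y)) = Φ (A u) :=
      ch_ext (f := Φ.toIntLinearMap ∘ₗ A ∘ₗ Finsupp.lmapDomain ℤ ℤ fun l => l.map fun y => γ l • y)
        (f' := Φ.toIntLinearMap ∘ₗ A) (fun l => by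
          change Φ (A (Finsupp.mapDomain _ _)) = Φ (A _)
          rw [Finsupp.mapDomain_single, a1, hΦ]) u
    have e2 : ∑ a, ∑ b, w' a • Φ (c a b • U b) = 0 := by
      rw [sum_comm]
      exact sum_eq_zero fun b _ => by
        simp only [invG Φ hΦ, smul_smul, ← sum_smul, dual_sum R' b, zero_smul]
    rw [e1, hu]
    simp only [map_sub, map_sum, map_zsmul, (hU _).2, map_add,
      Matrix.neg_apply, neg_smul, map_neg, smul_add, smul_sub, sum_add_distrib, sum_sub_distrib,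
      smul_sum, smul_neg, sum_neg_distrib, e2]
    abel
  · rw [hA]
    refine sub_card hS b hl _ fun m hm => ?_
    obtain ⟨l, h1, rfl⟩ := mem_image.1 (Finsupp.mapDomain_support hm)
    obtain ⟨l', h', rfl⟩ := mem_image.1 (Finsupp.mapDomain_support h1)
    exact ⟨_, hγ l' h', by simp⟩

end Pool.Agent.P.MP_f30597_gt.SV
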