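import Pool.Agent.P.MP_f30597_gt.SV.GPar

/-! The cap product with a measurable family of fundamental cycles. -/

namespace Pool.Agent.P.MP_f30597_gt.SV

open Finset Matrix SI
open scoped TensorProduct

set_option linter.unusedSectionVars false

noncomputable section

variable {G ι : Type} [Group G] [Fintype ι] [DecidableEq ι]

namespace GPar

variable {P : GPar G} {J Y : Type}

/-- chains of simplices that depend on the parameter -/
def psh (f : J → P.X → List G) (hf : ∀ j, P.Tame (f j)) : (J →₀ ℤ) →+ P.Fn (Bar G) :=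
  AddMonoidHom.mk' (fun v => ⟨fun x => v.mapDomain (f · x),
    Tame.det v.support (fun j _ => hf j) fun _ _ e => Finsupp.mapDomain_congr e⟩)
    fun _ _ => Subtype.ext (funext fun _ => Finsupp.mapDomain_add)

theorem psh_len {f : J → P.X → List G} (hf : ∀ j, P.Tame (f j)) {v : J →₀ ℤ} {k : ℕ}
    (h : ∀ j ∈ v.support, ∀ x, (f j x).length = k) (x : P.X) : (psh f hf v).1 x ∈ Len k := by
  classical
  intro l hl
  obtain ⟨j, hj, rfl⟩ := mem_image.1 (Finsupp.mapDomain_support hl)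
  exact h j hj x

theorem psh_card {f : J → P.X → List G} (hf : ∀ j, P.Tame (f j)) (v : J →₀ ℤ) (x : P.X) :
    ((psh f hf v).1 x).support.card ≤ v.support.card := by
  classical
  exact (card_le_card Finsupp.mapDomain_support).trans card_image_le

theorem psh_el {f f' : J → P.X → List G} (hf : ∀ j, P.Tame (f j)) (hf' : ∀ j, P.Tame (f' j))
    {j j' : J} {g : G} (h : ∀ x, f' j' x = tr g (f j (g⁻¹ • x))) :
    psh f' hf' (Finsupp.single j' 1) = el g • psh f hf (Finsupp.single j 1) :=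
  Subtype.ext (funext fun x => by
    rw [el_val]
    change Finsupp.mapDomain _ _ = el g • Finsupp.mapDomain _ _
    rw [Finsupp.mapDomain_single, Finsupp.mapDomain_single, el_smul, h])

theorem tame_map {τ : Y → P.X → G} (hτ : ∀ s, P.Tame (τ s)) (l : List Y) :
    P.Tame fun x => l.map (τ · x) := by
  classical
  exact Tame.det l.toFinset (fun s _ => hτ s) fun _ _ e =>
    List.map_congr_left fun s hs => e s (List.mem_toFinset.2 hs)

/-- the chain map given by a family of maps -/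
def pm {τ : Y → P.X → G} (hτ : ∀ s, P.Tame (τ s)) : (List Y →₀ ℤ) →+ P.Fn (Bar G) :=
  psh _ (tame_map hτ)

theorem pm_bd {τ : Y → P.X → G} (hτ : ∀ s, P.Tame (τ s)) (u : List Y →₀ ℤ) :
    mapL bdL (pm hτ u) = pm hτ (bd u) :=
  Subtype.ext (funext fun x => (bd_eq _).symm.trans (bd_map (τ · x) u))

variable (Ψ : Bar G →ₗ[ZG G] (ι → ZG G)) (a : ι)

/-- the parametrised cap product -/
def Cap : P.Fn (Bar G) →+ P.Fn (Bar G) := ext (fun f => capN Ψ a (mu f)) fun f f' l => by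
  simp only [capN_sx, mu_add, smul_add, sum_add_distrib]

/-- the parametrised evaluation -/
def Ev : P.Fn (Bar G) →+ P.Fn (Bar G) := ext (fun f => evN Ψ a (mu f)) fun f f' l => by
  simp only [evN_apply, mu_add, smul_add]

theorem Cap_mu (f : P.Fn ℤ) (u : Bar G) : Cap Ψ a (mu f u) = capN Ψ a (mu f) u := ext_mu _ _ f u

theorem Ev_mu (f : P.Fn ℤ) (u : Bar G) : Ev Ψ a (mu f u) = rinvL (Ψ u a) • mu f (sx []) :=
  ext_mu _ _ f u

theorem Cap_inv (g : G) (m : P.Fn (Bar G)) : Cap Ψ a (el g • m) = Cap Ψ a m :=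
  fn_eq ((Cap Ψ a).comp (DistribSMul.toAddMonoidHom (P.Fn (Bar G)) (el g))) _ m fun l _ f => by
    change Cap Ψ a (el g • mu f (sx l)) = _
    rw [el_mu, el_smul, Cap_mu, Cap_mu, capN_sx, capN_sx, tr_length]
    refine sum_congr rfl fun j _ => ?_
    rw [show (tr g l).take (j + 1) = tr g (l.take (j + 1)) from List.map_take.symm,
      show (tr g l).drop j = tr g (l.drop j) from List.map_drop.symm, ← el_smul, ← el_smul,
      ← el_mu, pr_tr]

theorem Ev_inv (g : G) (m : P.Fn (Bar G)) : Ev Ψ a (el g • m) = Ev Ψ a m :=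
  fn_eq ((Ev Ψ a).comp (DistribSMul.toAddMonoidHom (P.Fn (Bar G)) (el g))) _ m fun l _ f => by
    change Ev Ψ a (el g • mu f (sx l)) = _
    rw [el_mu, Ev_mu, Ev_mu, ← pr_tr Ψ a g (sx l), el_mu, el_smul g []]
    rfl

theorem cn_eq {F : Type} [AddCommGroup F] [Module (ZG G) F] (y : F) :
    (cn y : P.Fn F) = mu ⟨fun _ => 1, tame_const 1⟩ y :=
  Subtype.ext (funext fun _ => (one_smul ℤ y).symm)

theorem bd_mu (f : P.Fn ℤ) (u : Bar G) : mapL bdL (mu f u) = mu f (bdZ u) :=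
  Subtype.ext (funext fun _ => map_zsmul bdZ _ _)

variable {Ψ} {deg : ι → ℕ} {c : Matrix ι ι (ZG G)} {w : ι → ℤ}

theorem Cap_bd (h : IsPsi deg c w Ψ) (m : P.Fn (Bar G)) : Cap Ψ a (mapL bdL m) =
    ∑ b, cst c a b • Cap Ψ b m -
      (-1 : ℤ) ^ (deg a + 1) • (mapL bdL (Cap Ψ a m) - Ev Ψ a m) := by
  rw [dec m]
  simp only [map_sum, bd_mu, Cap_mu, capN_bd a _ h (mapL bdL) (bd_mu _), Ev_mu, evN_apply,
    sum_sub_distrib, smul_sum, smul_sub]
  rw [sum_comm]

/-- translates of faces of simplices -/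
def AdmX (z : P.Fn (Bar G)) (x : P.X) : Set (List G) :=
  {l | ∃ g σ τ, σ ∈ (z.1 (g⁻¹ • x)).support ∧ τ.Sublist σ ∧ l = tr g τ}

/-- admissible chains -/
def AdmM (z : P.Fn (Bar G)) : Submodule (ZG G) (P.Fn (Bar G)) :=
  pw (fun x => (Finsupp.supported ℤ ℤ (AdmX z x)).toAddSubgroup) fun g x _ hy =>
    sup_map (S := AdmX z (g⁻¹ • x)) (DistribSMul.toLinearMap ℤ (Bar G) (el g))
      (Finsupp.supported ℤ ℤ (AdmX z x)).toAddSubgroup (by
        rintro _ ⟨t, σ, τ, h1, h2, rfl⟩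
        change el g • sx _ ∈ Finsupp.supported ℤ ℤ (AdmX z x)
        rw [el_smul, tr_tr]
        exact Finsupp.single_mem_supported ℤ 1
          ⟨g * t, σ, τ, by rwa [_root_.mul_inv_rev, mul_smul], h2, rfl⟩) hy

theorem Cap_mem (h : IsPsi deg c w Ψ) (m : P.Fn (Bar G)) (Q : Submodule (ZG G) (P.Fn (Bar G)))
    (hQ : ∀ l ∈ occ m, mu (cf m l) (sx (l.drop (deg a))) ∈ Q) : Cap Ψ a m ∈ Q := by
  rw [dec m, map_sum]
  refine sum_mem fun l hl => ?_
  rw [Cap_mu, capN_sx]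
  refine sum_mem fun j hj => ?_
  by_cases e : Ψ (sx (l.take (j + 1))) a = 0
  · simp [e]
  · have := h.hm _ a e
    rw [List.length_take, min_eq_left (mem_range.1 hj : j + 1 ≤ _)] at this
    exact Q.smul_mem _ (Nat.succ_injective this ▸ hQ l hl)

variable {n : ℕ} {w' : ι → ℤ}

/-- a parametrised fundamental cycle -/
structure PF (Ψ : Bar G →ₗ[ZG G] (ι → ZG G)) (n : ℕ) (w' : ι → ℤ) (z : P.Fn (Bar G)) : Prop where
  len : ∀ x, z.1 x ∈ Len (n + 1)
  ex : ∃ (z₀ : Bar G) (k : ℤ) (u : P.Fn (Bar G)), co (bd z₀) = 0 ∧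
    (∀ a, k * eps (Ψ z₀ a) = w' a) ∧ (∀ x, u.1 x ∈ Len (n + 2)) ∧
    ∀ Φ : P.Fn (Bar G) →+ P.Fn (Bar G), (∀ (g : G) m, Φ (el g • m) = Φ m) →
      Φ z = Φ (cn z₀) + Φ (mapL bdL u)

theorem exists_smallP (R : IsResolution deg c w) (hn : ∀ a, deg a ≤ n)
    (R' : IsResolution (fun a => n - deg a) (cst c) w') (h : IsPsi deg c w Ψ)
    {z : P.Fn (Bar G)} (hz : PF Ψ n w' z) : ∃ β : ι → P.Fn (Bar G), ∀ a,
      (∀ x, (β a).1 x ∈ Len (deg a + 1)) ∧
      mapL bdL (β a) = w a • cn (sx []) + ∑ b, c a b • β b ∧ β a ∈ AdmM z := by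
  obtain ⟨z₀, k, u, h0, hk, hu, hΦ⟩ := hz.ex
  obtain ⟨Ψ', h'⟩ := exists_psi R'
  obtain ⟨β, hβ⟩ := exists_beta R
  obtain ⟨q1, q2, q3⟩ := psi_beta h' hβ
  generalize hQ : (Matrix.of fun a => Ψ' (β a)) = Q at q2
  have hQ' : ∀ a, Ψ' (β a) = Q a := fun a => congrFun hQ a
  simp only [hQ'] at q1 q3
  have c1 : ∀ a, Cap Ψ a (mapL bdL z) = 0 := fun a => by
    have := hΦ ((Cap Ψ a).comp (mapL bdL).toAddMonoidHom) fun g m =>
      (congrArg (Cap Ψ a) ((mapL bdL).map_smul _ _)).trans (Cap_inv Ψ a g _)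
    refine this.trans ?_
    change Cap Ψ a (mapL bdL (cn z₀)) + Cap Ψ a (mapL bdL (mapL bdL u)) = 0
    rw [show mapL bdL (mapL bdL u) = 0 from Subtype.ext (funext fun x => bdZ_bdZ _), map_zero,
      add_zero]
    have := inv_co ((Cap Ψ a).toIntLinearMap ∘ₗ (cn (P := P)).restrictScalars ℤ) (fun g l => by
      change Cap Ψ a (cn _) = Cap Ψ a (cn _)
      rw [← el_smul, map_smul, Cap_inv]) (bd z₀)
    rw [h0, map_zero, bd_eq] at this
    exact this.symm
  have c2 : ∀ a, Ev Ψ a z = eps (Ψ z₀ a) • cn (sx []) := fun a => by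
    rw [hΦ _ (Ev_inv Ψ a), cn_eq, Ev_mu, ← cn_eq, ← map_smul, smul_nil, eps_rinv, map_zsmul,
      add_eq_left]
    refine fn_eq ((Ev Ψ a).comp (mapL bdL).toAddMonoidHom) 0 u fun l hl f => ?_
    obtain ⟨x, hx⟩ := mem_occ.1 hl
    change Ev Ψ a (mapL bdL _) = 0
    rw [bd_mu, Ev_mu, ← h.ch, hm_top hn _ (psi_hm h.hm (hu x l hx ▸ sx_len l))]
    simp
  obtain ⟨Γ, hΓ⟩ : ∃ Γ : ι → P.Fn (Bar G), ∀ a, Γ a = (k * eta n * eta (deg a)) • Cap Ψ a z :=
    ⟨_, fun _ => rfl⟩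
  have g1 : ∀ a, mapL bdL (Γ a) = w' a • cn (sx []) + ∑ b, cst c a b • Γ b := fun a => by
    have e := Cap_bd a h z
    rw [c1, c2, eq_comm, sub_eq_zero] at e
    have e1 : ∑ b, cst c a b • Γ b =
        (k * eta n * eta (deg a + 1)) • ∑ b, cst c a b • Cap Ψ b z := by
      rw [smul_sum]
      refine sum_congr rfl fun b _ => ?_
      by_cases e' : c b a = 0
      · simp [cst, e', lap_rinv_zero]
      · rw [hΓ, R.graded b a e', smul_comm]
    have e2 : w' a = k * eta n * eta (deg a) * eps (Ψ z₀ a) := by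
      by_cases e' : w' a = 0
      · rw [mul_assoc k, mul_right_comm, hk, e', zero_mul]
      · rw [dual_deg hn R' a e', mul_assoc k, eta_sq, mul_one, hk]
    rw [e1, e, smul_smul, eta, e2, hΓ, map_zsmul, show k * eta n * ((-1) ^ (deg a + 1) *
      eta (deg a)) * (-1) ^ (deg a + 1) = k * eta n * eta (deg a) by
        rcases neg_one_pow_eq_or ℤ (deg a + 1) with e | e <;> rw [e] <;> ring, smul_sub, smul_smul]
    abel
  refine ⟨fun a => ∑ b, Q a b • Γ b, fun a => ⟨show _ ∈ pc (Len (deg a + 1)) from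
    sum_mem fun b _ => ?_, ?_, sum_mem fun b _ => Submodule.smul_mem _ _ ?_⟩⟩
  · by_cases e : Q a b = 0
    · simp [e]
    · rw [← q1 a b e, hΓ]
      refine Submodule.smul_mem _ _ (zsmul_mem (Cap_mem b h z (pc _) fun l hl x => ?_) _)
      refine (Len (G := G) _).toAddSubgroup.zsmul_mem ?_ _
      obtain ⟨y, hy⟩ := mem_occ.1 hl
      have := hn b
      have e1 : (l.drop (deg b)).length = n - deg b + 1 := by
        rw [List.length_drop, hz.len y l hy]; omega
      exact e1 ▸ sx_len _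
  · simp only [map_sum, map_smul, g1, smul_add, smul_sum, smul_smul, sum_add_distrib]
    congr 1
    · rw [← q3, aug_eq, sum_smul]
      exact sum_congr rfl fun b _ => by
        rw [smul_comm, ← map_smul, smul_nil, map_zsmul, smul_smul]
    · rw [sum_comm, sum_comm (f := fun b e => (c a b * Q b e) • Γ e)]
      exact sum_congr rfl fun e _ => by
        rw [← sum_smul, ← sum_smul, ← mul_apply, ← mul_apply, q2]
  · rw [hΓ]
    refine zsmul_mem (Cap_mem b h z (AdmM z) fun l _ x => ?_) _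
    change z.1 x l • sx _ ∈ Finsupp.supported ℤ ℤ (AdmX z x)
    by_cases e : z.1 x l = 0
    · simp [e]
    · exact zsmul_mem (Finsupp.single_mem_supported ℤ 1 (show _ ∈ AdmX z x from
        ⟨1, l, _, by simpa using e, List.drop_sublist _ _, (tr_one _).symm⟩)) _

end GPar

end

end Pool.Agent.P.MP_f30597_gt.SV
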