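import Pool.Agent.P.MP_f30597_gt.SV.Base

/-! Measurable functions with finite range on a `G`-space. -/

namespace Pool.Agent.P.MP_f30597_gt.SV

open Finset Matrix SI
open scoped TensorProduct

set_option linter.unusedSectionVars false

noncomputable section

/-- a measurable `G`-space -/
structure GPar (G : Type) [Group G] where
  /-- the parameter space -/
  X : Type
  [act : MulAction G X]
  [ms : MeasurableSpace X]
  meas : ∀ g : G, Measurable fun x : X => g • x

attribute [instance] GPar.act GPar.ms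

variable {G : Type} [Group G]

namespace GPar

variable (P : GPar G)

/-- finite range and measurable -/
def Tame {Y : Type} (f : P.X → Y) : Prop := Tm f

variable {P} {Y Z : Type}

theorem tame_const (y : Y) : P.Tame fun _ => y :=
  ⟨Set.finite_range_const, fun _ => MeasurableSet.const _⟩

theorem Tame.shift {f : P.X → Y} (h : P.Tame f) (t : G) : P.Tame fun x => f (t⁻¹ • x) :=
  ⟨h.1.subset (by rintro _ ⟨x, rfl⟩; exact ⟨_, rfl⟩), fun y => P.meas t⁻¹ (h.2 y)⟩

theorem Tame.det {J : Type} (I : Finset J) {f : J → P.X → Y} (h : ∀ j ∈ I, P.Tame (f j))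
    {φ : P.X → Z} (hφ : ∀ x x', (∀ j ∈ I, f j x = f j x') → φ x = φ x') : P.Tame φ := by
  have h1 : (Set.range fun x (j : I) => f j x).Finite :=
    (Set.Finite.pi' fun j : I => (h j j.2).1).subset (by rintro _ ⟨x, rfl⟩ j; exact ⟨x, rfl⟩)
  choose s hs using fun y : Set.range fun x (j : I) => f j x => y.2
  have := h1.to_subtype
  have h2 : ∀ x, φ (s ⟨_, x, rfl⟩) = φ x := fun x => hφ _ _ fun j hj => congrFun (hs _) ⟨j, hj⟩
  refine ⟨(Set.finite_range fun y => φ (s y)).subset ?_, fun z => ?_⟩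
  · rintro _ ⟨x, rfl⟩
    exact ⟨_, h2 x⟩
  · have e : φ ⁻¹' {z} = ⋃ y, ⋃ (_ : φ (s y) = z), ⋂ j : I, f j ⁻¹' {y.1 j} := by
      ext x
      simp only [Set.mem_iUnion, Set.mem_iInter, Set.mem_preimage, Set.mem_singleton_iff]
      exact ⟨fun e => ⟨_, (h2 x).trans e, fun _ => rfl⟩, fun ⟨y, e, e'⟩ =>
        (hφ _ _ fun j hj => (e' ⟨j, hj⟩).trans (congrFun (hs y) ⟨j, hj⟩).symm).trans e⟩
    rw [e]
    exact .iUnion fun y => .iUnion fun _ => .iInter fun j => (h j j.2).2 _

theorem Tame.comp {f : P.X → Y} (h : P.Tame f) (φ : Y → Z) : P.Tame fun x => φ (f x) :=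
  Tame.det {()} (f := fun _ => f) (fun _ _ => h) fun _ _ e => congrArg φ (e () (by simp))

theorem Tame.prod {f : P.X → Y} {f' : P.X → Z} (h : P.Tame f) (h' : P.Tame f') :
    P.Tame fun x => (f x, f' x) :=
  ⟨(h.1.prod h'.1).subset (by rintro _ ⟨x, rfl⟩; exact ⟨⟨x, rfl⟩, x, rfl⟩), fun y => by
    have e : (fun x => (f x, f' x)) ⁻¹' {y} = f ⁻¹' {y.1} ∩ f' ⁻¹' {y.2} := by
      ext x
      simp [Prod.ext_iff]
    rw [e]
    exact (h.2 _).inter (h'.2 _)⟩

open Classical in
theorem Tame.ite {Q : P.X → Prop} {f f' : P.X → Y} (h : P.Tame Q) (h1 : P.Tame f)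
    (h2 : P.Tame f') : P.Tame fun x => if Q x then f x else f' x :=
  (h.prod (h1.prod h2)).comp fun p => if p.1 then p.2.1 else p.2.2

variable (P) in
/-- the group of tame functions -/
def Fn (F : Type) [AddCommGroup F] : AddSubgroup (P.X → F) where
  carrier := {f | P.Tame f}
  add_mem' h h' := (h.prod h').comp fun p => p.1 + p.2
  zero_mem' := tame_const 0
  neg_mem' h := h.comp Neg.neg

variable {F F' : Type} [AddCommGroup F] [AddCommGroup F']

/-- composition with an additive map -/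
def mapA (f : F →+ F') : P.Fn F →+ P.Fn F' :=
  AddMonoidHom.mk' (fun m => ⟨fun x => f (m.1 x), Tame.comp m.2 f⟩) fun _ _ =>
    Subtype.ext (funext fun _ => map_add f _ _)

/-- evaluation -/
def ev (x : P.X) : P.Fn F →+ F := AddMonoidHom.mk' (fun m => m.1 x) fun _ _ => rfl

theorem sum_val {J : Type} (I : Finset J) (m : J → P.Fn F) (x : P.X) :
    (∑ j ∈ I, m j).1 x = ∑ j ∈ I, (m j).1 x := map_sum (ev x) m I

/-- translation -/
def sh (g : G) (m : P.Fn F) : P.Fn F := ⟨fun x => m.1 (g⁻¹ • x), Tame.shift m.2 g⟩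

/-- a function times a vector -/
def mu (f : P.Fn ℤ) : F →ₗ[ℤ] P.Fn F :=
  (AddMonoidHom.mk' (fun y => (⟨fun x => f.1 x • y, Tame.comp f.2 (· • y)⟩ : P.Fn F)) fun _ _ =>
    Subtype.ext (funext fun _ => smul_add _ _ _)).toIntLinearMap

theorem mu_add (f f' : P.Fn ℤ) (y : F) : mu (f + f') y = mu f y + mu f' y :=
  Subtype.ext (funext fun _ => add_smul _ _ _)

variable [Module (ZG G) F] [Module (ZG G) F']

/-- the twisted action -/
def rhoF : G →* Module.End ℤ (P.Fn F) where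
  toFun g := (AddMonoidHom.mk' (fun m : P.Fn F => (⟨fun x => el g • m.1 (g⁻¹ • x),
    Tame.comp (Tame.shift m.2 g) (el g • ·)⟩ : P.Fn F)) fun _ _ =>
      Subtype.ext (funext fun _ => smul_add _ _ _)).toIntLinearMap
  map_one' := LinearMap.ext fun m => Subtype.ext (funext fun x => by
    change el 1 • m.1 (1⁻¹ • x) = m.1 x
    rw [inv_one, one_smul, el, ← MonoidAlgebra.one_def, one_smul])
  map_mul' g h := LinearMap.ext fun m => Subtype.ext (funext fun x => by
    change el (g * h) • m.1 ((g * h)⁻¹ • x) = el g • el h • m.1 (h⁻¹ • g⁻¹ • x)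
    rw [_root_.mul_inv_rev, mul_smul h⁻¹, smul_smul (el g), MonoidAlgebra.single_mul_single,
      one_mul])

instance fnModule : Module (ZG G) (P.Fn F) :=
  Module.compHom _ (MonoidAlgebra.lift ℤ (Module.End ℤ (P.Fn F)) G rhoF).toRingHom

theorem el_val (g : G) (m : P.Fn F) (x : P.X) : (el g • m).1 x = el g • m.1 (g⁻¹ • x) := by
  change (MonoidAlgebra.lift ℤ (Module.End ℤ (P.Fn F)) G rhoF (el g) m).1 x = _
  rw [MonoidAlgebra.lift_single, one_smul]
  rfl

theorem smul_val (r : ZG G) (m : P.Fn F) (x : P.X) : (r • m).1 x =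
    r.coeff.sum fun g k => (MonoidAlgebra.single g k : ZG G) • m.1 (g⁻¹ • x) := by
  have : ∀ r : ZG G, (r • m).1 x = pat_e1 (fun g => el g • m.1 (g⁻¹ • x)) r := fun r => by
    induction r using zg_ind with
    | h0 => rw [zero_smul, map_zero]; rfl
    | h1 a b ha hb => rw [add_smul, map_add, ← ha, ← hb]; rfl
    | h2 k g => rw [smul_assoc, map_zsmul, pat_e1_single, one_smul, ← el_val]; rfl
  rw [this, pat_e1_apply]
  exact Finsupp.sum_congr fun g _ => by rw [single_eq, smul_assoc]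

/-- composition with a linear map -/
def mapL (f : F →ₗ[ZG G] F') : P.Fn F →ₗ[ZG G] P.Fn F' :=
  linG (mapA f.toAddMonoidHom) fun g m => Subtype.ext (funext fun x => by
    rw [el_val]
    change f ((el g • m).1 x) = el g • f _
    rw [el_val, map_smul])

theorem mapL_val (f : F →ₗ[ZG G] F') (m : P.Fn F) (x : P.X) : (mapL f m).1 x = f (m.1 x) := rfl

/-- constant functions -/
def cn : F →ₗ[ZG G] P.Fn F :=
  linG (AddMonoidHom.mk' (fun y => ⟨fun _ => y, tame_const y⟩) fun _ _ => rfl) fun g y =>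
    Subtype.ext (funext fun x => (el_val g ⟨fun _ => y, tame_const y⟩ x).symm)

theorem el_mu (g : G) (f : P.Fn ℤ) (y : F) : el g • mu f y = mu (sh g f) (el g • y) :=
  Subtype.ext (funext fun x => (el_val g _ x).trans (smul_comm _ _ _))

/-- functions with prescribed values -/
def pw (Q : P.X → AddSubgroup F) (hQ : ∀ (g : G) x, ∀ y ∈ Q (g⁻¹ • x), el g • y ∈ Q x) :
    Submodule (ZG G) (P.Fn F) where
  carrier := {m | ∀ x, m.1 x ∈ Q x}
  add_mem' h h' x := add_mem (h x) (h' x)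
  zero_mem' x := zero_mem (Q x)
  smul_mem' r m hm x := by
    rw [smul_val]
    exact sum_mem fun g _ => by
      beta_reduce
      rw [single_eq, smul_assoc]; exact zsmul_mem (hQ g x _ (hm _)) _

/-- functions with values in a submodule -/
def pc (Q : Submodule (ZG G) F) : Submodule (ZG G) (P.Fn F) :=
  pw (fun _ => Q.toAddSubgroup) fun _ _ _ h => Q.smul_mem _ h

theorem genF {ι : Type} [Fintype ι] (deg : ι → ℕ) (c : Matrix ι ι (ZG G))
    (hc : ∀ a b, c a b ≠ 0 → deg a = deg b + 1) (h2 : c * c = 0) (d : F →ₗ[ZG G] F)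
    (Z Y : ℕ → Submodule (ZG G) F) (hYZ : ∀ k, Y k ≤ Z (k + 1))
    (hex : ∀ k, ∀ y ∈ Z k, d y = 0 → ∃ x ∈ Y k, d x = y) (θ : ι → P.Fn F)
    (hθ : ∀ a x, (θ a).1 x ∈ Z (deg a)) (hd : ∀ a, mapL d (θ a) + ∑ b, c a b • θ b = 0) :
    ∃ h : ι → P.Fn F, ∀ a, (∀ x, (h a).1 x ∈ Y (deg a)) ∧
      mapL d (h a) = θ a + ∑ b, c a b • h b :=
  gen deg c hc h2 (mapL d) (fun k => pc (Z k)) (fun k => pc (Y k))
    (fun k _ h x => hYZ k (h x)) (fun k y h1 h2 => by
      choose! f hf using hex k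
      have := fun x => hf _ (h1 x) (congrFun (congrArg Subtype.val h2) x)
      exact ⟨⟨fun x => f (y.1 x), Tame.comp y.2 f⟩, fun x => (this x).1,
        Subtype.ext (funext fun x => (this x).2)⟩) θ hθ hd

open Classical in
/-- the simplices that occur -/
def occ (m : P.Fn (Bar G)) : Finset (List G) := m.2.1.toFinset.biUnion Finsupp.support

theorem mem_occ {m : P.Fn (Bar G)} {l : List G} : l ∈ occ m ↔ ∃ x, l ∈ (m.1 x).support := by
  simp [occ]

/-- one coefficient function -/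
def cf1 (l : List G) : P.Fn (Bar G) →+ P.Fn ℤ := mapA (Finsupp.applyAddHom l)

theorem cf1_occ (m : P.Fn (Bar G)) (l : List G) (h : cf1 l m ≠ 0) : l ∈ occ m :=
  by_contra fun e => h (Subtype.ext (funext fun x =>
    Finsupp.notMem_support_iff.1 fun e' => e (mem_occ.2 ⟨x, e'⟩)))

/-- coefficient functions -/
def cf : P.Fn (Bar G) →+ (List G →₀ P.Fn ℤ) :=
  AddMonoidHom.mk' (fun m => Finsupp.onFinset (occ m) (fun l => cf1 l m) (cf1_occ m))
    fun _ _ => Finsupp.ext fun l => map_add (cf1 l) _ _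

theorem cf_val (m : P.Fn (Bar G)) (l : List G) (x : P.X) : (cf m l).1 x = m.1 x l := rfl

theorem cf_mu (f : P.Fn ℤ) (l : List G) : cf (mu f (sx l)) = Finsupp.single l f := by
  classical
  ext l' x
  rw [cf_val, Finsupp.single_apply]
  change (f.1 x • sx l) l' = _
  split_ifs with e <;> simp [e]

theorem dec (m : P.Fn (Bar G)) : m = ∑ l ∈ occ m, mu (cf m l) (sx l) := by
  classical
  refine Subtype.ext (funext fun x => ?_)
  rw [sum_val]
  conv_lhs => rw [← (m.1 x).sum_single, Finsupp.sum_of_support_subset _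
    (fun l hl => mem_occ.2 ⟨x, hl⟩) _ fun _ _ => Finsupp.single_zero _]
  exact sum_congr rfl fun l _ => (Finsupp.smul_single_one l (m.1 x l)).symm

/-- additive extension -/
def ext {N : Type} [AddCommGroup N] (κ : P.Fn ℤ → Bar G →ₗ[ℤ] N)
    (h : ∀ f f' l, κ (f + f') (sx l) = κ f (sx l) + κ f' (sx l)) : P.Fn (Bar G) →+ N :=
  (Finsupp.liftAddHom fun l => AddMonoidHom.mk' (fun f => κ f (sx l)) fun f f' => h f f' l).comp cf

theorem ext_mu {N : Type} [AddCommGroup N] (κ : P.Fn ℤ → Bar G →ₗ[ℤ] N)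
    (h : ∀ f f' l, κ (f + f') (sx l) = κ f (sx l) + κ f' (sx l)) (f : P.Fn ℤ) (u : Bar G) :
    ext κ h (mu f u) = κ f u :=
  sup_eq (S := Set.univ) ((ext κ h).toIntLinearMap ∘ₗ mu f) (κ f) (fun l _ => by
    change Finsupp.liftAddHom _ (cf (mu f (sx l))) = _
    rw [cf_mu, Finsupp.liftAddHom_apply_single]
    rfl) fun _ _ => trivial

theorem fn_eq {N : Type} [AddCommGroup N] (Φ Φ' : P.Fn (Bar G) →+ N) (m : P.Fn (Bar G))
    (h : ∀ l ∈ occ m, ∀ f, Φ (mu f (sx l)) = Φ' (mu f (sx l))) : Φ m = Φ' m := by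
  rw [dec m, map_sum, map_sum]
  exact sum_congr rfl fun l hl => h l hl _

end GPar

end

end Pool.Agent.P.MP_f30597_gt.SV
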