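import Pool.Agent.P.MP_f30597_gt.SV.Base

/-! Equivariance of the labels and the support of subdivided chains. -/

namespace Pool.Agent.P.MP_f30597_gt.SV

open Finset SI

variable {G : Type} [Group G]

theorem lab_eqv {b : Finset G → G} (hb : Bary b) {S : Finset (Zs G)} (hS : S.Nonempty) (g : G)
    {x x' : Zs G → ℝ} (h : ∀ z, x' (g • z) = x z) : lab b (sf g S) x' = g * lab b S x := by
  classical
  have e : mins (sf g S) x' = sf g (mins S x) := by
    ext z
    rw [mem_mins, mem_sf, mem_sf, mem_mins, ← h, smul_inv_smul]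
    refine and_congr_right fun _ => ⟨fun H y hy => ?_, fun H y hy => ?_⟩
    · rw [← h]
      exact H _ (mem_sf.2 (by rwa [inv_smul_smul]))
    · have := H _ (mem_sf.1 hy)
      rwa [← h, smul_inv_smul] at this
  rw [lab, lab, e, ← (hb _ ((mins_ne hS x).image _)).2, sf, image_image, image_image]
  rfl

omit [Group G] in
theorem lab_congr (b : Finset G → G) (S : Finset (Zs G)) {x x' : Zs G → ℝ}
    (h : ∀ z ∈ S, ∀ y ∈ S, x z ≤ x y ↔ x' z ≤ x' y) : lab b S x = lab b S x' := by
  have e : mins S x = mins S x' := by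
    ext z
    rw [mem_mins, mem_mins]
    exact and_congr_right fun hz => forall₂_congr fun y hy => h z hz y hy
  rw [lab, lab, e]

theorem sub_len {Sd : Bar G →ₗ[ZG G] Bar G} (hS : IsSd Sd) {k : ℕ} {u : Bar G} (hu : u ∈ Len k) :
    Sd u ∈ Len k :=
  sup_map (S := {l | l.length = k}) (Sd.restrictScalars ℤ) (Len k).toAddSubgroup
    (fun l hl => (show l.length = k from hl) ▸ hS.len l) hu

theorem sub_card {Sd : Bar G →ₗ[ZG G] Bar G} (hS : IsSd Sd) (b : Finset G → G) {k : ℕ}
    {Λ : Finset (List (Finset (Zs G)))} (hΛ : ∀ l ∈ Λ, l.length = k) (x : Zs G → ℝ) {u : Bar G}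
    (hu : ∀ m ∈ u.support, ∃ l ∈ Λ, m = l.map fun S => lab b S x) :
    (Sd u).support.card ≤ k.factorial * bad b Λ x := by
  classical
  obtain ⟨T, hT⟩ : ∃ T, T = (Λ.filter fun l => (l.map fun S => lab b S x).Nodup).biUnion
    fun l => (Sd (sx (l.map fun S => lab b S x))).support := ⟨_, rfl⟩
  have h1 : Sd u ∈ Finsupp.supported ℤ ℤ (T : Set (List G)) :=
    sup_map (S := {m | ∃ l ∈ Λ, m = l.map fun S => lab b S x}) (Sd.restrictScalars ℤ)
      (Finsupp.supported ℤ ℤ (T : Set (List G))).toAddSubgroup (by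
        rintro _ ⟨l, hl, rfl⟩
        change Sd _ ∈ Finsupp.supported ℤ ℤ (T : Set (List G))
        by_cases e : (l.map fun S => lab b S x).Nodup
        · intro m hm
          rw [hT, mem_coe, mem_biUnion]
          exact ⟨l, mem_filter.2 ⟨hl, e⟩, hm⟩
        · rw [hS.dup _ e]
          exact zero_mem _) hu
  refine (card_le_card (coe_subset.1 h1)).trans ?_
  rw [hT, mul_comm, bad]
  refine (card_biUnion_le_card_mul _ _ _ fun l hl => (hS.card _).trans_eq ?_).trans_eq (by congr)
  rw [List.length_map, hΛ l (mem_filter.1 hl).1]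

end Pool.Agent.P.MP_f30597_gt.SV
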