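import Pool.Agent.P.MP_f30597_gt.SV.Iface

/-! Step TIE. -/

namespace Pool.Agent.P.MP_f30597_gt.SV

open Finset Filter Topology MeasureTheory SI

theorem p_TIE :
    S_TIE := by
  intro Z a b hab
  have hind : ProbabilityTheory.iIndepFun (fun (i : Z) (x : Z → ℝ) => x i) (P0 Z) := by
    unfold P0
    exact ProbabilityTheory.iIndepFun_infinitePi (X := fun _ (y : ℝ) => y) (fun _ => measurable_id)
  have h2 := hind.indepFun hab
  have hma : Measurable (fun x : Z → ℝ => x a) := measurable_pi_apply a
  have hmb : Measurable (fun x : Z → ℝ => x b) := measurable_pi_apply b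
  rw [ProbabilityTheory.indepFun_iff_map_prod_eq_prod_map_map hma.aemeasurable
    hmb.aemeasurable] at h2
  have hD : MeasurableSet {p : ℝ × ℝ | p.1 = p.2} :=
    measurableSet_eq_fun measurable_fst measurable_snd
  have h3 : P0 Z {x | x a = x b}
      = (P0 Z).map (fun x => (x a, x b)) {p : ℝ × ℝ | p.1 = p.2} := by
    rw [Measure.map_apply (hma.prodMk hmb) hD]; rfl
  have hb : (P0 Z).map (fun x => x b) = ProbabilityTheory.gaussianReal 0 1 := by
    unfold P0
    exact Measure.infinitePi_map_eval _ b
  rw [h3, h2, hb, Measure.prod_apply hD]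
  have hN : NullSingletonClass (ProbabilityTheory.gaussianReal 0 1) :=
    ProbabilityTheory.nullSingletonClass_gaussianReal one_ne_zero
  have h5 : ∀ x : ℝ, ProbabilityTheory.gaussianReal 0 1 (Prod.mk x ⁻¹' {p : ℝ × ℝ | p.1 = p.2}) = 0 := by
    intro x
    have : (Prod.mk x ⁻¹' {p : ℝ × ℝ | p.1 = p.2}) = {x} := by
      ext y; simp [eq_comm]
    rw [this]; exact measure_singleton x
  simp only [h5, lintegral_zero]

end Pool.Agent.P.MP_f30597_gt.SV
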